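import Pool.Agent.P.MP_10af71_co.Key3

namespace Pool.Agent.P.MP_10af71_co

open Finset

/-- reduction modulo `P` -/
abbrev ph (P Q : ℕ) : ZMod (P * Q) →+* ZMod P := ZMod.castHom (dvd_mul_right P Q) (ZMod P)

/-- indicator of `C` -/
def ic {P : ℕ} (C : Finset (ZMod P)) (c : ZMod P) : ℕ := if c ∈ C then 1 else 0

lemma ic_mem {P : ℕ} {C : Finset (ZMod P)} {c : ZMod P} (h : c ∈ C) : ic C c = 1 := by
  simp [ic, h]

lemma ic_not {P : ℕ} {C : Finset (ZMod P)} {c : ZMod P} (h : c ∉ C) : ic C c = 0 := by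
  simp [ic, h]

lemma ic_le {P : ℕ} (C : Finset (ZMod P)) (c : ZMod P) : ic C c ≤ 1 := by
  unfold ic; split_ifs <;> simp

/-- The group-level structure. -/
structure GStr (P Q : ℕ) (lo : ZMod P → ZMod (P * Q)) (C : Finset (ZMod P))
    (δ U : ZMod (P * Q)) : Prop where
  hlo : ∀ c, ph P Q (lo c) = c
  lo0 : lo 0 = 0
  C0 : (0 : ZMod P) ∉ C
  hδ : ph P Q δ = 0
  δne : δ ≠ 0
  star : ∀ S S' : Finset (ZMod P), Disjoint S S' → S' ⊆ C →
    ∑ c ∈ S, c - ∑ c ∈ S', c = ph P Q U →
    ∃ i : ℕ, i < ∑ c ∈ S, ic C c + S'.card ∧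
      ∑ c ∈ S, lo c + ∑ c ∈ S', (δ - lo c) = U + i * δ

section
variable {P Q : ℕ} {lo : ZMod P → ZMod (P * Q)} {C : Finset (ZMod P)} {δ U : ZMod (P * Q)}

lemma GStr.r0 (M : GStr P Q lo C δ U) : ph P Q U ≠ 0 := by
  intro h
  obtain ⟨i, h1, _⟩ := M.star ∅ ∅ (by simp) (by simp) (by rw [h]; simp)
  simp at h1

lemma GStr.r1 (M : GStr P Q lo C δ U) : ph P Q U ∈ C ∧ lo (ph P Q U) = U := by
  obtain ⟨i, h1, h2⟩ := M.star {ph P Q U} ∅ (by simp) (by simp)
    (by rw [sum_singleton, sum_empty, sub_zero])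
  rw [sum_singleton, card_empty, add_zero] at h1
  rw [sum_singleton, sum_empty, add_zero] at h2
  have := ic_le C (ph P Q U)
  have hi : i = 0 := by omega
  subst hi
  refine ⟨?_, by simpa using h2⟩
  by_contra h
  rw [ic_not h] at h1; omega

lemma GStr.r2 (M : GStr P Q lo C δ U) {p q : ZMod P} (hpq : p ≠ q) (hs : p + q = ph P Q U) :
    ∃ i : ℕ, i < ic C p + ic C q ∧ lo p + lo q = U + i * δ := by
  have := M.star {p, q} ∅ (by simp) (by simp) (by rw [sum_pair hpq, hs]; simp)
  simpa [sum_pair hpq] using this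

lemma GStr.r3 (M : GStr P Q lo C δ U) {p q : ZMod P} (hq : q ∈ C) (hs : p - q = ph P Q U) :
    ∃ i : ℕ, i ≤ ic C p ∧ lo p + (δ - lo q) = U + i * δ := by
  have hpq : p ≠ q := by
    rintro rfl; apply M.r0; rw [← hs]; simp
  have := M.star {p} {q} (by simpa using hpq) (by simpa using hq)
    (by rw [sum_singleton, sum_singleton, hs])
  simpa [Nat.lt_succ_iff] using this

lemma GStr.r33 (M : GStr P Q lo C δ U) {p q r : ZMod P} (hpq : p ≠ q) (hpr : p ≠ r)
    (hqr : q ≠ r) (hs : p + q + r = ph P Q U) :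
    ∃ i : ℕ, i < ic C p + ic C q + ic C r ∧ lo p + lo q + lo r = U + i * δ := by
  have h1 : p ∉ ({q, r} : Finset (ZMod P)) := by simp [hpq, hpr]
  have := M.star {p, q, r} ∅ (by simp) (by simp)
    (by rw [sum_insert h1, sum_pair hqr, ← hs]; simp [add_assoc])
  simp only [sum_insert h1, sum_pair hqr, sum_empty, add_zero] at this
  simpa [add_assoc] using this

lemma GStr.r21 (M : GStr P Q lo C δ U) {p q r : ZMod P} (hpq : p ≠ q) (hpr : p ≠ r)
    (hqr : q ≠ r) (hr : r ∈ C) (hs : p + q - r = ph P Q U) :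
    ∃ i : ℕ, i ≤ ic C p + ic C q ∧ lo p + lo q + (δ - lo r) = U + i * δ := by
  have := M.star {p, q} {r} (by simp [hpr.symm, hqr.symm]) (by simpa using hr)
    (by rw [sum_pair hpq, sum_singleton, hs])
  simpa [sum_pair hpq, Nat.lt_succ_iff] using this

/-- admissible virtual values -/
def Adm (lo : ZMod P → ZMod (P * Q)) (C : Finset (ZMod P)) (δ : ZMod (P * Q)) (c : ZMod P)
    (v : ZMod (P * Q)) : Prop := v = lo c ∨ (c ∉ C ∧ v = lo c + δ)

lemma adm_step {c : ZMod P} {v' z : ZMod (P * Q)} (h : Adm lo C δ c v') {i : ℕ}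
    (hi : i ≤ ic C c) (hz : lo c - z = U - δ + i * δ) : v' - z = U ∨ v' - z = U - δ := by
  rcases h with h | h
  · have := ic_le C c
    obtain rfl | rfl : i = 0 ∨ i = 1 := by omega
    · right; rw [h, hz]; simp
    · left; rw [h, hz]; simp
  · rw [ic_not h.1] at hi
    obtain rfl : i = 0 := by omega
    left; rw [h.2]; linear_combination hz

lemma GStr.exists_V (M : GStr P Q lo C δ U) (hP : P.Prime) (hP7 : 7 ≤ P) (c : ZMod P) :
    ∃ v, Adm lo C δ c v ∧
      (∀ v', Adm lo C δ (c + ph P Q U) v' → v' - v = U ∨ v' - v = U - δ) ∧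
      (c = 0 → v = 0) ∧ (c = -ph P Q U → v = δ - U) := by
  have := Fact.mk hP
  obtain ⟨e, he⟩ : ∃ e, e = ph P Q U := ⟨_, rfl⟩
  have he0 : e ≠ 0 := he ▸ M.r0
  have heC : e ∈ C := he ▸ M.r1.1
  have hle : lo e = U := he ▸ M.r1.2
  have nz : ∀ k : ℕ, 0 < k → k < P → ∀ x : ZMod P, x ≠ 0 → (k : ZMod P) * x ≠ 0 :=
    fun k h0 h1 x hx => mul_ne_zero (cast_ne_zero_of_lt h0 h1) hx
  rw [← he]
  by_cases hc : c ∈ C
  · refine ⟨lo c, Or.inl rfl, ?_, ?_, ?_⟩
    · intro v' hv'
      obtain ⟨i, hi, h⟩ := M.r3 (p := c + e) hc (by rw [← he]; ring)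
      exact adm_step hv' hi (by linear_combination h)
    · rintro rfl; exact M.lo0
    · rintro rfl
      obtain ⟨i, hi, h⟩ := M.r3 (p := 0) hc (by rw [← he]; ring)
      rw [ic_not M.C0] at hi
      obtain rfl : i = 0 := by omega
      rw [M.lo0] at h
      linear_combination -h
  by_cases hh : c + e = -c
  · -- exceptional step
    have hc0 : c ≠ 0 := by rintro rfl; apply he0; simpa using hh
    have hec : e = -2 * c := by linear_combination hh
    obtain ⟨i, hi, h⟩ := M.r2 (p := c) (q := -3 * c)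
      (by intro h; apply nz 4 (by omega) (by omega) c hc0; push_cast; linear_combination h)
      (by rw [← he, hec]; ring)
    rw [ic_not hc] at hi
    have := ic_le C (-3 * c)
    obtain rfl : i = 0 := by omega
    obtain ⟨j, hj, h'⟩ := M.r21 (p := -c) (q := -3 * c) (r := e)
      (by intro h; apply nz 2 (by omega) (by omega) c hc0; push_cast; linear_combination h)
      (by intro h; apply hc0; rw [hec] at h; linear_combination h)
      (by intro h; apply hc0; rw [hec] at h; linear_combination -h) heC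
      (by rw [← he, hec]; ring)
    rw [hle] at h'
    have hne0 : c = 0 → False := hc0
    have hne1 : c = -e → False := by
      intro h; apply hc0; rw [hec] at h; linear_combination -h
    rw [hh]
    by_cases hc' : -c ∈ C
    · rw [ic_mem hc'] at hj
      have hadm : ∀ v', Adm lo C δ (-c) v' → v' = lo (-c) := by
        intro v' hv'
        rcases hv' with h | h
        · exact h
        · exact absurd hc' h.1
      obtain rfl | rfl | rfl : j = 0 ∨ j = 1 ∨ j = 2 := by omega
      · refine ⟨lo c, Or.inl rfl, fun v' hv' => ?_, fun h => (hne0 h).elim,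
          fun h => (hne1 h).elim⟩
        right; rw [hadm v' hv']; push_cast at h h'; linear_combination h' - h
      · refine ⟨lo c, Or.inl rfl, fun v' hv' => ?_, fun h => (hne0 h).elim,
          fun h => (hne1 h).elim⟩
        left; rw [hadm v' hv']; push_cast at h h'; linear_combination h' - h
      · refine ⟨lo c + δ, Or.inr ⟨hc, rfl⟩, fun v' hv' => ?_, fun h => (hne0 h).elim,
          fun h => (hne1 h).elim⟩
        left; rw [hadm v' hv']; push_cast at h h'; linear_combination h' - h
    · rw [ic_not hc'] at hj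
      obtain rfl | rfl : j = 0 ∨ j = 1 := by omega
      · refine ⟨lo c, Or.inl rfl, fun v' hv' => ?_, fun h => (hne0 h).elim,
          fun h => (hne1 h).elim⟩
        exact adm_step hv' (i := 0) (Nat.zero_le _) (by push_cast at h h' ⊢; linear_combination h' - h)
      · refine ⟨lo c + δ, Or.inr ⟨hc, rfl⟩, fun v' hv' => ?_, fun h => (hne0 h).elim,
          fun h => (hne1 h).elim⟩
        exact adm_step hv' (i := 0) (Nat.zero_le _) (by push_cast at h h' ⊢; linear_combination h' - h)
  have hce : c ≠ e := by rintro rfl; exact hc heC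
  have r4 : c ≠ 0 → c ≠ -e → ∃ i : ℕ, i ≤ ic C (-c) ∧ lo c + lo (-c) = i * δ := by
    intro h0 h1
    obtain ⟨i, hi, h⟩ := M.r33 (p := c) (q := -c) (r := e)
      (by intro h; apply nz 2 (by omega) (by omega) c h0; push_cast; linear_combination h)
      hce (by intro h; apply h1; rw [← h]; simp) (by rw [← he]; ring)
    rw [ic_not hc, ic_mem heC] at hi
    rw [hle] at h
    exact ⟨i, by omega, by linear_combination h⟩
  obtain ⟨i, hi, h⟩ := M.r2 (p := c + e) (q := -c) hh (by rw [← he]; ring)
  by_cases hc' : -c ∈ C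
  · have hc0 : c ≠ 0 := by rintro rfl; exact M.C0 (by simpa using hc')
    rw [ic_mem hc'] at hi
    refine ⟨δ - lo (-c), ?_, fun v' hv' => ?_, fun h => (hc0 h).elim, ?_⟩
    · by_cases h1 : c = -e
      · obtain ⟨j, hj, h'⟩ := M.r2 (p := c) (q := 2 * e)
          (by intro h; apply nz 3 (by omega) (by omega) e he0; rw [h1] at h; push_cast
              linear_combination -h)
          (by rw [← he, h1]; ring)
        obtain ⟨l, hl, h''⟩ := M.r3 (p := 2 * e) (q := e) heC (by rw [← he]; ring)
        rw [ic_not hc] at hj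
        have := ic_le C (2 * e)
        obtain rfl : j = 0 := by omega
        have e1 : lo (-c) = U := by rw [h1, neg_neg, hle]
        rw [hle] at h''
        rw [e1]
        obtain rfl | rfl : l = 0 ∨ l = 1 := by omega
        · left; push_cast at h' h''; linear_combination h'' - h'
        · right; refine ⟨hc, ?_⟩; push_cast at h' h''; linear_combination h'' - h'
      · obtain ⟨j, hj, h'⟩ := r4 hc0 h1
        rw [ic_mem hc'] at hj
        obtain rfl | rfl : j = 0 ∨ j = 1 := by omega
        · right; refine ⟨hc, ?_⟩; push_cast at h'; linear_combination -h'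
        · left; push_cast at h'; linear_combination -h'
    · exact adm_step hv' (i := i) (by omega) (by linear_combination h)
    · intro h1; rw [h1, neg_neg, hle]
  · have h1 : c ≠ -e := by rintro rfl; exact hc' (by simpa using heC)
    have hz : lo c + lo (-c) = 0 := by
      by_cases h0 : c = 0
      · subst h0; simp [M.lo0]
      · obtain ⟨j, hj, h'⟩ := r4 h0 h1
        rw [ic_not hc'] at hj
        obtain rfl : j = 0 := by omega
        simpa using h'
    rw [ic_not hc'] at hi
    have := ic_le C (c + e)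
    obtain rfl : i = 0 := by omega
    have hce' : c + e ∈ C := by
      by_contra hn; rw [ic_not hn] at hi; omega
    refine ⟨lo c, Or.inl rfl, fun v' hv' => ?_, ?_, fun h => (h1 h).elim⟩
    · rcases hv' with h' | h'
      · left; rw [h']; push_cast at h; linear_combination h - hz
      · exact absurd hce' h'.1
    · rintro rfl; exact M.lo0

lemma GStr.exists_model (M : GStr P Q lo C δ U) (hP : P.Prime) (hP7 : 7 ≤ P) (hQ : Q.Prime) :
    ∃ η : ZMod (P * Q), IsUnit η ∧ (P : ZMod (P * Q)) * η = δ ∧ ph P Q η ≠ 0 ∧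
      ∃ (a X : ZMod P → ℤ) (C' : Finset (ZMod P)) (y : ℤ), Model P Q a X C' y ∧
        (∀ c, lo (ph P Q η * c) = (a c : ZMod (P * Q)) * η) ∧
        (∀ c, c ∈ C' ↔ ph P Q η * c ∈ C) := by
  have := Fact.mk hP
  have : NeZero (P * Q) := ⟨Nat.mul_ne_zero hP.ne_zero hQ.ne_zero⟩
  choose V hV1 hV2 hV3 hV4 using M.exists_V hP hP7
  obtain ⟨e, he⟩ : ∃ e, e = ph P Q U := ⟨_, rfl⟩
  have he0 : e ≠ 0 := he ▸ M.r0
  have heC : e ∈ C := he ▸ M.r1.1
  have hle : lo e = U := he ▸ M.r1.2
  rw [← he] at hV2 hV4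
  have hV0 : V 0 = 0 := hV3 0 rfl
  have hVne : V (-e) = δ - U := hV4 _ rfl
  have hVe : V e = U := by
    rcases hV1 e with h | h
    · rw [h, hle]
    · exact absurd heC h.1
  obtain ⟨k, k0, ks⟩ : ∃ k : ℕ → ℤ, k 0 = 0 ∧
      ∀ i : ℕ, k (i + 1) = k i + if V (i * e + e) - V (i * e) = U then 0 else 1 :=
    ⟨fun n => Nat.rec (motive := fun _ => ℤ) 0
      (fun i ki => ki + if V (i * e + e) - V (i * e) = U then 0 else 1) n, rfl, fun i => rfl⟩
  have ks' : ∀ i, k (i + 1) = k i ∨ k (i + 1) = k i + 1 := by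
    intro i; rw [ks]; split_ifs <;> simp
  have hVk : ∀ i : ℕ, V (i * e) = i * U - ((k i : ℤ) : ZMod (P * Q)) * δ := by
    intro i
    induction i with
    | zero => simp [hV0, k0]
    | succ i ih =>
      have e1 : ((i + 1 : ℕ) : ZMod P) * e = i * e + e := by push_cast; ring
      rw [e1, ks]
      split_ifs with h
      · push_cast; linear_combination h + ih
      · rcases hV2 (i * e) _ (hV1 _) with h' | h'
        · exact absurd h' h
        · push_cast; linear_combination h' + ih
  have k1 : k 1 = 0 := by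
    rw [ks]; simp [k0, hV0, hVe]
  have hPz : ((P : ℕ) : ZMod P) = 0 := ZMod.natCast_self P
  obtain ⟨n, hn⟩ : ∃ n, P = n + 1 := ⟨P - 1, by omega⟩
  have hne : (n : ZMod P) = -1 := by
    have : ((n + 1 : ℕ) : ZMod P) = 0 := by rw [← hn]; exact hPz
    push_cast at this; linear_combination this
  have kP : k (n + 1) = k n + 1 := by
    rw [ks, if_neg]
    rw [hne]
    simp only [neg_mul, one_mul, neg_add_cancel, hV0, hVne]
    intro h; apply M.δne; linear_combination -h
  have kb : ∀ i, 0 ≤ k (i + 1) ∧ k (i + 1) ≤ i := by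
    intro i
    induction i with
    | zero => simp [k1]
    | succ i ih => push_cast; rcases ks' (i + 1) with h | h <;> constructor <;> linarith [ih.1, ih.2]
  obtain ⟨y, hy⟩ : ∃ y, y = k P := ⟨_, rfl⟩
  have hyn : y = k n + 1 := by rw [hy, ← kP, ← hn]
  have hy0 : 0 < y := by
    obtain ⟨m, hm⟩ : ∃ m, n = m + 1 := ⟨n - 1, by omega⟩
    have := (kb m).1
    rw [← hm] at this; linarith
  have hy1 : y < P := by
    have := (kb n).2
    rw [← hn, ← hy] at this
    have : (P : ℤ) = n + 1 := by exact_mod_cast hn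
    linarith
  have hPU : (P : ZMod (P * Q)) * U = y * δ := by
    have := hVk P
    rw [hPz, zero_mul, hV0, ← hy] at this
    linear_combination -this
  have hyz : (y : ZMod P) ≠ 0 := by
    rw [Ne, ZMod.intCast_zmod_eq_zero_iff_dvd]
    intro h; have := Int.le_of_dvd hy0 h; linarith
  have hcop : IsCoprime y (P : ℤ) := by
    apply IsCoprime.symm
    rw [(Nat.prime_iff_prime_int.1 hP).coprime_iff_not_dvd]
    intro h; have := Int.le_of_dvd hy0 h; linarith
  obtain ⟨α, β, hab⟩ := hcop
  have hab' : (α : ZMod (P * Q)) * y + β * P = 1 := by exact_mod_cast congrArg (Int.cast : ℤ → ZMod (P * Q)) hab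
  obtain ⟨η, hη⟩ : ∃ η : ZMod (P * Q), η = α * U + β * δ := ⟨_, rfl⟩
  have hyη : (y : ZMod (P * Q)) * η = U := by
    rw [hη]; linear_combination U * hab' - β * hPU
  have hPη : (P : ZMod (P * Q)) * η = δ := by
    rw [hη]; linear_combination δ * hab' + α * hPU
  obtain ⟨f, hf⟩ : ∃ f, f = ph P Q η := ⟨_, rfl⟩
  have hyf : (y : ZMod P) * f = e := by
    rw [he, ← hyη, map_mul, map_intCast, hf]
  have hf0 : f ≠ 0 := by
    rintro rfl; apply he0; rw [← hyf]; simp
  have hunit : IsUnit η := by
    rw [← ZMod.natCast_zmod_val η, ZMod.isUnit_iff_coprime]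
    apply Nat.Coprime.mul_right
    · apply Nat.Coprime.symm
      rw [hP.coprime_iff_not_dvd]
      intro h; apply hf0
      rw [hf, ← ZMod.natCast_zmod_val η, map_natCast, ZMod.natCast_eq_zero_iff]; exact h
    · apply Nat.Coprime.symm
      rw [hQ.coprime_iff_not_dvd]
      intro h; apply M.δne
      rw [← hPη, ← ZMod.natCast_zmod_val η, ← Nat.cast_mul, ZMod.natCast_eq_zero_iff]
      exact Nat.mul_dvd_mul_left _ h
  refine ⟨η, hunit, hPη, hf ▸ hf0, ?_⟩
  rw [← hf]
  let Xn : ℕ → ℤ := fun i => i * y - k i * P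
  let X : ZMod P → ℤ := fun c => Xn (c / y).val
  let a : ZMod P → ℤ := fun c => if V (f * c) = lo (f * c) then X c else X c - P
  have hVX : ∀ c, V (f * c) = (X c : ZMod (P * Q)) * η := by
    intro c
    have := hVk (c / y).val
    have e1 : ((c / y).val : ZMod P) * e = f * c := by
      rw [ZMod.natCast_zmod_val, ← hyf]; field_simp
    rw [e1] at this
    rw [this]
    simp only [X, Xn]
    push_cast
    rw [← hyη, ← hPη]; ring
  have hloa : ∀ c, lo (f * c) = (a c : ZMod (P * Q)) * η := by
    intro c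
    simp only [a]
    split_ifs with h
    · rw [← h, hVX]
    · rcases hV1 (f * c) with h' | h'
      · exact absurd h' h
      · push_cast
        have := hVX c
        rw [h'.2] at this
        linear_combination this + hPη
  have hX0 : X 0 = 0 := by simp [X, Xn, k0]
  have hXs : ∀ c : ZMod P, X (c + y) = Xn ((c / y).val + 1) := by
    intro c
    simp only [X]
    have e1 : (c + (y : ZMod P)) / (y : ZMod P) = (((c / (y : ZMod P)).val + 1 : ℕ) : ZMod P) := by
      push_cast; rw [ZMod.natCast_zmod_val]; field_simp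
    rw [e1, ZMod.val_natCast]
    have hlt := ZMod.val_lt (c / (y : ZMod P))
    by_cases h : (c / y).val + 1 < P
    · rw [Nat.mod_eq_of_lt h]
    · have h' : (c / y).val + 1 = P := by omega
      rw [h', Nat.mod_self]
      simp only [Xn, k0, ← hy]; ring
  refine ⟨a, X, univ.filter (fun c => f * c ∈ C), y, ⟨?_, ?_, ?_, hy0, hy1, ?_, ?_, ?_, ?_, ?_⟩,
    hloa, by simp⟩
  · intro c
    have := congrArg (ph P Q) (hloa c)
    rw [M.hlo, map_mul, map_intCast, ← hf] at this
    apply mul_right_cancel₀ hf0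
    rw [← this]; ring
  · simp [a, hV0, M.lo0, hX0]
  · simpa using M.C0
  · intro S S' hd hs hsum
    have hinj : Function.Injective (fun x : ZMod P => f * x) := mul_right_injective₀ hf0
    obtain ⟨i, hi, h⟩ := M.star (S.image (fun x => f * x)) (S'.image (fun x => f * x))
      ((disjoint_image hinj).2 hd)
      (by
        intro x hx
        obtain ⟨z, hz, rfl⟩ := mem_image.1 hx
        simpa using hs hz)
      (by
        rw [sum_image hinj.injOn, sum_image hinj.injOn, ← mul_sum, ← mul_sum, ← he, ← hyf]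
        linear_combination f * hsum)
    rw [sum_image hinj.injOn, card_image_of_injective _ hinj] at hi
    rw [sum_image hinj.injOn, sum_image hinj.injOn] at h
    refine ⟨i * P, by positivity, ?_, ?_⟩
    · have e1 : ∑ c ∈ S, ip (univ.filter (fun c => f * c ∈ C)) c =
          ((∑ c ∈ S, ic C (f * c) : ℕ) : ℤ) * P := by
        push_cast
        rw [sum_mul]; apply sum_congr rfl; intro c _
        unfold ip ic
        by_cases hc : f * c ∈ C <;> simp [hc]
      rw [e1, sum_const, nsmul_eq_mul]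
      have : (i : ℤ) + 1 ≤ ((∑ c ∈ S, ic C (f * c) : ℕ) : ℤ) + S'.card := by exact_mod_cast hi
      nlinarith [Int.natCast_nonneg P]
    · have : (((P * Q : ℕ) : ℤ)) = (P : ℤ) * Q := by push_cast; ring
      rw [← this, ← ZMod.intCast_zmod_eq_zero_iff_dvd]
      apply hunit.mul_right_cancel
      simp only [hloa] at h
      push_cast
      rw [zero_mul, sub_mul, sub_mul, add_mul, sum_mul, sum_mul, hyη, mul_assoc, hPη]
      simp only [sub_mul, hPη]
      linear_combination h
  · intro c
    simp only [a, mem_filter, mem_univ, true_and]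
    split_ifs with h
    · left; rfl
    · rcases hV1 (f * c) with h' | h'
      · exact absurd h' h
      · right; exact ⟨h'.1, by ring⟩
  · intro c
    rw [hXs]
    simp only [X, Xn]
    push_cast
    rcases ks' (c / y).val with h | h
    · left; rw [h]; ring
    · right; rw [h]; ring
  · have := hXs 0
    rw [zero_add] at this
    rw [this]; simp [Xn, k1]
  · simp only [X]
    have e1 : -(y : ZMod P) / y = (n : ZMod P) := by rw [hne]; field_simp
    rw [e1, ZMod.val_natCast, Nat.mod_eq_of_lt (by omega)]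
    simp only [Xn]
    have : (P : ℤ) = n + 1 := by exact_mod_cast hn
    rw [this, hyn]; ring

end

end Pool.Agent.P.MP_10af71_co
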