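import Mathlib

namespace Pool.Agent.P.MP_10af71_co

open Finset Polynomial

lemma lagr_pow {F : Type*} [Field F] [DecidableEq F] (A : Finset F) (n : ℕ) (hA : A.card = n + 1)
    (i : ℕ) (hi : i ≤ n) :
    ∑ x ∈ A, x ^ i / ∏ z ∈ A.erase x, (x - z) = if i = n then 1 else 0 := by
  have := Lagrange.coeff_eq_sum (s := A) (v := id) (Function.injective_id.injOn)
    (P := (X : F[X]) ^ i) (by rw [degree_X_pow, hA]; exact_mod_cast Nat.lt_succ_of_le hi)
  simp only [hA, Nat.add_sub_cancel, coeff_X_pow, eval_pow, eval_X, id] at this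
  rw [← this]
  simp only [eq_comm]

/-- Erdős–Heilbronn, exact-size version. -/
lemma eh_aux {Q : ℕ} [Fact Q.Prime] (T : Finset (ZMod Q)) (s : ℕ) (hT : T.card = s + 2)
    (hs : 2 * s < Q) : 2 * s + 1 ≤ (T.offDiag.image (fun p => p.1 + p.2)).card := by
  by_contra hcon
  obtain ⟨W, hW1, hW2⟩ := exists_superset_card_eq
    (s := T.offDiag.image (fun p => p.1 + p.2)) (n := 2 * s) (by omega)
    (by rw [ZMod.card]; omega)
  obtain ⟨t0, ht0⟩ : T.Nonempty := card_pos.1 (by omega)
  set B := T.erase t0 with hB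
  have hBc : B.card = s + 1 := by rw [hB, card_erase_of_mem ht0, hT]; rfl
  set g : (ZMod Q)[X] := ∏ w ∈ W, (X - C w) with hg
  have hmon : g.Monic := monic_prod_of_monic _ _ (fun w _ => monic_X_sub_C w)
  have hdeg : g.natDegree = 2 * s := by
    rw [hg, natDegree_prod_of_monic _ _ (fun w _ => monic_X_sub_C w)]
    simp [hW2]
  set la : ZMod Q → ZMod Q := fun x => (∏ z ∈ T.erase x, (x - z))⁻¹ with hla
  set mu : ZMod Q → ZMod Q := fun x => (∏ z ∈ B.erase x, (x - z))⁻¹ with hmu
  set LA : ℕ → ZMod Q := fun i => ∑ x ∈ T, x ^ i * la x with hLA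
  set LB : ℕ → ZMod Q := fun i => ∑ x ∈ B, x ^ i * mu x with hLB
  have hA' : ∀ i ≤ s + 1, LA i = if i = s + 1 then 1 else 0 := by
    intro i hi
    rw [← lagr_pow T (s + 1) hT i hi]; simp only [hLA, hla, div_eq_mul_inv]
  have hB' : ∀ i ≤ s, LB i = if i = s then 1 else 0 := by
    intro i hi
    rw [← lagr_pow B s hBc i hi]; simp only [hLB, hmu, div_eq_mul_inv]
  have mono : ∀ i j, i + j ≤ 2 * s + 1 → LA i * LB j = if i = s + 1 ∧ j = s then 1 else 0 := by
    intro i j hij
    by_cases h1 : i ≤ s
    · rw [hA' i (by omega), if_neg (by omega), if_neg (by omega), zero_mul]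
    by_cases h2 : j < s
    · rw [hB' j (by omega), if_neg (by omega), if_neg (by omega), mul_zero]
    · obtain rfl : i = s + 1 := by omega
      obtain rfl : j = s := by omega
      rw [hA' _ le_rfl, hB' _ le_rfl]; simp
  have zero : ∑ x ∈ T, ∑ y ∈ B, la x * mu y * ((x - y) * g.eval (x + y)) = 0 := by
    apply sum_eq_zero; intro x hx
    apply sum_eq_zero; intro y hy
    by_cases hxy : x = y
    · simp [hxy]
    · have : x + y ∈ W := hW1 (mem_image.2 ⟨(x, y), by
        simp [mem_offDiag, hx, mem_of_mem_erase hy, hxy], rfl⟩)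
      have : g.eval (x + y) = 0 := by
        rw [hg, eval_prod]; exact prod_eq_zero this (by simp)
      simp [this]
  have pw : ∀ k, ∑ x ∈ T, ∑ y ∈ B, la x * mu y * ((x - y) * (x + y) ^ k) =
      ∑ i ∈ range (k + 1), (k.choose i : ZMod Q) *
        (LA (i + 1) * LB (k - i) - LA i * LB (k - i + 1)) := by
    intro k
    simp only [hLA, hLB, sum_mul_sum]
    simp only [← sum_sub_distrib, mul_sum]
    rw [sum_comm (s := range (k + 1))]
    apply sum_congr rfl; intro x _
    rw [sum_comm]
    apply sum_congr rfl; intro y _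
    rw [add_pow, mul_sum, mul_sum]
    apply sum_congr rfl; intro i _
    ring
  have expand : ∑ x ∈ T, ∑ y ∈ B, la x * mu y * ((x - y) * g.eval (x + y)) =
      ∑ k ∈ range (2 * s + 1), g.coeff k *
        ∑ x ∈ T, ∑ y ∈ B, la x * mu y * ((x - y) * (x + y) ^ k) := by
    simp only [mul_sum]
    rw [sum_comm (s := range (2 * s + 1))]
    apply sum_congr rfl; intro x _
    rw [sum_comm]
    apply sum_congr rfl; intro y _
    rw [eval_eq_sum_range, hdeg, mul_sum, mul_sum]
    apply sum_congr rfl; intro i _
    ring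
  rw [expand, sum_range_succ, sum_eq_zero, zero_add, ← hdeg, hmon.coeff_natDegree, one_mul, hdeg,
    pw] at zero
  · have e : ∀ i ∈ range (2 * s + 1), ((2 * s).choose i : ZMod Q) *
        (LA (i + 1) * LB (2 * s - i) - LA i * LB (2 * s - i + 1)) =
        (if i = s then ((2 * s).choose s : ZMod Q) else 0) -
        (if i = s + 1 then (if s = 0 then 0 else ((2 * s).choose (s + 1) : ZMod Q)) else 0) := by
      intro i hi
      rw [mem_range] at hi
      rw [mono _ _ (by omega), mono _ _ (by omega)]
      by_cases h1 : i = s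
      · subst h1
        rw [if_pos (by omega), if_neg (by omega), if_pos rfl, if_neg (by omega)]; ring
      · by_cases h2 : i = s + 1
        · subst h2
          rw [if_neg (by omega), if_pos (by omega), if_neg (by omega), if_pos rfl,
            if_neg (by omega)]; ring
        · rw [if_neg (by omega), if_neg (by omega), if_neg h1, if_neg h2]; ring
    rw [sum_congr rfl e, sum_sub_distrib, sum_ite_eq', sum_ite_eq', if_pos (by simp; omega)] at zero
    have hch : ((2 * s).choose s : ZMod Q) ≠ 0 := by
      rw [Ne, ZMod.natCast_eq_zero_iff]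
      intro h
      have := (Fact.out : Q.Prime).coprime_choose_of_lt (a := s) hs (by omega)
      exact ((Fact.out : Q.Prime).coprime_iff_not_dvd.1 this) h
    by_cases hs0 : s = 0
    · subst hs0; simp at zero
    · rw [if_pos (by simp; omega), if_neg hs0] at zero
      have h1 := Nat.choose_succ_right_eq (2 * s) s
      have h2 : 2 * s - s = s := by omega
      rw [h2] at h1
      have h3 : (((2 * s).choose (s + 1) : ℕ) : ZMod Q) * (s + 1) = ((2 * s).choose s : ℕ) * s := by
        exact_mod_cast congrArg (Nat.cast : ℕ → ZMod Q) h1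
      apply hch
      linear_combination (s + 1 : ZMod Q) * zero + h3
  · intro k hk
    rw [mem_range] at hk
    rw [pw, sum_eq_zero, mul_zero]
    intro i hi
    rw [mem_range] at hi
    rw [mono _ _ (by omega), mono _ _ (by omega), if_neg (by omega), if_neg (by omega)]; ring

/-- Erdős–Heilbronn theorem for sums of two distinct elements. -/
lemma eh {Q : ℕ} [Fact Q.Prime] (hQ : 3 ≤ Q) (T : Finset (ZMod Q)) (hT : 2 ≤ T.card) :
    min Q (2 * T.card - 3) ≤ (T.offDiag.image (fun p => p.1 + p.2)).card := by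
  by_cases h : 2 * (T.card - 2) < Q
  · have := eh_aux T (T.card - 2) (by omega) h
    omega
  · obtain ⟨r, hr⟩ : ∃ r : ℕ, Q = 2 * r + 1 := by
      rcases (Fact.out : Q.Prime).eq_two_or_odd' with h | h
      · omega
      · exact h
    obtain ⟨T', hT1, hT2⟩ := exists_subset_card_eq (s := T) (n := r + 2) (by omega)
    have := eh_aux T' r hT2 (by omega)
    have h2 : (T'.offDiag.image (fun p => p.1 + p.2)).card ≤
        (T.offDiag.image (fun p => p.1 + p.2)).card :=
      card_le_card (image_subset_image (offDiag_mono hT1))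
    omega

end Pool.Agent.P.MP_10af71_co
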