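import Mathlib

namespace Pool.Agent.P.MP_10af71_co

open Finset

/-- The subset sums of `B` fill the whole interval between the least and the greatest one. -/
def Full (B : Finset ℤ) : Prop :=
  ∀ z : ℤ, -(∑ b ∈ B, max (-b) 0) ≤ z → z ≤ ∑ b ∈ B, max b 0 → z ∈ B.subsetSum

lemma sum_abs_eq (B : Finset ℤ) : ∑ b ∈ B, |b| = ∑ b ∈ B, max (-b) 0 + ∑ b ∈ B, max b 0 := by
  rw [← sum_add_distrib]; apply sum_congr rfl; intro b _
  rcases le_total 0 b with h | h
  · rw [abs_of_nonneg h, max_eq_right (by linarith), max_eq_left h]; ring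
  · rw [abs_of_nonpos h, max_eq_left (by linarith), max_eq_right h]; ring

lemma add_mem_subsetSum_insert {M : Type*} [DecidableEq M] [AddCommMonoid M] {A : Finset M}
    {a z : M} (ha : a ∉ A) (hz : z ∈ A.subsetSum) : a + z ∈ (insert a A).subsetSum :=
  vadd_finset_subsetSum_subset_subsetSum_insert ha (mem_vadd_finset.2 ⟨z, hz, rfl⟩)

lemma full_insert {B : Finset ℤ} {a : ℤ} (ha : a ∉ B) (hB : Full B)
    (h : |a| ≤ ∑ b ∈ B, |b| + 1) : Full (insert a B) := by
  intro z h1 h2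
  rw [sum_insert ha] at h1 h2
  rw [sum_abs_eq] at h
  by_cases hz : -(∑ b ∈ B, max (-b) 0) ≤ z ∧ z ≤ ∑ b ∈ B, max b 0
  · exact subsetSum_mono (subset_insert _ _) (hB z hz.1 hz.2)
  · have : z = a + (z - a) := by ring
    rw [this]
    apply add_mem_subsetSum_insert ha
    rcases le_total 0 a with h0 | h0
    · rw [abs_of_nonneg h0] at h
      rw [max_eq_right (by linarith)] at h1
      rw [max_eq_left h0] at h2
      apply hB <;> omega
    · rw [abs_of_nonpos h0] at h
      rw [max_eq_left (by linarith)] at h1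
      rw [max_eq_right h0] at h2
      apply hB <;> omega

lemma full_union {B : Finset ℤ} (hB : Full B) (B' : Finset ℤ)
    (h : ∀ a ∈ B', |a| ≤ ∑ b ∈ B, |b| + 1) : Full (B' ∪ B) := by
  induction B' using Finset.induction_on with
  | empty => simpa using hB
  | insert a s ha ih =>
    have ih' := ih (fun x hx => h x (mem_insert_of_mem hx))
    rw [insert_union]
    by_cases hm : a ∈ s ∪ B
    · rwa [insert_eq_of_mem hm]
    · apply full_insert hm ih'
      have h1 := h a (mem_insert_self _ _)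
      have : ∑ b ∈ B, |b| ≤ ∑ b ∈ s ∪ B, |b| :=
        sum_le_sum_of_subset_of_nonneg subset_union_right (fun _ _ _ => abs_nonneg _)
      linarith

lemma full_filter {B : Finset ℤ} {m m' : ℤ} (hm : m ≤ m') (hB : Full (B.filter (|·| ≤ m)))
    (h : m' ≤ ∑ b ∈ B.filter (|·| ≤ m), |b| + 1) : Full (B.filter (|·| ≤ m')) := by
  have := full_union hB (B.filter (|·| ≤ m')) (fun a ha => (mem_filter.1 ha).2.trans h)
  rwa [union_eq_left.2] at this
  intro x hx
  rw [mem_filter] at hx ⊢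
  exact ⟨hx.1, hx.2.trans hm⟩

lemma full_of_structure {B : Finset ℤ} {r : ℕ} (hr : 3 ≤ r)
    (h1 : ∀ b ∈ B, |b| ≤ 4 * r + 1)
    (h2 : ∀ j : ℤ, 1 ≤ j → j ≤ r → j ∈ B ∨ -j ∈ B)
    (h3 : ∀ j : ℤ, 1 ≤ j → j ≤ 2 * r → j ∈ B ∨ j - (2 * r + 1) ∈ B) : Full B := by
  have s1 : ∀ m : ℕ, m ≤ r → Full (B.filter (|·| ≤ (m : ℤ))) ∧
      (m : ℤ) * (m + 1) ≤ 2 * ∑ b ∈ B.filter (|·| ≤ (m : ℤ)), |b| := by
    intro m
    induction m with
    | zero =>
      intro _
      refine ⟨?_, by positivity⟩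
      intro z hz1 hz2
      have e1 : ∑ b ∈ B.filter (|·| ≤ ((0 : ℕ) : ℤ)), max (-b) 0 = 0 := by
        apply sum_eq_zero; intro b hb
        have := (mem_filter.1 hb).2
        simp at this; simp [this]
      have e2 : ∑ b ∈ B.filter (|·| ≤ ((0 : ℕ) : ℤ)), max b 0 = 0 := by
        apply sum_eq_zero; intro b hb
        have := (mem_filter.1 hb).2
        simp at this; simp [this]
      have : z = 0 := by omega
      rw [this]; exact zero_mem_subsetSum
    | succ m ih =>
      intro hm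
      obtain ⟨ih1, ih2⟩ := ih (by omega)
      have hm0 : (0 : ℤ) ≤ m := by positivity
      refine ⟨full_filter (by push_cast; linarith) ih1
        (by push_cast; nlinarith [sq_nonneg (2 * (m : ℤ) - 1)]), ?_⟩
      obtain ⟨u, hu, hu'⟩ : ∃ u ∈ B, |u| = (m : ℤ) + 1 := by
        rcases h2 (m + 1) (by linarith) (by exact_mod_cast hm) with h | h
        · exact ⟨_, h, abs_of_nonneg (by linarith)⟩
        · exact ⟨_, h, by rw [abs_neg]; exact abs_of_nonneg (by linarith)⟩
      have hn : u ∉ B.filter (|·| ≤ (m : ℤ)) := by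
        rw [mem_filter]; rintro ⟨_, h⟩; linarith
      have : ∑ b ∈ insert u (B.filter (|·| ≤ (m : ℤ))), |b| ≤
          ∑ b ∈ B.filter (|·| ≤ ((m + 1 : ℕ) : ℤ)), |b| := by
        apply sum_le_sum_of_subset_of_nonneg _ (fun _ _ _ => abs_nonneg _)
        intro x hx
        rw [mem_insert, mem_filter] at hx
        rw [mem_filter]; push_cast
        rcases hx with rfl | hx
        · exact ⟨hu, hu'.le⟩
        · exact ⟨hx.1, by linarith [hx.2]⟩
      rw [sum_insert hn, hu'] at this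
      push_cast at this ⊢
      nlinarith
  have s2 : ∀ m : ℕ, m ≤ r → (m : ℤ) * (m + 1) ≤
      ∑ b ∈ B.filter (fun b => |b| ≤ (m : ℤ) ∨ (2 * r + 1 - m ≤ |b| ∧ |b| ≤ 2 * r)), |b| := by
    intro m
    induction m with
    | zero => intro _; simp only [Nat.cast_zero, zero_mul]; positivity
    | succ m ih =>
      intro hm
      have ih' := ih (by omega)
      have hm0 : (0 : ℤ) ≤ m := by positivity
      have hm' : (m : ℤ) + 1 ≤ r := by exact_mod_cast hm
      obtain ⟨u, hu, hu'⟩ : ∃ u ∈ B, u = (m : ℤ) + 1 ∨ u = m - 2 * r := by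
        rcases h3 (m + 1) (by linarith) (by linarith) with h | h
        · exact ⟨_, h, Or.inl rfl⟩
        · exact ⟨_, h, Or.inr (by ring)⟩
      obtain ⟨v, hv, hv'⟩ : ∃ v ∈ B, v = 2 * r - (m : ℤ) ∨ v = -(m + 1) := by
        rcases h3 (2 * r - m) (by linarith) (by linarith) with h | h
        · exact ⟨_, h, Or.inl rfl⟩
        · exact ⟨_, h, Or.inr (by ring)⟩
      have hu2 : |u| = (m : ℤ) + 1 ∨ |u| = 2 * r - m := by
        rcases hu' with rfl | rfl
        · left; exact abs_of_nonneg (by linarith)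
        · right; rw [abs_of_nonpos (by linarith)]; ring
      have hv2 : |v| = (m : ℤ) + 1 ∨ |v| = 2 * r - m := by
        rcases hv' with rfl | rfl
        · right; exact abs_of_nonneg (by linarith)
        · left; rw [abs_of_nonpos (by linarith)]; ring
      have hvn : v ∉ B.filter (fun b => |b| ≤ (m : ℤ) ∨ (2 * r + 1 - m ≤ |b| ∧ |b| ≤ 2 * r)) := by
        rw [mem_filter]; rintro ⟨_, h⟩; omega
      have hun : u ∉ insert v
          (B.filter (fun b => |b| ≤ (m : ℤ) ∨ (2 * r + 1 - m ≤ |b| ∧ |b| ≤ 2 * r))) := by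
        rw [mem_insert, mem_filter]; rintro (h | ⟨_, h⟩) <;> omega
      have : ∑ b ∈ insert u (insert v
          (B.filter (fun b => |b| ≤ (m : ℤ) ∨ (2 * r + 1 - m ≤ |b| ∧ |b| ≤ 2 * r)))), |b| ≤
          ∑ b ∈ B.filter (fun b => |b| ≤ ((m + 1 : ℕ) : ℤ) ∨
            (2 * r + 1 - ((m + 1 : ℕ) : ℤ) ≤ |b| ∧ |b| ≤ 2 * r)), |b| := by
        apply sum_le_sum_of_subset_of_nonneg _ (fun _ _ _ => abs_nonneg _)
        intro x hx
        rw [mem_insert, mem_insert, mem_filter] at hx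
        rw [mem_filter]; push_cast
        rcases hx with rfl | rfl | hx
        · exact ⟨hu, by omega⟩
        · exact ⟨hv, by omega⟩
        · exact ⟨hx.1, by omega⟩
      rw [sum_insert hun, sum_insert hvn] at this
      have : (m : ℤ) + 1 ≤ |u| := by omega
      have : (m : ℤ) + 1 ≤ |v| := by omega
      push_cast at *
      nlinarith
  have hr' : (3 : ℤ) ≤ r := by exact_mod_cast hr
  obtain ⟨f1, f2⟩ := s1 r le_rfl
  have f3 : Full (B.filter (|·| ≤ 2 * (r : ℤ))) := full_filter (by linarith) f1 (by nlinarith)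
  have f4 : (r : ℤ) * (r + 1) ≤ ∑ b ∈ B.filter (|·| ≤ 2 * (r : ℤ)), |b| := by
    refine (s2 r le_rfl).trans ?_
    apply sum_le_sum_of_subset_of_nonneg _ (fun _ _ _ => abs_nonneg _)
    intro x hx
    rw [mem_filter] at hx ⊢
    exact ⟨hx.1, by omega⟩
  have f5 : Full (B.filter (|·| ≤ 4 * (r : ℤ) + 1)) := full_filter (by linarith) f3 (by nlinarith)
  rwa [filter_true_of_mem h1] at f5

/-- If the least absolute representatives fill an interval and miss a residue, the norm is small. -/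
lemma norm_le_of_full {n : ℕ} [NeZero n] {A : Finset (ZMod n)}
    (hF : Full (A.image ZMod.valMinAbs)) {g : ZMod n} (hg : g ∉ A.subsetSum) :
    ∑ a ∈ A, a.valMinAbs.natAbs + 2 ≤ n := by
  by_contra hcon
  apply hg
  have e1 : ((∑ a ∈ A, a.valMinAbs.natAbs : ℕ) : ℤ) = ∑ b ∈ A.image ZMod.valMinAbs, |b| := by
    rw [sum_image ZMod.injective_valMinAbs.injOn]; push_cast; rfl
  rw [sum_abs_eq] at e1
  set s := ∑ b ∈ A.image ZMod.valMinAbs, max (-b) 0 with hs
  have hlt := ZMod.val_lt (g + (s : ZMod n))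
  have hz := hF (-s + ((g + (s : ZMod n)).val : ℤ)) (by rw [← hs]; omega) (by omega)
  obtain ⟨B', hB', hsum⟩ := mem_subsetSum_iff.1 hz
  obtain ⟨A', hA', rfl⟩ := subset_image_iff.1 hB'
  rw [sum_image ZMod.injective_valMinAbs.injOn] at hsum
  refine mem_subsetSum_iff.2 ⟨A', hA', ?_⟩
  have := congrArg (Int.cast : ℤ → ZMod n) hsum
  push_cast at this
  simpa using this

/-- Small norm implies non-spanning. -/
lemma not_span_of_norm_le {n : ℕ} [NeZero n] {A : Finset (ZMod n)}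
    (h : ∑ a ∈ A, a.valMinAbs.natAbs + 2 ≤ n) : ∃ g, g ∉ A.subsetSum := by
  have e1 : ((∑ a ∈ A, a.valMinAbs.natAbs : ℕ) : ℤ) = ∑ b ∈ A.image ZMod.valMinAbs, |b| := by
    rw [sum_image ZMod.injective_valMinAbs.injOn]; push_cast; rfl
  rw [sum_abs_eq, sum_image ZMod.injective_valMinAbs.injOn,
    sum_image ZMod.injective_valMinAbs.injOn] at e1
  refine ⟨((∑ a ∈ A, max a.valMinAbs 0 + 1 : ℤ) : ZMod n), fun hg => ?_⟩
  obtain ⟨A', hA', hsum⟩ := mem_subsetSum_iff.1 hg
  have u1 : ∑ a ∈ A', a.valMinAbs ≤ ∑ a ∈ A, max a.valMinAbs 0 :=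
    (sum_le_sum (fun a _ => le_max_left _ _)).trans
      (sum_le_sum_of_subset_of_nonneg hA' (fun _ _ _ => le_max_right _ _))
  have u2 : ∑ a ∈ A', -a.valMinAbs ≤ ∑ a ∈ A, max (-a.valMinAbs) 0 :=
    (sum_le_sum (fun a _ => le_max_left _ _)).trans
      (sum_le_sum_of_subset_of_nonneg hA' (fun _ _ _ => le_max_right _ _))
  rw [sum_neg_distrib] at u2
  have hd : (n : ℤ) ∣ (∑ a ∈ A, max a.valMinAbs 0 + 1) - ∑ a ∈ A', a.valMinAbs := by
    rw [← ZMod.intCast_zmod_eq_zero_iff_dvd, Int.cast_sub, ← hsum]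
    push_cast; simp
  have := Int.le_of_dvd (by linarith) hd
  omega

end Pool.Agent.P.MP_10af71_co
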