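import Pool.Agent.P.MP_10af71_co.Chain
import Pool.Agent.P.MP_10af71_co.Greedy

namespace Pool.Agent.P.MP_10af71_co

open Finset

lemma mem_subsetSum_image_mul {R : Type*} [CommRing R] [DecidableEq R] {A : Finset R} {b g : R}
    (hg : g ∈ A.subsetSum) (hb : IsUnit b) : b * g ∈ (A.image (b * ·)).subsetSum := by
  obtain ⟨B, hB, rfl⟩ := mem_subsetSum_iff.1 hg
  refine mem_subsetSum_iff.2 ⟨B.image (b * ·), image_subset_image hB, ?_⟩
  rw [sum_image (hb.mul_right_injective.injOn), mul_sum]

lemma mem_subsetSum_of_image_mul {R : Type*} [CommRing R] [DecidableEq R] {A : Finset R} {b g : R}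
    (hb : IsUnit b) (hg : b * g ∈ (A.image (b * ·)).subsetSum) : g ∈ A.subsetSum := by
  obtain ⟨B, hB, hs⟩ := mem_subsetSum_iff.1 hg
  obtain ⟨B', hB', rfl⟩ := subset_image_iff.1 hB
  rw [sum_image (hb.mul_right_injective.injOn), ← mul_sum] at hs
  exact mem_subsetSum_iff.2 ⟨B', hB', hb.mul_right_injective hs⟩

theorem norm_of_gstr {P Q : ℕ} {lo : ZMod P → ZMod (P * Q)} {C : Finset (ZMod P)}
    {δ U : ZMod (P * Q)} (M : GStr P Q lo C δ U) (hP : P.Prime) (hP7 : 7 ≤ P) (hQ : Q.Prime)
    (hQ7 : 7 ≤ Q) {A : Finset (ZMod (P * Q))}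
    (F1 : ∀ x ∈ A, x = lo (ph P Q x) - δ ∨ x = lo (ph P Q x) ∨
      (ph P Q x ∉ C ∧ x = lo (ph P Q x) + δ))
    (F2 : ∀ c, lo c ∈ A) (F3 : ∀ c ∈ C, lo c - δ ∈ A) {g : ZMod (P * Q)}
    (hg : g ∉ A.subsetSum) :
    ∃ b : (ZMod (P * Q))ˣ, ∑ x ∈ A, ((b : ZMod (P * Q)) * x).valMinAbs.natAbs + 2 ≤ P * Q := by
  have := Fact.mk hP
  have : NeZero (P * Q) := ⟨Nat.mul_ne_zero hP.ne_zero hQ.ne_zero⟩
  obtain ⟨η, hη, hPη, hf0, a, X, C', y, MM, hlo, hC⟩ := M.exists_model hP hP7 hQ
  obtain ⟨u, rfl⟩ := hη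
  refine ⟨u⁻¹, ?_⟩
  obtain ⟨b, hb⟩ : ∃ b : ZMod (P * Q), b = (u⁻¹ : (ZMod (P * Q))ˣ) := ⟨_, rfl⟩
  have hbu : IsUnit b := hb ▸ Units.isUnit _
  have hbη : b * u = 1 := by rw [hb]; simp
  rw [← hb]
  have hg' : b * g ∉ (A.image (b * ·)).subsetSum := fun h => hg (mem_subsetSum_of_image_mul hbu h)
  have e1 : ∑ x ∈ A, (b * x).valMinAbs.natAbs = ∑ x ∈ A.image (b * ·), x.valMinAbs.natAbs := by
    rw [sum_image (hbu.mul_right_injective.injOn)]
  rw [e1]
  refine norm_le_of_full ?_ hg'
  obtain ⟨r, hr⟩ : ∃ r : ℕ, P = 2 * r + 1 := by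
    have := hP.eq_two_or_odd'
    rcases this with h | h
    · omega
    · exact h
  have hPr : (P : ℤ) = 2 * r + 1 := by exact_mod_cast hr
  have hP7' : (7 : ℤ) ≤ P := by exact_mod_cast hP7
  have hn : 7 * (P : ℤ) ≤ ((P * Q : ℕ) : ℤ) := by
    have : (7 : ℤ) ≤ Q := by exact_mod_cast hQ7
    push_cast; nlinarith
  have vm : ∀ z : ℤ, -(2 * (P : ℤ)) < z → z < 2 * P → (z : ZMod (P * Q)).valMinAbs = z := by
    intro z h1 h2
    rw [ZMod.valMinAbs_spec]
    exact ⟨rfl, by constructor <;> linarith⟩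
  have hup := MM.upper hP hP7 hQ7
  have hlow := MM.lower hP hP7 hQ7
  have hy0 := MM.ypos
  have hy1 := MM.ylt
  have hblo : ∀ c, b * lo (ph P Q u * c) = (a c : ZMod (P * Q)) := by
    intro c; rw [hlo]; linear_combination (a c : ZMod (P * Q)) * hbη
  have hbδ : b * δ = P := by rw [← hPη]; linear_combination (P : ZMod (P * Q)) * hbη
  have m1 : ∀ c, a c ∈ (A.image (b * ·)).image ZMod.valMinAbs := by
    intro c
    refine mem_image.2 ⟨(a c : ZMod (P * Q)), mem_image.2 ⟨_, F2 _, hblo c⟩, vm _ ?_ ?_⟩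
    · linarith [hlow c]
    · have := hup c; unfold bb at this; linarith [ip_le C' c]
  have m2 : ∀ c ∈ C', a c - P ∈ (A.image (b * ·)).image ZMod.valMinAbs := by
    intro c hc
    refine mem_image.2 ⟨((a c - P : ℤ) : ZMod (P * Q)),
      mem_image.2 ⟨_, F3 _ ((hC c).1 hc), ?_⟩, vm _ ?_ ?_⟩
    · push_cast; rw [mul_sub, hblo, hbδ]
    · linarith [hlow c]
    · have := hup c; unfold bb at this; linarith [ip_le C' c]
  have res : ∀ j : ℤ, a j = j - P ∨ a j = j ∨ a j = j + P ∨ a j ≤ j - 2 * P ∨ j + 2 * P ≤ a j := by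
    intro j
    have h := MM.ha j
    rw [ZMod.intCast_eq_intCast_iff_dvd_sub] at h
    obtain ⟨t, ht⟩ := h
    rcases lt_trichotomy t 0 with h | h | h
    · by_cases h1 : t = -1
      · right; right; left; rw [h1] at ht; linarith
      · right; right; right; right
        have : t ≤ -2 := by omega
        nlinarith
    · right; left; rw [h] at ht; linarith
    · by_cases h1 : t = 1
      · left; rw [h1] at ht; linarith
      · right; right; right; left
        have : 2 ≤ t := by omega
        nlinarith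
  apply full_of_structure (r := r) (by omega)
  · intro z hz
    obtain ⟨x', hx', rfl⟩ := mem_image.1 hz
    obtain ⟨x, hx, rfl⟩ := mem_image.1 hx'
    obtain ⟨c, hc⟩ : ∃ c, ph P Q x = ph P Q u * c := ⟨ph P Q x / ph P Q u, by field_simp⟩
    have h1 := hup c
    have h2 := hlow c
    unfold bb at h1
    have h3 := ip_le C' c
    have h4 := ip_nonneg C' c
    rcases F1 x hx with h | h | h
    · have : b * x = ((a c - P : ℤ) : ZMod (P * Q)) := by
        rw [h, hc, mul_sub, hblo, hbδ]; push_cast; rfl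
      rw [this, vm _ (by linarith) (by linarith), abs_le]; constructor <;> linarith
    · have : b * x = ((a c : ℤ) : ZMod (P * Q)) := by
        rw [h, hc, hblo]
      rw [this, vm _ (by linarith) (by linarith), abs_le]; constructor <;> linarith
    · have : b * x = ((a c + P : ℤ) : ZMod (P * Q)) := by
        rw [h.2, hc, mul_add, hblo, hbδ]; push_cast; rfl
      have hc' : c ∉ C' := by rw [hC, ← hc]; exact h.1
      rw [ip_not hc'] at h1
      rw [this, vm _ (by linarith) (by linarith), abs_le]; constructor <;> linarith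
  · intro j hj1 hj2
    by_contra hcon
    push Not at hcon
    have k1 : y < j := by
      have h1 := hup j
      have h2 := hlow j
      unfold bb at h1
      rcases res j with h | h | h | h | h
      · linarith
      · exact absurd (h ▸ m1 j) hcon.1
      · by_cases hc : (j : ZMod P) ∈ C'
        · have := m2 _ hc
          rw [h, add_sub_cancel_right] at this
          exact absurd this hcon.1
        · rw [ip_not hc] at h1; linarith
      · linarith
      · linarith [ip_le C' (j : ZMod P)]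
    have k2 : P - j < y := by
      have h1 := hup ((-j : ℤ) : ZMod P)
      have h2 := hlow ((-j : ℤ) : ZMod P)
      unfold bb at h1
      rcases res (-j) with h | h | h | h | h
      · linarith
      · exact absurd (h ▸ m1 _) hcon.2
      · by_cases hc : ((-j : ℤ) : ZMod P) ∈ C'
        · have := m2 _ hc
          rw [h, add_sub_cancel_right] at this
          exact absurd this hcon.2
        · rw [ip_not hc] at h1; linarith
      · linarith
      · linarith [ip_le C' ((-j : ℤ) : ZMod P)]
    linarith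
  · intro j hj1 hj2
    have h1 := hup j
    have h2 := hlow j
    unfold bb at h1
    rw [← hPr]
    rcases res j with h | h | h | h | h
    · right; exact h ▸ m1 j
    · left; exact h ▸ m1 j
    · by_cases hc : (j : ZMod P) ∈ C'
      · have := m2 _ hc
        rw [h, add_sub_cancel_right] at this
        left; exact this
      · rw [ip_not hc] at h1
        have h5 : a j = j + P := h
        linarith
    · linarith
    · linarith [ip_le C' (j : ZMod P)]

end Pool.Agent.P.MP_10af71_co
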