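import Pool.Agent.P.MP_10af71_co.Chain
import Pool.Agent.P.MP_10af71_co.EH

set_option linter.unusedSectionVars false

namespace Pool.Agent.P.MP_10af71_co

open Finset Pointwise

/-- the embedding of `ZMod Q` as the kernel of the reduction modulo `P` -/
def io (P Q : ℕ) : ZMod Q →+ ZMod (P * Q) :=
  ZMod.lift Q ⟨zmultiplesHom (ZMod (P * Q)) (P : ZMod (P * Q)), by
    simp only [zmultiplesHom_apply, zsmul_eq_mul, Int.cast_natCast]
    rw [← Nat.cast_mul, mul_comm, ZMod.natCast_self]⟩

lemma io_int (P Q : ℕ) (m : ℤ) : io P Q (m : ZMod Q) = (m : ZMod (P * Q)) * P := by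
  simp [io, ZMod.lift_coe]

lemma ph_io (P Q : ℕ) (m : ZMod Q) : ph P Q (io P Q m) = 0 := by
  obtain ⟨k, rfl⟩ := ZMod.intCast_surjective m
  rw [io_int, map_mul, map_natCast]; simp

lemma io_inj {P Q : ℕ} (hP : 0 < P) : Function.Injective (io P Q) := by
  rw [injective_iff_map_eq_zero]
  intro m hm
  obtain ⟨k, rfl⟩ := ZMod.intCast_surjective m
  rw [io_int] at hm
  have : ((k * P : ℤ) : ZMod (P * Q)) = 0 := by push_cast; exact hm
  rw [ZMod.intCast_zmod_eq_zero_iff_dvd] at this ⊢
  push_cast at this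
  rw [mul_comm k] at this
  exact Int.dvd_of_mul_dvd_mul_left (by exact_mod_cast hP.ne') this

lemma exists_io {P Q : ℕ} {x : ZMod (P * Q)} (hx : ph P Q x = 0) : ∃ m, x = io P Q m := by
  obtain ⟨k, rfl⟩ := ZMod.intCast_surjective x
  rw [map_intCast, ZMod.intCast_zmod_eq_zero_iff_dvd] at hx
  obtain ⟨m, rfl⟩ := hx
  exact ⟨m, by rw [io_int]; push_cast; ring⟩

section
variable {P Q : ℕ} [Fact P.Prime] [Fact Q.Prime]

lemma exists_rep {L : Finset (ZMod (P * Q))} {z : ZMod (P * Q)}
    (hL : ∀ x ∈ L, ph P Q x = ph P Q z) :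
    ∃ T : Finset (ZMod Q), L = T.image (fun m => z + io P Q m) ∧ T.card = L.card := by
  have hinj : Function.Injective (fun m => z + io P Q m) := fun a b h =>
    io_inj (Fact.out : P.Prime).pos (add_left_cancel h)
  have : L = (univ.filter (fun m => z + io P Q m ∈ L)).image (fun m => z + io P Q m) := by
    ext x
    simp only [mem_image, mem_filter, mem_univ, true_and]
    constructor
    · intro hx
      obtain ⟨m, hm⟩ := exists_io (x := x - z) (by rw [map_sub, hL x hx, sub_self])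
      have : z + io P Q m = x := by rw [← hm]; ring
      exact ⟨m, by rwa [this], this⟩
    · rintro ⟨m, hm, rfl⟩; exact hm
  refine ⟨_, this, ?_⟩
  conv_rhs => rw [this]
  rw [card_image_of_injective _ hinj]

lemma card_le_of_coset {L : Finset (ZMod (P * Q))} {τ : ZMod P} (hL : ∀ x ∈ L, ph P Q x = τ) :
    L.card ≤ Q := by
  rcases L.eq_empty_or_nonempty with rfl | ⟨z, hz⟩
  · simp
  obtain ⟨T, _, hT⟩ := exists_rep (z := z) (L := L) (fun x hx => by rw [hL x hx, hL z hz])
  rw [← hT]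
  exact (card_le_univ T).trans (ZMod.card Q).le

lemma cd_coset {L1 L2 : Finset (ZMod (P * Q))} {τ1 τ2 : ZMod P}
    (h1 : ∀ x ∈ L1, ph P Q x = τ1) (h2 : ∀ x ∈ L2, ph P Q x = τ2) (n1 : L1.Nonempty)
    (n2 : L2.Nonempty) : min Q (L1.card + L2.card - 1) ≤ (L1 + L2).card := by
  obtain ⟨z1, hz1⟩ := n1
  obtain ⟨z2, hz2⟩ := n2
  obtain ⟨T1, e1, c1⟩ := exists_rep (z := z1) (L := L1) (fun x hx => by rw [h1 x hx, h1 z1 hz1])
  obtain ⟨T2, e2, c2⟩ := exists_rep (z := z2) (L := L2) (fun x hx => by rw [h2 x hx, h2 z2 hz2])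
  have hinj : Function.Injective (fun m => (z1 + z2) + io P Q m) := fun a b h =>
    io_inj (Fact.out : P.Prime).pos (add_left_cancel h)
  have := ZMod.cauchy_davenport (Fact.out : Q.Prime) (s := T1) (t := T2)
    (card_pos.1 (by rw [c1]; exact card_pos.2 ⟨z1, hz1⟩))
    (card_pos.1 (by rw [c2]; exact card_pos.2 ⟨z2, hz2⟩))
  rw [c1, c2, ← card_image_of_injective (T1 + T2) hinj] at this
  refine this.trans (card_le_card ?_)
  intro x hx
  obtain ⟨m, hm, rfl⟩ := mem_image.1 hx
  obtain ⟨m1, hm1, m2, hm2, rfl⟩ := mem_add.1 hm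
  refine mem_add.2 ⟨z1 + io P Q m1, ?_, z2 + io P Q m2, ?_, by rw [map_add]; ring⟩
  · rw [e1]; exact mem_image_of_mem _ hm1
  · rw [e2]; exact mem_image_of_mem _ hm2

lemma add_mem_subsetSum_union {M : Type*} [DecidableEq M] [AddCommMonoid M] {A B : Finset M}
    (h : Disjoint A B) {x y : M} (hx : x ∈ A.subsetSum) (hy : y ∈ B.subsetSum) :
    x + y ∈ (A ∪ B).subsetSum := by
  obtain ⟨A', hA', rfl⟩ := mem_subsetSum_iff.1 hx
  obtain ⟨B', hB', rfl⟩ := mem_subsetSum_iff.1 hy
  exact mem_subsetSum_iff.2 ⟨A' ∪ B', union_subset_union hA' hB',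
    sum_union (h.mono hA' hB')⟩

/-- `B` has at least `min Q (γ+1)` subset sums in the coset `τ`. -/
def Gain (B : Finset (ZMod (P * Q))) (γ : ℕ) (τ : ZMod P) : Prop :=
  ∃ L : Finset (ZMod (P * Q)), L ⊆ B.subsetSum ∧ (∀ x ∈ L, ph P Q x = τ) ∧
    min Q (γ + 1) ≤ L.card

lemma Gain.add {B1 B2 : Finset (ZMod (P * Q))} {γ1 γ2 : ℕ} {τ1 τ2 : ZMod P} (h : Disjoint B1 B2)
    (h1 : Gain B1 γ1 τ1) (h2 : Gain B2 γ2 τ2) : Gain (B1 ∪ B2) (γ1 + γ2) (τ1 + τ2) := by
  obtain ⟨L1, a1, b1, c1⟩ := h1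
  obtain ⟨L2, a2, b2, c2⟩ := h2
  have hQ := (Fact.out : Q.Prime).pos
  refine ⟨L1 + L2, ?_, ?_, ?_⟩
  · intro x hx
    obtain ⟨x1, hx1, x2, hx2, rfl⟩ := mem_add.1 hx
    exact add_mem_subsetSum_union h (a1 hx1) (a2 hx2)
  · intro x hx
    obtain ⟨x1, hx1, x2, hx2, rfl⟩ := mem_add.1 hx
    rw [map_add, b1 x1 hx1, b2 x2 hx2]
  · have := cd_coset b1 b2 (card_pos.1 (by omega)) (card_pos.1 (by omega))
    omega

lemma Gain.mono {B B' : Finset (ZMod (P * Q))} {γ γ' : ℕ} {τ : ZMod P} (h : Gain B γ τ)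
    (hB : B ⊆ B') (hγ : γ' ≤ γ) : Gain B' γ' τ := by
  obtain ⟨L, a, b, c⟩ := h
  exact ⟨L, a.trans (subsetSum_mono hB), b, by omega⟩

lemma Gain.full {B : Finset (ZMod (P * Q))} {γ : ℕ} {g : ZMod (P * Q)}
    (h : Gain B γ (ph P Q g)) (hγ : Q ≤ γ + 1) : g ∈ B.subsetSum := by
  obtain ⟨L, a, b, c⟩ := h
  obtain ⟨T, e, hT⟩ := exists_rep b
  have : T = univ := by
    apply eq_univ_of_card; rw [ZMod.card]
    have := (card_le_univ T).trans (ZMod.card Q).le
    omega
  apply a
  rw [e, this]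
  exact mem_image.2 ⟨0, mem_univ _, by simp⟩

lemma gain_zero (B : Finset (ZMod (P * Q))) : Gain B 0 0 :=
  ⟨{0}, by simp, by intro x hx; rw [mem_singleton.1 hx, map_zero], by simp⟩

lemma gain_one {B : Finset (ZMod (P * Q))} {c : ZMod P} (hB : ∀ x ∈ B, ph P Q x = c)
    {γ : ℕ} (hγ : γ + 1 ≤ B.card) : Gain B γ c :=
  ⟨B, subset_subsetSum, hB, by omega⟩

lemma gain_two (hQ : 3 ≤ Q) {B : Finset (ZMod (P * Q))} {c : ZMod P} (hB : ∀ x ∈ B, ph P Q x = c)
    {γ : ℕ} (hγ : γ + 4 ≤ 2 * B.card) : Gain B γ (c + c) := by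
  obtain ⟨z, hz⟩ : B.Nonempty := card_pos.1 (by omega)
  obtain ⟨T, e, hT⟩ := exists_rep (z := z) (L := B) (fun x hx => by rw [hB x hx, hB z hz])
  have h := eh hQ T (by omega)
  have hinj : ∀ w : ZMod (P * Q), Function.Injective (fun m => w + io P Q m) := fun w a b h =>
    io_inj (Fact.out : P.Prime).pos (add_left_cancel h)
  refine ⟨(T.offDiag.image (fun p => p.1 + p.2)).image (fun m => (z + z) + io P Q m), ?_, ?_, ?_⟩
  · intro x hx
    obtain ⟨m, hm, rfl⟩ := mem_image.1 hx
    obtain ⟨⟨m1, m2⟩, hm', rfl⟩ := mem_image.1 hm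
    obtain ⟨h1, h2, h3⟩ := mem_offDiag.1 hm'
    have hne : z + io P Q m1 ≠ z + io P Q m2 := fun h => h3 (hinj z h)
    refine mem_subsetSum_iff.2 ⟨{z + io P Q m1, z + io P Q m2}, ?_, ?_⟩
    · intro y hy
      rw [e]
      rcases mem_insert.1 hy with rfl | hy
      · exact mem_image_of_mem _ h1
      · rw [mem_singleton.1 hy]; exact mem_image_of_mem _ h2
    · rw [sum_pair hne, map_add]; ring
  · intro x hx
    obtain ⟨m, _, rfl⟩ := mem_image.1 hx
    rw [map_add, map_add, ph_io, hB z hz, add_zero]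
  · rw [card_image_of_injective _ (hinj _)]
    omega

lemma gain_sub {B : Finset (ZMod (P * Q))} (hB : ∀ x ∈ B, ph P Q x = 0) (h0 : 0 ∉ B) :
    Gain B B.card 0 := by
  induction B using Finset.induction_on with
  | empty => exact gain_zero _
  | insert a s ha ih =>
    have ih' := ih (fun x hx => hB x (mem_insert_of_mem hx)) (fun h => h0 (mem_insert_of_mem h))
    have ha0 : a ≠ 0 := by rintro rfl; exact h0 (mem_insert_self _ _)
    have h1 : Gain ({a} : Finset (ZMod (P * Q))) 1 0 := by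
      refine ⟨{0, a}, ?_, ?_, ?_⟩
      · intro x hx
        rcases mem_insert.1 hx with rfl | hx
        · exact zero_mem_subsetSum
        · exact subset_subsetSum hx
      · intro x hx
        rcases mem_insert.1 hx with rfl | hx
        · simp
        · rw [mem_singleton.1 hx]; exact hB a (mem_insert_self _ _)
      · rw [card_pair ha0.symm]; omega
    have := Gain.add (by simpa using ha) h1 ih'
    rw [card_insert_of_notMem ha, add_comm]
    simpa using this

lemma gain_sub' {B : Finset (ZMod (P * Q))} (hB : ∀ x ∈ B, ph P Q x = 0) (h0 : 0 ∉ B)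
    {a b : ZMod (P * Q)} (ha : a ∈ B) (hb : b ∈ B) (hab : a ≠ b) (hab' : a ≠ -b) :
    Gain B (B.card + 1) 0 := by
  have ha0 : a ≠ 0 := by rintro rfl; exact h0 ha
  have hb0 : b ≠ 0 := by rintro rfl; exact h0 hb
  have h1 : Gain ({a, b} : Finset (ZMod (P * Q))) 3 0 := by
    refine ⟨{0, a, b, a + b}, ?_, ?_, ?_⟩
    · intro x hx
      simp only [mem_insert, mem_singleton] at hx
      rcases hx with rfl | rfl | rfl | rfl
      · exact zero_mem_subsetSum
      · exact subset_subsetSum (by simp)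
      · exact subset_subsetSum (by simp)
      · exact mem_subsetSum_iff.2 ⟨{a, b}, Subset.rfl, sum_pair hab⟩
    · intro x hx
      simp only [mem_insert, mem_singleton] at hx
      rcases hx with rfl | rfl | rfl | rfl
      · simp
      · exact hB _ ha
      · exact hB _ hb
      · rw [map_add, hB _ ha, hB _ hb, add_zero]
    · have : a + b ≠ 0 := fun h => hab' (by linear_combination h)
      rw [card_insert_of_notMem (by simp [ha0.symm, hb0.symm, this.symm]),
        card_insert_of_notMem (by simp [hab, hb0]), card_pair (by simpa using ha0)]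
      omega
  have hsub : ({a, b} : Finset (ZMod (P * Q))) ⊆ B := by
    intro x hx
    rcases mem_insert.1 hx with rfl | hx
    · exact ha
    · rw [mem_singleton.1 hx]; exact hb
  have h2 := gain_sub (B := B \ {a, b}) (fun x hx => hB x (mem_sdiff.1 hx).1)
    (fun h => h0 (mem_sdiff.1 h).1)
  have := Gain.add disjoint_sdiff h1 h2
  rw [union_sdiff_of_subset hsub, card_sdiff_of_subset hsub, card_pair hab, add_zero] at this
  have hc := card_le_card hsub
  rw [card_pair hab] at hc
  exact this.mono Subset.rfl (by omega)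

/-- the part of `A` in the coset `c` -/
def fib (A : Finset (ZMod (P * Q))) (c : ZMod P) : Finset (ZMod (P * Q)) :=
  A.filter (fun x => ph P Q x = c)

/-- the part of `A` in the cosets from `I` -/
def fibs (A : Finset (ZMod (P * Q))) (I : Finset (ZMod P)) : Finset (ZMod (P * Q)) :=
  A.filter (fun x => ph P Q x ∈ I)

lemma mem_fib {A : Finset (ZMod (P * Q))} {c : ZMod P} {x : ZMod (P * Q)} :
    x ∈ fib A c ↔ x ∈ A ∧ ph P Q x = c := mem_filter

lemma fib_ph {A : Finset (ZMod (P * Q))} {c : ZMod P} : ∀ x ∈ fib A c, ph P Q x = c :=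
  fun _ hx => (mem_fib.1 hx).2

lemma mem_fibs {A : Finset (ZMod (P * Q))} {I : Finset (ZMod P)} {x : ZMod (P * Q)} :
    x ∈ fibs A I ↔ x ∈ A ∧ ph P Q x ∈ I := mem_filter

lemma fibs_insert (A : Finset (ZMod (P * Q))) (c : ZMod P) (I : Finset (ZMod P)) :
    fibs A (insert c I) = fib A c ∪ fibs A I := by
  ext x; simp only [mem_fibs, mem_fib, mem_insert, mem_union]; tauto

lemma fibs_disj (A : Finset (ZMod (P * Q))) {c : ZMod P} {I : Finset (ZMod P)} (h : c ∉ I) :
    Disjoint (fib A c) (fibs A I) := by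
  rw [disjoint_left]; intro x h1 h2
  exact h ((mem_fib.1 h1).2 ▸ (mem_fibs.1 h2).2)

lemma card_fibs (A : Finset (ZMod (P * Q))) (I : Finset (ZMod P)) :
    (fibs A I).card = ∑ c ∈ I, (fib A c).card := by
  induction I using Finset.induction_on with
  | empty => simp [fibs]
  | insert c I hc ih =>
    rw [fibs_insert, card_union_of_disjoint (fibs_disj A hc), sum_insert hc, ih]

lemma fibs_subset (A : Finset (ZMod (P * Q))) (I : Finset (ZMod P)) : fibs A I ⊆ A :=
  filter_subset _ _

lemma gain_fibs (A : Finset (ZMod (P * Q))) (I : Finset (ZMod P)) (γ : ZMod P → ℕ)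
    (τ : ZMod P → ZMod P) (h : ∀ c ∈ I, Gain (fib A c) (γ c) (τ c)) :
    Gain (fibs A I) (∑ c ∈ I, γ c) (∑ c ∈ I, τ c) := by
  induction I using Finset.induction_on with
  | empty => simpa using gain_zero _
  | insert c I hc ih =>
    rw [fibs_insert, sum_insert hc, sum_insert hc]
    exact Gain.add (fibs_disj A hc) (h c (mem_insert_self _ _))
      (ih (fun x hx => h x (mem_insert_of_mem hx)))

/-- `B` has gain `γ` in at least `min P (m+1)` cosets. -/
def Prof (B : Finset (ZMod (P * Q))) (γ m : ℕ) : Prop :=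
  ∃ M : Finset (ZMod P), min P (m + 1) ≤ M.card ∧ ∀ τ ∈ M, Gain B γ τ

lemma Prof.add {B1 B2 : Finset (ZMod (P * Q))} {γ1 γ2 m1 m2 : ℕ} (h : Disjoint B1 B2)
    (h1 : Prof B1 γ1 m1) (h2 : Prof B2 γ2 m2) : Prof (B1 ∪ B2) (γ1 + γ2) (m1 + m2) := by
  obtain ⟨M1, a1, b1⟩ := h1
  obtain ⟨M2, a2, b2⟩ := h2
  have hP := (Fact.out : P.Prime).pos
  refine ⟨M1 + M2, ?_, ?_⟩
  · have := ZMod.cauchy_davenport (Fact.out : P.Prime) (s := M1) (t := M2)
      (card_pos.1 (by omega)) (card_pos.1 (by omega))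
    omega
  · intro x hx
    obtain ⟨x1, hx1, x2, hx2, rfl⟩ := mem_add.1 hx
    exact Gain.add h (b1 x1 hx1) (b2 x2 hx2)

lemma Prof.mono {B B' : Finset (ZMod (P * Q))} {γ γ' m m' : ℕ} (h : Prof B γ m)
    (hB : B ⊆ B') (hγ : γ' ≤ γ) (hm : m' ≤ m) : Prof B' γ' m' := by
  obtain ⟨M, a, b⟩ := h
  exact ⟨M, by omega, fun τ hτ => (b τ hτ).mono hB hγ⟩

lemma Gain.prof {B : Finset (ZMod (P * Q))} {γ : ℕ} {τ : ZMod P} (h : Gain B γ τ) :
    Prof B γ 0 := ⟨{τ}, by simp, by simpa using h⟩

lemma Prof.full {B : Finset (ZMod (P * Q))} {γ m : ℕ} (h : Prof B γ m) (hγ : Q ≤ γ + 1)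
    (hm : P ≤ m + 1) (g : ZMod (P * Q)) : g ∈ B.subsetSum := by
  obtain ⟨M, a, b⟩ := h
  have : M = univ := by
    apply eq_univ_of_card; rw [ZMod.card]
    have := (card_le_univ M).trans (ZMod.card P).le
    omega
  exact (b _ (this ▸ mem_univ _)).full hγ

lemma prof_movers {B : Finset (ZMod (P * Q))} (hB : ∀ x ∈ B, ph P Q x ≠ 0) :
    Prof B 0 B.card := by
  induction B using Finset.induction_on with
  | empty => exact (gain_zero _).prof
  | insert a s ha ih =>
    have ih' := ih (fun x hx => hB x (mem_insert_of_mem hx))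
    have ha0 := hB a (mem_insert_self _ _)
    have h1 : Prof ({a} : Finset (ZMod (P * Q))) 0 1 := by
      refine ⟨{0, ph P Q a}, by rw [card_pair ha0.symm]; omega, ?_⟩
      intro x hx
      rcases mem_insert.1 hx with rfl | hx
      · exact gain_zero _
      · rw [mem_singleton.1 hx]; exact gain_one (by simp) (by simp)
    have := Prof.add (by simpa using ha) h1 ih'
    rw [card_insert_of_notMem ha, add_comm]
    simpa using this

/-- one coset, with loss at most one -/
lemma prof_coset_loss {B : Finset (ZMod (P * Q))} {c : ZMod P} (hc : c ≠ 0)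
    (hB : ∀ x ∈ B, ph P Q x = c) {v m : ℕ} (h : v + m + 1 ≤ B.card) : Prof B v m := by
  obtain ⟨B', h1, h2⟩ := exists_subset_card_eq (s := B) (n := v + 1) (by omega)
  have p1 : Prof B' v 0 := (gain_one (fun x hx => hB x (h1 hx)) h2.ge).prof
  have p2 := prof_movers (B := B \ B') (fun x hx => by rw [hB x (mem_sdiff.1 hx).1]; exact hc)
  have := Prof.add disjoint_sdiff p1 p2
  rw [union_sdiff_of_subset h1, card_sdiff_of_subset h1] at this
  exact this.mono Subset.rfl (by omega) (by omega)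

/-- one coset, without loss -/
lemma prof_coset (hQ : 3 ≤ Q) {B : Finset (ZMod (P * Q))} {c : ZMod P} (hc : c ≠ 0)
    (hB : ∀ x ∈ B, ph P Q x = c) {v m : ℕ} (hv : 2 ≤ v) (hv' : v + 1 ≤ B.card)
    (h : v + m ≤ B.card) : Prof B v m := by
  obtain ⟨B', h1, h2⟩ := exists_subset_card_eq (s := B) (n := v + 1) (by omega)
  have p1 : Prof B' v 1 := by
    refine ⟨{c, c + c}, by rw [card_pair (by simpa using hc)]; omega, ?_⟩
    intro x hx
    rcases mem_insert.1 hx with rfl | hx
    · exact gain_one (fun x hx => hB x (h1 hx)) h2.ge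
    · rw [mem_singleton.1 hx]; exact gain_two hQ (fun x hx => hB x (h1 hx)) (by omega)
  have p2 := prof_movers (B := B \ B') (fun x hx => by rw [hB x (mem_sdiff.1 hx).1]; exact hc)
  have := Prof.add disjoint_sdiff p1 p2
  rw [union_sdiff_of_subset h1, card_sdiff_of_subset h1] at this
  exact this.mono Subset.rfl (by omega) (by omega)

lemma prof_fibs_movers (A : Finset (ZMod (P * Q))) {I : Finset (ZMod P)} (h0 : 0 ∉ I) :
    Prof (fibs A I) 0 (∑ c ∈ I, (fib A c).card) := by
  rw [← card_fibs]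
  exact prof_movers (fun x hx h => h0 (h ▸ (mem_fibs.1 hx).2))

lemma prof_fibs_loss (hQ : 3 ≤ Q) (A : Finset (ZMod (P * Q))) (I : Finset (ZMod P)) (h0 : 0 ∉ I)
    (h3 : ∀ c ∈ I, 3 ≤ (fib A c).card) :
    ∀ v m : ℕ, v + I.card ≤ ∑ c ∈ I, (fib A c).card → v + m + 1 ≤ ∑ c ∈ I, (fib A c).card →
      Prof (fibs A I) v m := by
  induction I using Finset.induction_on with
  | empty => intro v m _ h; simp at h
  | insert c I hc ih =>
    intro v m h1 h2
    have hc0 : c ≠ 0 := by rintro rfl; exact h0 (mem_insert_self _ _)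
    have h0' : 0 ∉ I := fun h => h0 (mem_insert_of_mem h)
    have ih' := ih h0' (fun x hx => h3 x (mem_insert_of_mem hx))
    have hl := h3 c (mem_insert_self _ _)
    rw [sum_insert hc] at h1 h2
    rw [card_insert_of_notMem hc] at h1
    rw [fibs_insert]
    by_cases hv : v + 1 ≤ (fib A c).card
    · have p1 := prof_coset_loss hc0 (fib_ph (A := A)) (v := v) (m := (fib A c).card - v - 1)
        (by omega)
      have := Prof.add (fibs_disj A hc) p1 (prof_fibs_movers A h0')
      exact this.mono Subset.rfl (by omega) (by omega)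
    · have p1 := prof_coset hQ hc0 (fib_ph (A := A)) (v := (fib A c).card - 1) (m := 1)
        (by omega) (by omega) (by omega)
      have hI : 1 ≤ I.card := by
        by_contra hh
        have : I = ∅ := card_eq_zero.1 (by omega)
        subst this
        simp at h1; omega
      have p2 := ih' (v + 1 - (fib A c).card) (m - 1) (by omega) (by omega)
      have := Prof.add (fibs_disj A hc) p1 p2
      exact this.mono Subset.rfl (by omega) (by omega)

lemma prof_fibs_big (hQ : 3 ≤ Q) (A : Finset (ZMod (P * Q))) {z : ZMod P} (hz0 : z ≠ 0)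
    (hz : 4 ≤ (fib A z).card) (I : Finset (ZMod P)) (h0 : 0 ∉ I) (hzI : z ∉ I)
    (h3 : ∀ c ∈ I, 3 ≤ (fib A c).card) :
    ∀ v m : ℕ, 2 ≤ v → v + I.card + 1 ≤ (fib A z).card + ∑ c ∈ I, (fib A c).card →
      v + m ≤ (fib A z).card + ∑ c ∈ I, (fib A c).card → Prof (fibs A (insert z I)) v m := by
  induction I using Finset.induction_on with
  | empty =>
    intro v m h1 h2 h3
    simp only [card_empty, sum_empty, add_zero] at h2 h3
    rw [fibs_insert]
    exact (prof_coset hQ hz0 (fib_ph (A := A)) h1 h2 h3).mono subset_union_left le_rfl le_rfl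
  | insert c I hc ih =>
    intro v m hv h1 h2
    have hc0 : c ≠ 0 := by rintro rfl; exact h0 (mem_insert_self _ _)
    have h0' : 0 ∉ I := fun h => h0 (mem_insert_of_mem h)
    have hzI' : z ∉ I := fun h => hzI (mem_insert_of_mem h)
    have hzc : z ≠ c := by rintro rfl; exact hzI (mem_insert_self _ _)
    have ih' := ih h0' hzI' (fun x hx => h3 x (mem_insert_of_mem hx))
    have hl := h3 c (mem_insert_self _ _)
    have hcI : c ∉ insert z I := by simp [hc, hzc.symm]
    have h0I : 0 ∉ insert z I := by simp [h0', hz0.symm]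
    have hS : 3 * I.card ≤ ∑ c ∈ I, (fib A c).card := by
      have := card_nsmul_le_sum I (fun c => (fib A c).card) 3
        (fun x hx => h3 x (mem_insert_of_mem hx))
      simpa [mul_comm] using this
    rw [sum_insert hc] at h1 h2
    rw [card_insert_of_notMem hc] at h1
    rw [Finset.insert_comm, fibs_insert]
    by_cases hv1 : v + 1 ≤ (fib A c).card
    · have p1 := prof_coset hQ hc0 (fib_ph (A := A)) (v := v) (m := (fib A c).card - v) hv hv1
        (by omega)
      have p2 := prof_fibs_movers A h0I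
      rw [sum_insert hzI'] at p2
      have := Prof.add (fibs_disj A hcI) p1 p2
      exact this.mono Subset.rfl (by omega) (by omega)
    by_cases hv2 : (fib A c).card + 1 ≤ v
    · have p1 := prof_coset hQ hc0 (fib_ph (A := A)) (v := (fib A c).card - 1) (m := 1)
        (by omega) (by omega) (by omega)
      have p2 := ih' (v + 1 - (fib A c).card) (m - 1) (by omega) (by omega) (by omega)
      have := Prof.add (fibs_disj A hcI) p1 p2
      exact this.mono Subset.rfl (by omega) (by omega)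
    by_cases hv3 : v = 3
    · have p1 := prof_movers (B := fib A c) (fun x hx => by rw [fib_ph x hx]; exact hc0)
      have p2 := ih' 3 (m - 3) (by omega) (by omega) (by omega)
      have := Prof.add (fibs_disj A hcI) p1 p2
      exact this.mono Subset.rfl (by omega) (by omega)
    · have p1 := prof_coset hQ hc0 (fib_ph (A := A)) (v := v - 2) (m := 2)
        (by omega) (by omega) (by omega)
      have p2 := ih' 2 (m - 2) (by omega) (by omega) (by omega)
      have := Prof.add (fibs_disj A hcI) p1 p2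
      exact this.mono Subset.rfl (by omega) (by omega)

end

end Pool.Agent.P.MP_10af71_co
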