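import Mathlib

namespace Pool.Agent.P.MP_10af71_co

open Finset

/-- `P` if `c ∈ C`, else `0`. -/
def ip {P : ℕ} (C : Finset (ZMod P)) (c : ZMod P) : ℤ := if c ∈ C then (P : ℤ) else 0

lemma ip_mem {P : ℕ} {C : Finset (ZMod P)} {c : ZMod P} (h : c ∈ C) : ip C c = P := by
  simp [ip, h]

lemma ip_not {P : ℕ} {C : Finset (ZMod P)} {c : ZMod P} (h : c ∉ C) : ip C c = 0 := by
  simp [ip, h]

lemma ip_nonneg {P : ℕ} (C : Finset (ZMod P)) (c : ZMod P) : 0 ≤ ip C c := by
  unfold ip; split_ifs <;> simp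

lemma ip_le {P : ℕ} (C : Finset (ZMod P)) (c : ZMod P) : ip C c ≤ P := by
  unfold ip; split_ifs <;> simp

/-- The integer model of the structure of a non-spanning set. -/
structure Model (P Q : ℕ) (a X : ZMod P → ℤ) (C : Finset (ZMod P)) (y : ℤ) : Prop where
  ha : ∀ c, ((a c : ℤ) : ZMod P) = c
  a0 : a 0 = 0
  C0 : (0 : ZMod P) ∉ C
  ypos : 0 < y
  ylt : y < P
  star : ∀ S S' : Finset (ZMod P), Disjoint S S' → S' ⊆ C →
    ∑ c ∈ S, c - ∑ c ∈ S', c = (y : ZMod P) →
    ∃ w : ℤ, 0 ≤ w ∧ w + P ≤ ∑ c ∈ S, ip C c + ∑ _c ∈ S', (P : ℤ) ∧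
      ((P : ℤ) * Q) ∣ ∑ c ∈ S, a c + ∑ c ∈ S', ((P : ℤ) - a c) - y - w
  hX : ∀ c, X c = a c ∨ (c ∉ C ∧ X c = a c + P)
  chain : ∀ c, X (c + y) - X c = y ∨ X (c + y) - X c = y - P
  Xe : X y = y
  Xne : X (-y) = P - y

lemma lift_zero {P Q : ℕ} (hQ : 7 ≤ Q) {v : ℤ} (h : ((P : ℤ) * Q) ∣ v)
    (h1 : -(7 * (P : ℤ)) < v) (h2 : v < 7 * (P : ℤ)) : v = 0 := by
  apply Int.eq_zero_of_abs_lt_dvd h
  have : (7 : ℤ) * P ≤ P * Q := by
    have : (7 : ℤ) ≤ Q := by exact_mod_cast hQ
    nlinarith [Int.natCast_nonneg P]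
  rw [abs_lt]; constructor <;> linarith

lemma disc_cont {P Q : ℕ} (hQ : 7 ≤ Q) (f : ℕ → ℤ) (n : ℕ) (E : Finset ℕ) (hE : E.card ≤ 3)
    (hstep : ∀ i, f (i + 1) - f i ≤ P ∧ -(P : ℤ) ≤ f (i + 1) - f i)
    (h0 : 0 ≤ f 0 ∧ f 0 ≤ 2 * P) (hP : 0 < P)
    (hreg : ∀ i < n, i ∉ E → ∃ w : ℤ, 0 ≤ w ∧ w ≤ 2 * P ∧ ((P : ℤ) * Q) ∣ f i - w) :
    ∀ i < n, -(3 * (P : ℤ)) ≤ f i ∧ f i ≤ 5 * P := by
  have hP' : (0 : ℤ) < P := by exact_mod_cast hP
  have key : ∀ i < n, -(((E.filter (· ≤ i)).card : ℤ) * P) ≤ f i ∧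
      f i ≤ 2 * P + ((E.filter (· ≤ i)).card : ℤ) * P := by
    intro i
    induction i with
    | zero =>
      intro _
      have : (0 : ℤ) ≤ ((E.filter (· ≤ 0)).card : ℤ) * P := by positivity
      constructor <;> linarith [h0.1, h0.2]
    | succ i ih =>
      intro hi
      have ih' := ih (by omega)
      by_cases hmem : i + 1 ∈ E
      · have : E.filter (· ≤ i + 1) = insert (i + 1) (E.filter (· ≤ i)) := by
          ext x
          simp only [mem_filter, mem_insert]
          constructor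
          · rintro ⟨h1, h2⟩
            by_cases hx : x = i + 1
            · left; exact hx
            · right; exact ⟨h1, by omega⟩
          · rintro (h | ⟨h1, h2⟩)
            · subst h; exact ⟨hmem, le_rfl⟩
            · exact ⟨h1, by omega⟩
        rw [this, card_insert_of_notMem (by simp)]
        push_cast
        have := hstep i
        constructor <;> nlinarith [this.1, this.2, ih'.1, ih'.2]
      · obtain ⟨w, hw0, hw1, hw⟩ := hreg (i + 1) hi hmem
        have hc : ((E.filter (· ≤ i)).card : ℤ) ≤ 3 := by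
          have := card_filter_le E (· ≤ i)
          exact_mod_cast this.trans hE
        have hc' : ((E.filter (· ≤ i)).card : ℤ) * P ≤ 3 * P := by nlinarith
        have := hstep i
        have hz := lift_zero hQ hw (by linarith [this.1, this.2, ih'.1, ih'.2])
          (by linarith [this.1, this.2, ih'.1, ih'.2])
        have : (0 : ℤ) ≤ ((E.filter (· ≤ i + 1)).card : ℤ) * P := by positivity
        constructor <;> linarith
  intro i hi
  have hc : ((E.filter (· ≤ i)).card : ℤ) ≤ 3 := by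
    have := card_filter_le E (· ≤ i)
    exact_mod_cast this.trans hE
  have hc' : ((E.filter (· ≤ i)).card : ℤ) * P ≤ 3 * P := by nlinarith
  have := key i hi
  constructor <;> linarith [this.1, this.2]

section
variable {P Q : ℕ} {a X : ZMod P → ℤ} {C : Finset (ZMod P)} {y : ℤ}

lemma Model.star0 (M : Model P Q a X C y) (hP : 0 < P) : (y : ZMod P) ≠ 0 := by
  intro h
  obtain ⟨w, h0, h1, _⟩ := M.star ∅ ∅ (by simp) (by simp) (by simp [h])
  have hP' : (0 : ℤ) < P := by exact_mod_cast hP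
  simp at h1; linarith

lemma Model.star1 (M : Model P Q a X C y) (hP : 0 < P) : (y : ZMod P) ∈ C := by
  obtain ⟨w, h0, h1, _⟩ := M.star {(y : ZMod P)} ∅ (by simp) (by simp) (by simp)
  have hP' : (0 : ℤ) < P := by exact_mod_cast hP
  by_contra h
  simp [ip_not h] at h1; linarith

lemma Model.ae (M : Model P Q a X C y) (hP : 0 < P) : a y = y := by
  rcases M.hX y with h | h
  · rw [← h, M.Xe]
  · exact absurd (M.star1 hP) h.1

lemma Model.star2 (M : Model P Q a X C y) {p q : ZMod P} (hpq : p ≠ q) (hs : p + q = y) :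
    ∃ w : ℤ, 0 ≤ w ∧ w + P ≤ ip C p + ip C q ∧ ((P : ℤ) * Q) ∣ a p + a q - y - w := by
  have := M.star {p, q} ∅ (by simp) (by simp) (by simp [sum_pair hpq, hs])
  simpa [sum_pair hpq] using this

lemma Model.star3 (M : Model P Q a X C y) {p q r : ZMod P} (hpq : p ≠ q) (hpr : p ≠ r)
    (hqr : q ≠ r) (hs : p + q + r = y) :
    ∃ w : ℤ, 0 ≤ w ∧ w + P ≤ ip C p + ip C q + ip C r ∧
      ((P : ℤ) * Q) ∣ a p + a q + a r - y - w := by
  have h1 : p ∉ ({q, r} : Finset (ZMod P)) := by simp [hpq, hpr]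
  have := M.star {p, q, r} ∅ (by simp) (by simp)
    (by rw [sum_insert h1, sum_pair hqr]; simp [← hs, add_assoc])
  simp only [sum_insert h1, sum_pair hqr, sum_empty, add_zero] at this
  simpa [add_assoc] using this

lemma Model.star4 (M : Model P Q a X C y) {p q r s : ZMod P} (hpq : p ≠ q) (hpr : p ≠ r)
    (hps : p ≠ s) (hqr : q ≠ r) (hqs : q ≠ s) (hrs : r ≠ s) (hs : p + q + r + s = y) :
    ∃ w : ℤ, 0 ≤ w ∧ w + P ≤ ip C p + ip C q + ip C r + ip C s ∧
      ((P : ℤ) * Q) ∣ a p + a q + a r + a s - y - w := by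
  have h1 : p ∉ ({q, r, s} : Finset (ZMod P)) := by simp [hpq, hpr, hps]
  have h2 : q ∉ ({r, s} : Finset (ZMod P)) := by simp [hqr, hqs]
  have := M.star {p, q, r, s} ∅ (by simp) (by simp)
    (by rw [sum_insert h1, sum_insert h2, sum_pair hrs]; simp [← hs, add_assoc])
  simp only [sum_insert h1, sum_insert h2, sum_pair hrs, sum_empty, add_zero] at this
  simpa [add_assoc] using this

lemma Model.star21 (M : Model P Q a X C y) {p q r : ZMod P} (hpq : p ≠ q) (hpr : p ≠ r)
    (hqr : q ≠ r) (hr : r ∈ C) (hs : p + q - r = y) :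
    ∃ w : ℤ, 0 ≤ w ∧ w ≤ ip C p + ip C q ∧
      ((P : ℤ) * Q) ∣ a p + a q + (P - a r) - y - w := by
  have := M.star {p, q} {r} (by simp [hpr.symm, hqr.symm]) (by simpa using hr)
    (by simp [sum_pair hpq, hs])
  simpa [sum_pair hpq] using this

lemma Model.X_ge (M : Model P Q a X C y) (c : ZMod P) : a c ≤ X c := by
  rcases M.hX c with h | h
  · exact h.ge
  · rw [h.2]; linarith [Int.natCast_nonneg P]

lemma Model.X_le (M : Model P Q a X C y) (c : ZMod P) : X c ≤ a c + P - ip C c := by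
  rcases M.hX c with h | h
  · rw [h]; linarith [ip_le C c]
  · rw [h.2, ip_not h.1]; linarith

lemma Model.step (M : Model P Q a X C y) (c : ZMod P) :
    X (c + y) - X c ≤ y ∧ y - P ≤ X (c + y) - X c := by
  have := Int.natCast_nonneg P
  rcases M.chain c with h | h <;> constructor <;> linarith

/-- R4 modulo `PQ`. -/
lemma Model.r4 (M : Model P Q a X C y) (hP : P.Prime) (hP7 : 7 ≤ P) {c : ZMod P} (h0 : c ≠ 0)
    (h1 : c ≠ y) (h2 : c ≠ -y) :
    ∃ w : ℤ, 0 ≤ w ∧ w ≤ ip C c + ip C (-c) ∧ ((P : ℤ) * Q) ∣ a c + a (-c) - w := by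
  have := Fact.mk hP
  have h2' : (2 : ZMod P) ≠ 0 := by
    have : ((2 : ℕ) : ZMod P) ≠ 0 := by
      rw [Ne, ZMod.natCast_eq_zero_iff]; intro h; have := Nat.le_of_dvd (by norm_num) h; omega
    simpa using this
  have hne : c ≠ -c := by
    intro h
    have : 2 * c = 0 := by linear_combination h
    rcases mul_eq_zero.1 this with h | h
    · exact h2' h
    · exact h0 h
  obtain ⟨w, hw0, hw1, hw⟩ := M.star3 hne h1 (by intro h; apply h2; rw [← h]; simp) (by simp)
  rw [ip_mem (M.star1 hP.pos)] at hw1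
  rw [M.ae hP.pos] at hw
  refine ⟨w, hw0, by linarith, ?_⟩
  convert hw using 1; ring

lemma Model.gamma (M : Model P Q a X C y) (hP : P.Prime) (hP7 : 7 ≤ P) (hQ : 7 ≤ Q) (c : ZMod P) :
    0 ≤ X c + X (-c) ∧ X c + X (-c) ≤ 2 * P := by
  have := Fact.mk hP
  have hP' : (0 : ℤ) < P := by exact_mod_cast hP.pos
  have h00 : 0 ≤ X 0 + X (-0) ∧ X 0 + X (-0) ≤ 2 * P := by
    have h1 := M.X_ge 0
    have h2 := M.X_le 0
    rw [M.a0] at h1 h2
    rw [ip_not M.C0] at h2
    simp only [neg_zero]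
    constructor <;> linarith
  have hmod : ∀ c : ZMod P, ∃ w : ℤ, 0 ≤ w ∧ w ≤ 2 * P ∧ ((P : ℤ) * Q) ∣ X c + X (-c) - w := by
    intro c
    by_cases h0 : c = 0
    · subst h0; exact ⟨_, h00.1, h00.2, by simp⟩
    by_cases h1 : c = y
    · subst h1; exact ⟨P, hP'.le, by linarith, by rw [M.Xe, M.Xne]; simp⟩
    by_cases h2 : c = -y
    · subst h2; exact ⟨P, hP'.le, by linarith, by rw [neg_neg, M.Xe, M.Xne]; simp⟩
    obtain ⟨w, hw0, hw1, hw⟩ := M.r4 hP hP7 h0 h1 h2
    refine ⟨w + (X c - a c) + (X (-c) - a (-c)), ?_, ?_, ?_⟩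
    · linarith [M.X_ge c, M.X_ge (-c)]
    · linarith [M.X_le c, M.X_le (-c)]
    · convert hw using 1; ring
  have key : ∀ i : ℕ, 0 ≤ X (i * y) + X (-(i * y)) ∧ X (i * y) + X (-(i * y)) ≤ 2 * P := by
    intro i
    induction i with
    | zero => simpa using h00
    | succ i ih =>
      obtain ⟨w, hw0, hw1, hw⟩ := hmod (((i + 1 : ℕ) : ZMod P) * y)
      have e1 : (((i + 1 : ℕ) : ZMod P) * y) = i * y + y := by push_cast; ring
      have e2 : -((i : ZMod P) * y) = -(((i + 1 : ℕ) : ZMod P) * y) + y := by push_cast; ring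
      have s1 := M.step (i * y)
      have s2 := M.step (-(((i + 1 : ℕ) : ZMod P) * y))
      rw [← e2] at s2
      rw [← e1] at s1
      have hz := lift_zero hQ hw (by linarith [s1.1, s1.2, s2.1, s2.2, ih.1, ih.2])
        (by linarith [s1.1, s1.2, s2.1, s2.2, ih.1, ih.2])
      constructor <;> linarith
  have hy := M.star0 hP.pos
  have := key (c / y).val
  rwa [ZMod.natCast_zmod_val, div_mul_cancel₀ _ hy] at this

lemma Model.theta (M : Model P Q a X C y) (hP : P.Prime) (hP7 : 7 ≤ P) (hQ : 7 ≤ Q)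
    {p q r : ZMod P} (hs : p + q + r = y) :
    -(3 * (P : ℤ)) ≤ X p + X q + X r - y ∧ X p + X q + X r - y ≤ 5 * P := by
  have := Fact.mk hP
  have hP' : (0 : ℤ) < P := by exact_mod_cast hP.pos
  have hy := M.star0 hP.pos
  have h2' : (2 : ZMod P) ≠ 0 := by
    have : ((2 : ℕ) : ZMod P) ≠ 0 := by
      rw [Ne, ZMod.natCast_eq_zero_iff]; intro h; have := Nat.le_of_dvd (by norm_num) h; omega
    simpa using this
  set E : Finset ℕ := ({p, y - 2 * p, (y - p) / 2} : Finset (ZMod P)).image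
    (fun t : ZMod P => ((t - y) / y).val) with hE
  have hEc : E.card ≤ 3 := card_image_le.trans card_le_three
  have := disc_cont hQ (fun i => X p + X (y + i * y) + X (-p - i * y) - y) P E hEc ?_ ?_ hP.pos ?_
    ((q - y) / y).val (ZMod.val_lt _)
  · simp only [ZMod.natCast_zmod_val, div_mul_cancel₀ _ hy] at this
    have e1 : (y : ZMod P) + (q - y) = q := by ring
    have e2 : -p - (q - y) = r := by rw [← hs]; ring
    rwa [e1, e2] at this
  · intro i
    have e1 : (y : ZMod P) + ((i + 1 : ℕ) : ZMod P) * y = (y + i * y) + y := by push_cast; ring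
    have e2 : -p - (i : ZMod P) * y = (-p - ((i + 1 : ℕ) : ZMod P) * y) + y := by push_cast; ring
    have s1 := M.step (y + i * y)
    have s2 := M.step (-p - ((i + 1 : ℕ) : ZMod P) * y)
    rw [← e2] at s2
    rw [← e1] at s1
    constructor <;> linarith [s1.1, s1.2, s2.1, s2.2]
  · have := M.gamma hP hP7 hQ p
    simp only [Nat.cast_zero, zero_mul, add_zero, sub_zero, M.Xe]
    constructor <;> linarith [this.1, this.2]
  · intro i hi hiE
    have hne : ∀ t ∈ ({p, y - 2 * p, (y - p) / 2} : Finset (ZMod P)), (y : ZMod P) + i * y ≠ t := by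
      intro t ht h
      apply hiE
      rw [hE, mem_image]
      refine ⟨t, ht, ?_⟩
      rw [← h, add_sub_cancel_left, mul_div_cancel_right₀ _ hy, ZMod.val_natCast,
        Nat.mod_eq_of_lt hi]
    have n1 := hne p (by simp)
    have n2 := hne (y - 2 * p) (by simp)
    have n3 := hne ((y - p) / 2) (by simp)
    obtain ⟨w, hw0, hw1, hw⟩ := M.star3 (p := p) (q := y + i * y) (r := -p - i * y) n1.symm
      (by intro h; apply n2; linear_combination h)
      (by intro h; apply n3; field_simp; linear_combination h) (by ring)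
    refine ⟨w + (X p - a p) + (X (y + i * y) - a (y + i * y)) + (X (-p - i * y) - a (-p - i * y)),
      ?_, ?_, ?_⟩
    · linarith [M.X_ge p, M.X_ge (y + i * y), M.X_ge (-p - i * y)]
    · linarith [M.X_le p, M.X_le (y + i * y), M.X_le (-p - i * y)]
    · convert hw using 1; ring

end

end Pool.Agent.P.MP_10af71_co
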