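import Pool.Agent.P.MP_10af71_co.Key

namespace Pool.Agent.P.MP_10af71_co

open Finset

/-- upper value -/
def bb {P : ℕ} (a : ZMod P → ℤ) (C : Finset (ZMod P)) (c : ZMod P) : ℤ := a c + P - ip C c

/-- target value -/
def tt {P : ℕ} (a : ZMod P → ℤ) (C : Finset (ZMod P)) (c : ZMod P) : ℤ :=
  if c ∈ C then a c else P - bb a C (-c)

lemma cast_ne_zero_of_lt {P : ℕ} {k : ℕ} (h0 : 0 < k) (h1 : k < P) : ((k : ℕ) : ZMod P) ≠ 0 := by
  rw [Ne, ZMod.natCast_eq_zero_iff]; intro h; have := Nat.le_of_dvd h0 h; omega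

lemma cast_inj_of_lt {P : ℕ} {k l : ℕ} (h0 : k < P) (h1 : l < P)
    (h : ((k : ℕ) : ZMod P) = ((l : ℕ) : ZMod P)) : k = l := by
  have := congrArg ZMod.val h
  rwa [ZMod.val_natCast, ZMod.val_natCast, Nat.mod_eq_of_lt h0, Nat.mod_eq_of_lt h1] at this

section
variable {P Q : ℕ} {a X : ZMod P → ℤ} {C : Finset (ZMod P)} {y : ℤ}

lemma Model.bb_cast (M : Model P Q a X C y) (c : ZMod P) : ((bb a C c : ℤ) : ZMod P) = c := by
  unfold bb ip
  split_ifs <;> simp [M.ha]

lemma Model.UT (M : Model P Q a X C y) (hP : P.Prime) (hP7 : 7 ≤ P) (hQ : 7 ≤ Q)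
    {p q r : ZMod P} (hpq : p ≠ q) (hpr : p ≠ r) (hqr : q ≠ r) (hs : p + q + r = y) :
    bb a C p + bb a C q + bb a C r ≤ y + 2 * P := by
  have hP' : (0 : ℤ) < P := by exact_mod_cast hP.pos
  obtain ⟨w, hw0, hw1, hw⟩ := M.star3 hpq hpr hqr hs
  have ht := M.theta hP hP7 hQ hs
  by_contra hcon
  unfold bb at hcon
  have hz := lift_zero hQ hw (by linarith) (by linarith [M.X_ge p, M.X_ge q, M.X_ge r, ht.2])
  linarith

lemma Model.LT (M : Model P Q a X C y) (hP : P.Prime) (hP7 : 7 ≤ P) (hQ : 7 ≤ Q)
    {p q r : ZMod P} (hpq : p ≠ q) (hpr : p ≠ r) (hqr : q ≠ r) (hs : p + q + r = y) :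
    y ≤ a p + a q + a r := by
  have hP' : (0 : ℤ) < P := by exact_mod_cast hP.pos
  obtain ⟨w, hw0, hw1, hw⟩ := M.star3 hpq hpr hqr hs
  have ht := M.theta hP hP7 hQ hs
  by_contra hcon
  have hz := lift_zero hQ hw (by linarith [M.X_le p, M.X_le q, M.X_le r, ht.1]) (by linarith)
  linarith

lemma Model.r4_real (M : Model P Q a X C y) (hP : P.Prime) (hP7 : 7 ≤ P) (hQ : 7 ≤ Q)
    {c : ZMod P} (h0 : c ≠ 0) (h1 : c ≠ y) (h2 : c ≠ -y) :
    0 ≤ a c + a (-c) ∧ a c + a (-c) ≤ ip C c + ip C (-c) := by
  have hP' : (0 : ℤ) < P := by exact_mod_cast hP.pos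
  obtain ⟨w, hw0, hw1, hw⟩ := M.r4 hP hP7 h0 h1 h2
  have hg := M.gamma hP hP7 hQ c
  have hz := lift_zero hQ hw
    (by linarith [M.X_le c, M.X_le (-c), hg.1, ip_nonneg C c, ip_nonneg C (-c), ip_le C c,
      ip_le C (-c)])
    (by linarith [M.X_ge c, M.X_ge (-c), hg.2])
  constructor <;> linarith

lemma Model.bb_e (M : Model P Q a X C y) (hP : P.Prime) : bb a C y = y := by
  unfold bb; rw [M.ae hP.pos, ip_mem (M.star1 hP.pos)]; ring

lemma Model.bb_zero (M : Model P Q a X C y) : bb a C 0 = P := by
  unfold bb; rw [M.a0, ip_not M.C0]; ring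

lemma Model.tt_le (M : Model P Q a X C y) (hP : P.Prime) (hP7 : 7 ≤ P) (hQ : 7 ≤ Q)
    (c : ZMod P) : tt a C c ≤ bb a C c := by
  have hP' : (0 : ℤ) < P := by exact_mod_cast hP.pos
  unfold tt
  split_ifs with h
  · unfold bb; linarith [ip_le C c]
  · by_cases h0 : c = 0
    · subst h0; rw [neg_zero, M.bb_zero]; linarith
    by_cases h2 : c = -y
    · subst h2
      rw [neg_neg, M.bb_e hP]
      have := M.X_le (-y)
      rw [M.Xne] at this
      unfold bb; linarith
    have h1 : c ≠ y := by rintro rfl; exact h (M.star1 hP.pos)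
    have := M.r4_real hP hP7 hQ h0 h1 h2
    unfold bb
    rw [ip_not h]
    linarith [ip_le C (-c), this.1]

lemma Model.tt_ne (M : Model P Q a X C y) (hP : P.Prime) : tt a C (-y) = P - y := by
  unfold tt
  split_ifs with h
  · rcases M.hX (-y) with h' | h'
    · rw [← h', M.Xne]
    · exact absurd h h'.1
  · rw [neg_neg, M.bb_e hP]

lemma Model.tt_zero (M : Model P Q a X C y) : tt a C 0 = 0 := by
  unfold tt
  rw [if_neg M.C0, neg_zero, M.bb_zero]; ring

/-- The regular step inequality. -/
lemma Model.reg (M : Model P Q a X C y) (hP : P.Prime) (hP7 : 7 ≤ P) (hQ : 7 ≤ Q)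
    {c u v : ZMod P} (hs : c + u - v = y) (h1 : u ≠ c) (h2 : v ≠ c) (h3 : u ≠ v)
    (h4 : v ∉ C → -v ≠ c ∧ -v ≠ u) :
    bb a C u + (bb a C c - P - y) ≤ tt a C v := by
  have hP' : (0 : ℤ) < P := by exact_mod_cast hP.pos
  unfold tt
  split_ifs with h
  · obtain ⟨w, hw0, hw1, hw⟩ := M.star21 h1.symm h2.symm h3 h hs
    have ht := M.theta hP hP7 hQ (p := c) (q := u) (r := -v) (by rw [← hs]; ring)
    have hg := M.gamma hP hP7 hQ v
    have hv := M.X_le v
    rw [ip_mem h] at hv
    by_contra hcon
    unfold bb at hcon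
    have hz := lift_zero hQ hw (by linarith) (by linarith [M.X_ge c, M.X_ge u, ht.2, hg.1])
    linarith
  · have := M.UT hP hP7 hQ (p := c) (q := u) (r := -v) h1.symm (h4 h).1.symm (h4 h).2.symm
      (by rw [← hs]; ring)
    linarith

/-- Main bound. -/
lemma Model.upper (M : Model P Q a X C y) (hP : P.Prime) (hP7 : 7 ≤ P) (hQ : 7 ≤ Q)
    (c : ZMod P) : bb a C c < P + y := by
  have := Fact.mk hP
  have hP' : (0 : ℤ) < P := by exact_mod_cast hP.pos
  have hy0 := M.ypos
  have hy1 := M.ylt
  by_contra hcon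
  push Not at hcon
  obtain ⟨J, hJ⟩ : ∃ J : ℤ, J = bb a C c - P - y := ⟨_, rfl⟩
  have hJ0 : 0 ≤ J := by linarith
  obtain ⟨j, hj⟩ : ∃ j : ZMod P, j = (J : ZMod P) := ⟨_, rfl⟩
  have hc : c = y + j := by
    rw [hj, hJ]; push_cast; rw [M.bb_cast]; simp
  have hcy : c ≠ y := by
    rintro rfl; rw [M.bb_e hP] at hcon; linarith
  have hc0 : c ≠ 0 := by
    rintro rfl; rw [M.bb_zero] at hcon; linarith
  have hj0 : j ≠ 0 := by
    rintro rfl; apply hcy; rw [hc]; simp
  have hJ1 : 1 ≤ J := by
    rcases hJ0.lt_or_eq with h | h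
    · exact h
    · exfalso; apply hj0; rw [hj, ← h]; simp
  have hy := M.star0 hP.pos
  obtain ⟨r, hr⟩ : ∃ r : ℕ, P = 2 * r + 1 := by
    have := hP.eq_two_or_odd'
    rcases this with h | h
    · omega
    · exact h
  have hr3 : 3 ≤ r := by omega
  -- N with c = -(N+1) j
  obtain ⟨N, hN⟩ : ∃ N : ℕ, N = (-c / j - 1).val := ⟨_, rfl⟩
  have hNlt : N < P := by rw [hN]; exact ZMod.val_lt _
  have hcN : c = -((N : ZMod P) + 1) * j := by
    rw [hN, ZMod.natCast_zmod_val]; field_simp; ring
  have hyN : (y : ZMod P) = -((N : ZMod P) + 2) * j := by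
    have : (y : ZMod P) = c - j := by rw [hc]; ring
    rw [this, hcN]; ring
  have hPz : ((P : ℕ) : ZMod P) = 0 := ZMod.natCast_self P
  have hN1 : N + 1 ≠ P := by
    intro h; apply hc0; rw [hcN]
    have : ((N + 1 : ℕ) : ZMod P) = 0 := by rw [h]; exact hPz
    push_cast at this; rw [this]; simp
  have hN2 : N + 2 ≠ P := by
    intro h; apply hy; rw [hyN]
    have : ((N + 2 : ℕ) : ZMod P) = 0 := by rw [h]; exact hPz
    push_cast at this; rw [this]; simp
  -- helper for distinctness: k * j = 0 impossible for 0<k<P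
  have nz : ∀ k : ℕ, 0 < k → k < P → (k : ZMod P) * j ≠ 0 := fun k h0 h1 =>
    mul_ne_zero (cast_ne_zero_of_lt h0 h1) hj0
  have nz2 : ∀ k : ℕ, P < k → k < 2 * P → (k : ZMod P) * j ≠ 0 := by
    intro k h0 h1
    have := nz (k - P) (by omega) (by omega)
    rwa [Nat.cast_sub h0.le, hPz, sub_zero] at this
  -- forward lemma
  have fwd : ∀ m : ℕ, m ≤ r → m + N + 2 ≤ P → (m ≤ N ∨ ((N : ZMod P) + 1) * j ∈ C) →
      P + m * J ≤ bb a C (m * j) ∧ (1 ≤ m → P + m * J ≤ tt a C (m * j)) := by
    intro m
    induction m with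
    | zero => intro _ _ _; simp [M.bb_zero]
    | succ m ih =>
      intro h1 h2 h3
      have ih' := (ih (by omega) (by omega) (h3.imp_left (by omega))).1
      have hreg := M.reg hP hP7 hQ (c := c) (u := m * j) (v := ((m + 1 : ℕ) : ZMod P) * j)
        (by rw [hc]; push_cast; ring)
        (by
          intro h
          apply nz (m + N + 1) (by omega) (by omega)
          rw [hcN] at h; push_cast; linear_combination h)
        (by
          intro h
          apply nz (m + N + 2) (by omega) (by omega)
          rw [hcN] at h; push_cast at h ⊢; linear_combination h)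
        (by
          intro h; apply hj0; push_cast at h; linear_combination -h)
        (by
          intro hC
          constructor
          · intro h
            have hmN : m = N := by
              apply cast_inj_of_lt (P := P) (by omega) hNlt
              apply mul_right_cancel₀ hj0
              rw [hcN] at h; push_cast at h; linear_combination -h
            rcases h3 with h3 | h3
            · omega
            · apply hC; rw [hmN]; push_cast; exact h3
          · intro h
            apply nz (2 * m + 1) (by omega) (by omega)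
            push_cast at h ⊢; linear_combination -h)
      have htl := M.tt_le hP hP7 hQ (((m + 1 : ℕ) : ZMod P) * j)
      have : P + ((m + 1 : ℕ) : ℤ) * J ≤ tt a C (((m + 1 : ℕ) : ZMod P) * j) := by
        push_cast at hreg ⊢; linarith
      exact ⟨this.trans htl, fun _ => this⟩
  by_cases hNr : r ≤ N
  · -- path from 0 to e is regular
    have h := (fwd (P - 2 - N) (by omega) (by omega) (Or.inl (by omega))).1
    have e1 : ((P - 2 - N : ℕ) : ZMod P) * j = y := by
      rw [hyN, Nat.cast_sub (by omega), Nat.cast_sub (by omega), hPz]; push_cast; ring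
    rw [e1, M.bb_e hP] at h
    have : (0 : ℤ) ≤ ((P - 2 - N : ℕ) : ℤ) * J := by positivity
    linarith
  push Not at hNr
  by_cases hN2' : 2 ≤ N
  · have h1 := (fwd 1 (by omega) (by omega) (Or.inl (by omega))).1
    have h2 := (fwd N (by omega) (by omega) (Or.inl le_rfl)).1
    simp only [Nat.cast_one, one_mul] at h1
    obtain ⟨w, hw0, hw1, hw⟩ := M.star4 (p := c) (q := j) (r := N * j) (s := y)
      (by intro h; apply nz (N + 2) (by omega) (by omega); rw [hcN] at h; push_cast
          linear_combination -h)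
      (by intro h; apply nz (2 * N + 1) (by omega) (by omega); rw [hcN] at h; push_cast
          linear_combination -h)
      hcy
      (by intro h; apply nz (N - 1) (by omega) (by omega); rw [Nat.cast_sub (by omega)]
          push_cast; linear_combination -h)
      (by intro h; apply nz (N + 3) (by omega) (by omega); rw [hyN] at h; push_cast
          linear_combination h)
      (by intro h; apply nz (2 * N + 2) (by omega) (by omega); rw [hyN] at h; push_cast
          linear_combination h)
      (by rw [hcN]; ring)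
    rw [M.ae hP.pos] at hw
    rw [ip_mem (M.star1 hP.pos)] at hw1
    have hdiv : (P : ℤ) ∣ y + (N + 2) * J := by
      rw [← ZMod.intCast_zmod_eq_zero_iff_dvd]; push_cast; rw [← hj, hyN]; ring
    have hpos : 0 < y + (N + 2) * J := by positivity
    have hge := Int.le_of_dvd hpos hdiv
    have ht := M.theta hP hP7 hQ (p := c) (q := j) (r := N * j + y) (by rw [hcN]; ring)
    have hst := M.step (N * j)
    unfold bb at h1 h2 hJ
    have hz := lift_zero hQ hw (by nlinarith) (by
      linarith [M.X_ge c, M.X_ge j, M.X_ge (N * j), ht.2, hst.2])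
    nlinarith
  by_cases hC : ((N : ZMod P) + 1) * j ∈ C
  · have h := (fwd (N + 2) (by omega) (by omega) (Or.inr hC)).2 (by omega)
    have e1 : ((N + 2 : ℕ) : ZMod P) * j = -y := by rw [hyN]; push_cast; ring
    rw [e1, M.tt_ne hP] at h
    have : (0 : ℤ) ≤ ((N + 2 : ℕ) : ℤ) * J := by positivity
    linarith
  have hcne : c ≠ -y := by
    intro h; apply nz (2 * N + 3) (by omega) (by omega); rw [hcN, hyN] at h; push_cast
    linear_combination -h
  have hr4 := (M.r4_real hP hP7 hQ hc0 hcy hcne).2
  have hnc : -c = ((N : ZMod P) + 1) * j := by rw [hcN]; ring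
  rw [hnc, ip_not hC] at hr4
  obtain rfl | rfl : N = 0 ∨ N = 1 := by omega
  · -- N = 0
    simp only [Nat.cast_zero, zero_add, one_mul, neg_mul] at hcN hyN hC hr4 hnc
    have hst := M.step j
    have e1 : j + y = c := by rw [hc]; ring
    rw [e1] at hst
    have hXj := M.X_le j
    rw [ip_not hC] at hXj
    by_cases hcC : c ∈ C
    · have := M.X_ge c
      unfold bb at hJ
      rw [ip_mem hcC] at hJ hr4
      linarith [hst.1]
    · obtain ⟨w, hw0, hw1, hw⟩ := M.star2 (p := j) (q := -3 * j)
        (by intro h; apply nz 4 (by omega) (by omega); push_cast; linear_combination h)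
        (by rw [hyN]; ring)
      obtain ⟨w', hw0', hw1', hw'⟩ := M.star21 (p := c) (q := -3 * j) (r := y)
        (by intro h; apply nz 2 (by omega) (by omega); rw [hcN] at h; push_cast
            linear_combination h)
        hcy
        (by intro h; apply nz 1 (by omega) (by omega); rw [hyN] at h; push_cast
            linear_combination -h)
        (M.star1 hP.pos)
        (by rw [hyN, hcN]; ring)
      rw [ip_not hC] at hw1
      rw [ip_not hcC] at hw1' hr4
      rw [M.ae hP.pos] at hw'
      have hd := dvd_sub hw' hw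
      unfold bb at hJ
      rw [ip_not hcC] at hJ
      have := ip_le C (-3 * j)
      have hz := lift_zero hQ hd (by linarith) (by linarith [M.X_ge c, hst.1])
      linarith
  · -- N = 1
    simp only [Nat.cast_one] at hcN hyN hC hr4 hnc
    have h1 := (fwd 1 (by omega) (by omega) (Or.inl le_rfl)).1
    simp only [Nat.cast_one, one_mul] at h1
    have hb := M.reg hP hP7 hQ (c := c) (u := -j) (v := 0) (by rw [hc]; ring)
      (by intro h; apply nz 1 (by omega) (by omega); rw [hcN] at h; push_cast
          linear_combination h)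
      hc0.symm (by simpa using hj0)
      (by intro _; simp only [neg_zero]; exact ⟨hc0.symm, by simpa using hj0⟩)
    rw [M.tt_zero] at hb
    have hl := M.LT hP hP7 hQ (p := (1 + 1) * j) (q := -j) (r := -4 * j)
      (by intro h; apply nz 3 (by omega) (by omega); push_cast; linear_combination h)
      (by intro h; apply nz 6 (by omega) (by omega); push_cast; linear_combination h)
      (by intro h; apply nz 3 (by omega) (by omega); push_cast; linear_combination h)
      (by rw [hyN]; ring)
    have hu := M.UT hP hP7 hQ (p := j) (q := -4 * j) (r := 0)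
      (by intro h; apply nz 5 (by omega) (by omega); push_cast; linear_combination h)
      hj0
      (by intro h; apply nz 4 (by omega) (by omega); push_cast; linear_combination -h)
      (by rw [hyN]; ring)
    rw [M.bb_zero] at hu
    unfold bb at hb hu h1 hJ
    linarith [ip_le C (-j), ip_le C (-4 * j)]

end

end Pool.Agent.P.MP_10af71_co
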