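import Pool.Agent.P.MP_10af71_co.Key2

namespace Pool.Agent.P.MP_10af71_co

open Finset

section
variable {P Q : ℕ} {a X : ZMod P → ℤ} {C : Finset (ZMod P)} {y : ℤ}

lemma ip_neg (C : Finset (ZMod P)) (c : ZMod P) :
    ip (C.image (fun x => -x)) c = ip C (-c) := by
  unfold ip
  have : c ∈ C.image (fun x => -x) ↔ -c ∈ C := by
    simp only [mem_image]
    constructor
    · rintro ⟨x, hx, rfl⟩; simpa using hx
    · intro h; exact ⟨-c, h, by simp⟩
  simp only [this]

lemma Model.mirror (M : Model P Q a X C y) :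
    Model P Q (fun c => P - bb a C (-c)) (fun c => P - X (-c)) (C.image (fun x => -x))
      (P - y) := by
  have hmem : ∀ c : ZMod P, c ∈ C.image (fun x => -x) ↔ -c ∈ C := by
    intro c
    simp only [mem_image]
    constructor
    · rintro ⟨x, hx, rfl⟩; simpa using hx
    · intro h; exact ⟨-c, h, by simp⟩
  have hcast : (((P : ℤ) - y : ℤ) : ZMod P) = -y := by push_cast; simp
  refine ⟨?_, ?_, ?_, ?_, ?_, ?_, ?_, ?_, ?_, ?_⟩
  · intro c; push_cast; rw [M.bb_cast]; simp
  · simp [M.bb_zero]
  · rw [hmem]; simpa using M.C0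
  · linarith [M.ylt]
  · linarith [M.ypos]
  · intro S S' hd hs hsum
    have hinj : Function.Injective (fun x : ZMod P => -x) := neg_injective
    obtain ⟨w, hw0, hw1, hw⟩ := M.star (S.image (fun x => -x)) (S'.image (fun x => -x))
      ((disjoint_image hinj).2 hd)
      (by
        intro x hx
        obtain ⟨z, hz, rfl⟩ := mem_image.1 hx
        exact (hmem z).1 (hs hz))
      (by
        rw [sum_image hinj.injOn, sum_image hinj.injOn, sum_neg_distrib, sum_neg_distrib]
        rw [hcast] at hsum
        linear_combination -hsum)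
    rw [sum_image hinj.injOn, sum_image hinj.injOn] at hw1 hw
    refine ⟨∑ c ∈ S, ip C (-c) + ∑ _c ∈ S', (P : ℤ) - P - w, by linarith, ?_, ?_⟩
    · simp only [ip_neg]; linarith
    · have e1 : ∑ c ∈ S, ((P : ℤ) - bb a C (-c)) = ∑ c ∈ S, ip C (-c) - ∑ c ∈ S, a (-c) := by
        rw [← sum_sub_distrib]; apply sum_congr rfl; intro c _; unfold bb; ring
      have e2 : ∑ c ∈ S', ((P : ℤ) - ((P : ℤ) - bb a C (-c))) =
          ∑ _c ∈ S', (P : ℤ) - ∑ c ∈ S', ((P : ℤ) - a (-c)) := by
        rw [← sum_sub_distrib]; apply sum_congr rfl; intro c hc; unfold bb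
        rw [ip_mem ((hmem c).1 (hs hc))]; ring
      rw [e1, e2, ← dvd_neg]
      have key : ∀ A B D E y w P : ℤ, -(A - B + (D - E) - (P - y) - (A + D - P - w)) =
        B + E - y - w := by intros; ring
      rw [key]; exact hw
  · intro c
    simp only [hmem]
    unfold bb
    by_cases hc : -c ∈ C
    · left
      rcases M.hX (-c) with h | h
      · rw [h, ip_mem hc]; ring
      · exact absurd hc h.1
    · rcases M.hX (-c) with h | h
      · right; refine ⟨hc, ?_⟩; rw [h, ip_not hc]; ring
      · left; rw [h.2, ip_not hc]; ring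
  · intro c
    rw [hcast]
    have e : -(c + -y) = -c + y := by ring
    have := M.chain (-c)
    rw [← e] at this
    rcases this with h | h
    · right; linarith
    · left; linarith
  · rw [hcast, neg_neg, M.Xe]
  · rw [hcast, neg_neg, M.Xne]

lemma Model.lower (M : Model P Q a X C y) (hP : P.Prime) (hP7 : 7 ≤ P) (hQ : 7 ≤ Q)
    (c : ZMod P) : y - P < a c := by
  have := M.mirror.upper hP hP7 hQ (-c)
  simp only [bb, ip_neg, neg_neg] at this
  linarith

end

end Pool.Agent.P.MP_10af71_co
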