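import Pool.Agent.P.MP_10af71_co.Small

namespace Pool.Agent.P.MP_10af71_co

theorem search35_7 :
    search 35 (okk 35 []) 11 (2 ^ 7) (((2 ^ 35 - 1) <<< 1) ^^^ 2 ^ 7) [] = true := by
  decide +kernel

end Pool.Agent.P.MP_10af71_co
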