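import Pool.Agent.P.MP_10af71_co.Final

namespace Pool.Agent.P.MP_10af71_co

open Finset

/-- evaluate `x` before continuing -/
noncomputable def force {α : Type} (x : ℕ) (k : ℕ → α) : α :=
  Nat.rec (k 0) (fun m _ => k (Nat.succ m)) x

lemma force_eq {α : Type} (x : ℕ) (k : ℕ → α) : force x k = k x := by cases x <;> rfl

/-- update of the mask of forbidden residues -/
def upd (n F a : ℕ) : ℕ :=
  Nat.mod (Nat.lor (Nat.lor F (Nat.shiftRight F a)) (Nat.shiftLeft F (Nat.sub n a))) (Nat.pow 2 n)

/-- clear the `k` highest bits -/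
noncomputable def clearHigh (k : ℕ) : ℕ → ℕ :=
  Nat.rec (fun C => C) (fun _ ih C => force (Nat.mod C (Nat.pow 2 (Nat.log2 C))) ih) k

/-- loop over the bits of a number -/
noncomputable def loop (body : ℕ → Bool) (fuel : ℕ) : ℕ → Bool :=
  Nat.rec (fun L => Nat.beq L 0) (fun _ ih L => Bool.rec
    (force (Nat.log2 L) fun a => Bool.rec false (force (Nat.mod L (Nat.pow 2 a)) ih) (body a))
    true (Nat.beq L 0)) fuel

/-- exhaustive search -/
noncomputable def search (n : ℕ) (ok : List ℕ → Bool) (need : ℕ) : ℕ → ℕ → List ℕ → Bool :=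
  Nat.rec (fun _ _ B => ok B) (fun k ih F C B =>
    force (clearHigh k C) (loop (fun a => force (upd n F a) fun F' =>
      force (Nat.shiftLeft (Nat.shiftRight C (Nat.succ a)) (Nat.succ a)) fun C2 =>
      force (Nat.xor C2 (Nat.land C2 F')) fun C' => ih F' C' (a :: B)) (Nat.succ n))) need

lemma upd_eq (n F a : ℕ) : upd n F a = (F ||| (F >>> a) ||| (F <<< (n - a))) % 2 ^ n := rfl

lemma upd_lt (n F a : ℕ) : upd n F a < 2 ^ n := Nat.mod_lt _ (Nat.two_pow_pos n)

lemma upd_testBit {n F a x : ℕ} (hF : F < 2 ^ n) (ha : a ≤ n) (hx : x < n)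
    (h : (upd n F a).testBit x = true) :
    F.testBit x = true ∨ F.testBit ((a + x) % n) = true := by
  rw [upd_eq, Nat.testBit_mod_two_pow, Nat.testBit_or, Nat.testBit_or, Nat.testBit_shiftRight,
    Nat.testBit_shiftLeft] at h
  simp only [Bool.and_eq_true, decide_eq_true_eq, Bool.or_eq_true] at h
  rcases h.2 with (h | h) | h
  · left; exact h
  · right
    have : a + x < n := by
      by_contra hc
      rw [Nat.testBit_lt_two_pow (hF.trans_le (Nat.pow_le_pow_right (by norm_num) (by omega)))] at h
      exact absurd h (by simp)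
    rwa [Nat.mod_eq_of_lt this]
  · right
    have : (a + x) % n = x - (n - a) := by
      rw [Nat.mod_eq_sub_mod (by omega), Nat.mod_eq_of_lt (by omega)]; omega
    rw [this]; exact h.2

lemma le_log2_of_testBit {C x : ℕ} (h : C.testBit x = true) : x ≤ C.log2 := by
  have h1 := Nat.ge_two_pow_of_testBit h
  have h0 : C ≠ 0 := by
    have : 0 < 2 ^ x := by positivity
    omega
  exact (Nat.le_log2 h0).2 h1

lemma clearHigh_testBit (a : ℕ) : ∀ (k C : ℕ) (R : Finset ℕ),
    (∀ x ∈ R, C.testBit x = true ∧ a < x) → C.testBit a = true → k ≤ R.card →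
    (clearHigh k C).testBit a = true := by
  intro k
  induction k with
  | zero => intro C R _ h _; exact h
  | succ k ih =>
    intro C R h1 h2 h3
    have e : clearHigh (k + 1) C = clearHigh k (C % 2 ^ C.log2) := force_eq _ _
    rw [e]
    obtain ⟨x, hx⟩ : R.Nonempty := card_pos.1 (by omega)
    have hlt : a < C.log2 := (h1 x hx).2.trans_le (le_log2_of_testBit (h1 x hx).1)
    apply ih _ (R.erase C.log2)
    · intro y hy
      have hy' := h1 y (mem_of_mem_erase hy)
      refine ⟨?_, hy'.2⟩
      rw [Nat.testBit_mod_two_pow, hy'.1]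
      have := le_log2_of_testBit hy'.1
      have := ne_of_mem_erase hy
      simp; omega
    · rw [Nat.testBit_mod_two_pow, h2]; simpa using hlt
    · have := pred_card_le_card_erase (s := R) (a := C.log2); omega

lemma loop_sound (body : ℕ → Bool) (a : ℕ) : ∀ (fuel L : ℕ), loop body fuel L = true →
    L.testBit a = true → body a = true := by
  intro fuel
  induction fuel with
  | zero =>
    intro L h1 h2
    have : L = 0 := Nat.eq_of_beq_eq_true h1
    subst this; simp at h2
  | succ f ih =>
    intro L h1 h2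
    have hL : L ≠ 0 := by rintro rfl; simp at h2
    have hb : Nat.beq L 0 = false := by
      cases h : Nat.beq L 0
      · rfl
      · exact absurd (Nat.eq_of_beq_eq_true h) hL
    have e : loop body (f + 1) L = Bool.rec (motive := fun _ => Bool)
      (force (Nat.log2 L) fun a => Bool.rec (motive := fun _ => Bool) false
        (force (Nat.mod L (Nat.pow 2 a)) (loop body f)) (body a)) true (Nat.beq L 0) := rfl
    rw [e, hb] at h1
    simp only [force_eq] at h1
    cases hb2 : body L.log2
    · rw [hb2] at h1; exact absurd h1 (by simp)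
    · rw [hb2] at h1
      by_cases ha : a = L.log2
      · rw [ha, hb2]
      · apply ih _ h1
        change (L % 2 ^ L.log2).testBit a = true
        rw [Nat.testBit_mod_two_pow, h2]
        have := le_log2_of_testBit h2
        simp; omega

lemma search_sound (n : ℕ) (hn : 0 < n) (ok : List ℕ → Bool) (Good : Finset ℕ → Prop)
    (hok : ∀ B : List ℕ, B.Nodup → ok B = true → Good B.toFinset) :
    ∀ (need F C : ℕ) (B : List ℕ) (R : Finset ℕ),
    search n ok need F C B = true → F < 2 ^ n → (∀ x ∈ R, C.testBit x = true ∧ x ≤ n) →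
    R.card = need → (∀ R' ⊆ R, F.testBit ((∑ x ∈ R', x) % n) = false) → B.Nodup →
    (∀ x ∈ R, x ∉ B) → Good (R ∪ B.toFinset) := by
  intro need
  induction need with
  | zero =>
    intro F C B R h _ _ hl _ hB _
    obtain rfl : R = ∅ := card_eq_zero.1 hl
    simpa using hok B hB h
  | succ k ih =>
    intro F C B R h hF hc hl hR hB hRB
    have hne : R.Nonempty := card_pos.1 (by omega)
    obtain ⟨a, ha, hmin⟩ : ∃ a ∈ R, ∀ x ∈ R, a ≤ x := ⟨R.min' hne, min'_mem _ _, fun x hx => min'_le _ _ hx⟩
    have hlt : ∀ x ∈ R.erase a, a < x := fun x hx =>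
      lt_of_le_of_ne (hmin x (mem_of_mem_erase hx)) (ne_of_mem_erase hx).symm
    have e : search n ok (k + 1) F C B = force (clearHigh k C) (loop (fun a =>
      force (upd n F a) fun F' =>
      force (Nat.shiftLeft (Nat.shiftRight C (Nat.succ a)) (Nat.succ a)) fun C2 =>
      force (Nat.xor C2 (Nat.land C2 F')) fun C' => search n ok k F' C' (a :: B))
        (Nat.succ n)) := rfl
    rw [e, force_eq] at h
    have h1 := loop_sound _ a _ _ h (clearHigh_testBit a k C (R.erase a)
      (fun x hx => ⟨(hc x (mem_of_mem_erase hx)).1, hlt x hx⟩) (hc a ha).1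
      (by rw [card_erase_of_mem ha]; omega))
    simp only [force_eq] at h1
    have key : ∀ R' ⊆ R.erase a, (upd n F a).testBit ((∑ x ∈ R', x) % n) = false := by
      intro R' hR'
      by_contra hcon
      rcases upd_testBit hF (hc a ha).2 (Nat.mod_lt _ hn) (by simpa using hcon) with k | k
      · rw [hR R' (hR'.trans (erase_subset _ _))] at k; simp at k
      · have haR : a ∉ R' := fun h => notMem_erase a R (hR' h)
        have := hR (insert a R') (insert_subset ha (hR'.trans (erase_subset _ _)))
        rw [sum_insert haR] at this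
        rw [Nat.add_mod_mod, this] at k; simp at k
    have := ih _ _ (a :: B) (R.erase a) h1 (upd_lt _ _ _) ?_
      (by rw [card_erase_of_mem ha]; omega) key (List.nodup_cons.2 ⟨hRB a ha, hB⟩) ?_
    · convert this using 1
      ext x
      simp only [mem_union, List.mem_toFinset, mem_erase, List.toFinset_cons, mem_insert]
      by_cases hx : x = a
      · simp [hx, ha]
      · simp [hx]
    · intro x hx
      have hx' := hc x (mem_of_mem_erase hx)
      refine ⟨?_, hx'.2⟩
      have hb : (upd n F a).testBit x = false := by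
        rcases hx'.2.lt_or_eq with h | h
        · have := key {x} (by simpa using hx)
          rwa [sum_singleton, Nat.mod_eq_of_lt h] at this
        · rw [h]; exact Nat.testBit_lt_two_pow (upd_lt _ _ _)
      change ((((C >>> (a + 1)) <<< (a + 1))) ^^^ (((C >>> (a + 1)) <<< (a + 1)) &&&
        upd n F a)).testBit x = true
      have hax := hlt x hx
      rw [Nat.testBit_xor, Nat.testBit_and, hb, Nat.testBit_shiftLeft, Nat.testBit_shiftRight,
        Nat.add_sub_cancel' (by omega), hx'.1]
      simpa using hax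
    · intro x hx
      simp only [List.mem_cons, not_or]
      exact ⟨ne_of_mem_erase hx, hRB x (mem_of_mem_erase hx)⟩

/-- the leaf test -/
def okk (n : ℕ) (E : List ℕ) (B : List ℕ) : Bool :=
  (List.range n).any (fun b => Nat.gcd b n == 1 &&
    (Nat.ble ((B.map (fun x => min (b * x % n) (n - b * x % n))).sum + 2) n ||
      B.all (fun x => E.any (fun y => b * y % n == x % n))))

/-- the conclusion of the classification -/
def Concl (n : ℕ) (E : List ℕ) (A : Finset (ZMod n)) : Prop :=
  ∃ b : (ZMod n)ˣ, ∑ x ∈ A, ((b : ZMod n) * x).valMinAbs.natAbs + 2 ≤ n ∨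
    ∀ x ∈ A, ∃ y ∈ E, (b : ZMod n) * y = x

lemma concl_of_search {n : ℕ} [NeZero n] (E : List ℕ) {K g : ℕ} (hg : g < n)
    (h : search n (okk n E) K (2 ^ g) (((2 ^ n - 1) <<< 1) ^^^ 2 ^ g) [] = true) {A : Finset (ZMod n)}
    (hA : A.card = K) (hgA : (g : ZMod n) ∉ A.subsetSum) : Concl n E A := by
  have hn : 0 < n := by omega
  set f : ZMod n → ℕ := fun x => (x - 1).val + 1 with hf
  have hcast : ∀ x, ((f x : ℕ) : ZMod n) = x := by intro x; simp [hf]
  have hinj : Function.Injective f := fun x y h => by rw [← hcast x, h, hcast]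
  have := search_sound n hn (okk n E)
    (fun T => ∃ b : ℕ, Nat.gcd b n = 1 ∧
      ((∑ x ∈ T, min (b * x % n) (n - b * x % n)) + 2 ≤ n ∨
        ∀ x ∈ T, ∃ y ∈ E, b * y % n = x % n)) ?_ K (2 ^ g) _ [] (A.image f) h
    (Nat.pow_lt_pow_right (by norm_num) hg) ?_ (by rw [card_image_of_injective _ hinj, hA]) ?_
    List.nodup_nil (by simp)
  · simp only [List.toFinset_nil, union_empty] at this
    obtain ⟨b, hb, h2⟩ := this
    refine ⟨ZMod.unitOfCoprime b hb, ?_⟩
    rw [ZMod.coe_unitOfCoprime]
    rcases h2 with h2 | h2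
    · left
      rw [sum_image hinj.injOn] at h2
      convert h2 using 3 with x
      rw [ZMod.valMinAbs_natAbs_eq_min]
      conv_lhs => rw [← hcast x, ← Nat.cast_mul, ZMod.val_natCast]
    · right
      intro x hx
      obtain ⟨y, hy, hy'⟩ := h2 _ (mem_image_of_mem f hx)
      refine ⟨y, hy, ?_⟩
      rw [← hcast x, ← Nat.cast_mul, ZMod.natCast_eq_natCast_iff']; exact hy'
  · intro B hB hok
    simp only [okk, List.any_eq_true, Bool.and_eq_true, beq_iff_eq,
      Bool.or_eq_true, Nat.ble_eq, List.all_eq_true] at hok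
    obtain ⟨b, -, hb, h2⟩ := hok
    refine ⟨b, hb, ?_⟩
    rw [List.sum_toFinset _ hB]
    simpa using h2
  · intro x hx
    obtain ⟨y, hy, rfl⟩ := mem_image.1 hx
    have := ZMod.val_lt (y - 1)
    refine ⟨?_, this⟩
    have hne : g ≠ f y := by
      intro h; apply hgA; rw [h, hcast]; exact subset_subsetSum hy
    rw [Nat.testBit_xor, Nat.testBit_shiftLeft, Nat.testBit_two_pow_sub_one,
      Nat.testBit_two_pow_of_ne hne]
    simpa [hf] using this
  · intro R' hR'
    by_contra hcon
    rw [Bool.not_eq_false, Nat.testBit_two_pow, decide_eq_true_eq] at hcon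
    apply hgA
    obtain ⟨A', hA', rfl⟩ := subset_image_iff.1 hR'
    refine mem_subsetSum_iff.2 ⟨A', hA', ?_⟩
    rw [hcon, sum_image hinj.injOn, ZMod.natCast_mod, Nat.cast_sum]
    simp only [hcast]

lemma concl_of_search' {n : ℕ} [NeZero n] (E D : List ℕ) {K : ℕ}
    (h : ∀ g ∈ D, g < n ∧ search n (okk n E) K (2 ^ g) (((2 ^ n - 1) <<< 1) ^^^ 2 ^ g) [] = true)
    (hD : (List.range n).all (fun g => g == 0 || (List.range n).any (fun u =>
      Nat.gcd u n == 1 && D.any (fun d => u * g % n == d))) = true)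
    {A : Finset (ZMod n)} (hA : A.card = K) {g : ZMod n} (hgA : g ∉ A.subsetSum) :
    Concl n E A := by
  simp only [List.all_eq_true, Bool.and_eq_true, Bool.or_eq_true, beq_iff_eq,
    List.any_eq_true, List.mem_range] at hD
  rcases hD g.val (ZMod.val_lt _) with h0 | ⟨u, -, hu, d, hd, hd'⟩
  · exfalso; apply hgA; rw [ZMod.val_eq_zero] at h0; rw [h0]; exact zero_mem_subsetSum
  have hunit : IsUnit (u : ZMod n) := (ZMod.isUnit_iff_coprime _ _).2 hu
  have e : (d : ZMod n) = u * g := by rw [← hd']; simp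
  obtain ⟨b, hb⟩ := concl_of_search E (h d hd).1 (h d hd).2 (A := A.image ((u : ZMod n) * ·))
    (by rw [card_image_of_injective _ hunit.mul_right_injective, hA])
    (by rw [e]; exact fun h => hgA (mem_subsetSum_of_image_mul hunit h))
  obtain ⟨v, hv⟩ := hunit
  rcases hb with hb | hb
  · refine ⟨b * v, Or.inl ?_⟩
    rw [← hv, sum_image (v.isUnit.mul_right_injective.injOn)] at hb
    simpa [mul_assoc] using hb
  · refine ⟨v⁻¹ * b, Or.inr fun x hx => ?_⟩
    obtain ⟨y, hy, hy'⟩ := hb _ (mem_image_of_mem _ hx)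
    refine ⟨y, hy, ?_⟩
    rw [Units.val_mul, mul_assoc, hy', ← hv]; simp

theorem small9 {A : Finset (ZMod 9)} (hA : A.card = 5) {g : ZMod 9} (hgA : g ∉ A.subsetSum) :
    Concl 9 [] A :=
  concl_of_search' [] [1, 3] (by decide +kernel) (by decide +kernel) hA hgA

theorem small15 {A : Finset (ZMod 15)} (hA : A.card = 7) {g : ZMod 15} (hgA : g ∉ A.subsetSum) :
    Concl 15 [0, 1, 4, 9, 10, 11, 14] A :=
  concl_of_search' _ [1, 3, 5] (by decide +kernel) (by decide +kernel) hA hgA

theorem small25 {A : Finset (ZMod 25)} (hA : A.card = 9) {g : ZMod 25} (hgA : g ∉ A.subsetSum) :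
    Concl 25 [] A :=
  concl_of_search' [] [1, 5] (by decide +kernel) (by decide +kernel) hA hgA

end Pool.Agent.P.MP_10af71_co
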