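import Pool.Agent.P.MP_10af71_co.Gain

set_option linter.unusedSectionVars false

namespace Pool.Agent.P.MP_10af71_co

open Finset Pointwise

section
variable {P Q : ℕ} [Fact P.Prime] [Fact Q.Prime]

lemma fibs_univ (A : Finset (ZMod (P * Q))) : fibs A univ = A := by
  ext x; simp [mem_fibs]

lemma assemble {A : Finset (ZMod (P * Q))} {g : ZMod (P * Q)} (hg : g ∉ A.subsetSum)
    {γ : ZMod P → ℕ} {τ : ZMod P → ZMod P} (h : ∀ c, Gain (fib A c) (γ c) (τ c))
    (hτ : ∑ c, τ c = ph P Q g) : ∑ c, γ c + 2 ≤ Q := by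
  by_contra hcon
  have := gain_fibs A univ γ τ (fun c _ => h c)
  rw [fibs_univ, hτ] at this
  exact hg (this.full (by omega))

lemma tight {A : Finset (ZMod (P * Q))} {g : ZMod (P * Q)} (hg : g ∉ A.subsetSum)
    {γ : ZMod P → ℕ} {τ : ZMod P → ZMod P} (h : ∀ c, Gain (fib A c) (γ c) (τ c))
    (hτ : ∑ c, τ c = ph P Q g) (hγ : Q ≤ ∑ c, γ c + 2) {c1 c2 : ZMod P} (hne : c1 ≠ c2)
    (g1 : γ c1 + 1 = (fib A c1).card) (g2 : γ c2 + 1 = (fib A c2).card) (t1 : τ c1 = c1)
    (t2 : τ c2 = c2) : (fib A c1 + fib A c2).card + 1 ≤ (fib A c1).card + (fib A c2).card := by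
  by_contra hcon
  have hd : Disjoint (fib A c1) (fib A c2) := by
    rw [disjoint_left]; intro x h1 h2; exact hne ((fib_ph x h1).symm.trans (fib_ph x h2))
  have p1 : Gain (fib A c1 ∪ fib A c2) (γ c1 + γ c2 + 1) (c1 + c2) := by
    refine ⟨fib A c1 + fib A c2, ?_, ?_, by omega⟩
    · intro x hx
      obtain ⟨x1, hx1, x2, hx2, rfl⟩ := mem_add.1 hx
      exact add_mem_subsetSum_union hd (subset_subsetSum hx1) (subset_subsetSum hx2)
    · intro x hx
      obtain ⟨x1, hx1, x2, hx2, rfl⟩ := mem_add.1 hx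
      rw [map_add, fib_ph x1 hx1, fib_ph x2 hx2]
  have p2 := gain_fibs A ((univ.erase c1).erase c2) γ τ (fun c _ => h c)
  have hd2 : Disjoint (fib A c1 ∪ fib A c2) (fibs A ((univ.erase c1).erase c2)) := by
    rw [disjoint_union_left]
    exact ⟨fibs_disj A (by simp), fibs_disj A (by simp)⟩
  have p3 := Gain.add hd2 p1 p2
  have hm : c2 ∈ univ.erase c1 := by simp [hne.symm]
  have s1 := add_sum_erase univ γ (mem_univ c1)
  have s2 := add_sum_erase _ γ hm
  have s3 := add_sum_erase univ τ (mem_univ c1)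
  have s4 := add_sum_erase _ τ hm
  have e : c1 + c2 + ∑ c ∈ (univ.erase c1).erase c2, τ c = ph P Q g := by
    rw [← hτ, ← s3, ← s4, t1, t2]; ring
  rw [e] at p3
  apply hg
  refine (p3.mono ?_ le_rfl).full (by omega)
  exact union_subset (union_subset (filter_subset _ _) (filter_subset _ _)) (fibs_subset _ _)

/-- the cost of raising the level in a coset with `l` elements -/
def cost (l : ℕ) : ℤ := if l = 1 then 0 else 3 - l

/-- direction still to be reached from the base state -/
def dir (A : Finset (ZMod (P * Q))) (g : ZMod (P * Q)) : ZMod P :=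
  ph P Q g - ∑ c, if 2 ≤ (fib A c).card then c else 0

/-- number of empty nonzero cosets -/
def emp (A : Finset (ZMod (P * Q))) : ℕ :=
  ((univ.erase (0 : ZMod P)).filter (fun c => (fib A c).card = 0)).card

lemma sum_fib (A : Finset (ZMod (P * Q))) :
    (fib A 0).card + ∑ c ∈ univ.erase 0, (fib A c).card = A.card := by
  rw [add_sum_erase univ (fun c => (fib A c).card) (mem_univ 0), ← card_fibs, fibs_univ]

lemma card_erase_zero : (univ.erase (0 : ZMod P)).card + 1 = P := by
  rw [card_erase_add_one (mem_univ _), card_univ, ZMod.card]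

lemma sum_pred (A : Finset (ZMod (P * Q))) :
    ∑ c ∈ univ.erase 0, ((fib A c).card - 1) + P + (fib A 0).card = A.card + emp A + 1 := by
  have h1 := sum_fib A
  have h2 := card_erase_zero (P := P)
  have h3 : ∑ c ∈ univ.erase (0 : ZMod P), ((fib A c).card - 1) + ∑ _c ∈ univ.erase (0 : ZMod P), 1
      = ∑ c ∈ univ.erase (0 : ZMod P), (fib A c).card + emp A := by
    unfold emp
    rw [card_filter, ← sum_add_distrib, ← sum_add_distrib]
    apply sum_congr rfl; intro c _; split_ifs <;> omega
  simp only [sum_const, smul_eq_mul, mul_one] at h3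
  omega

lemma config (hQ : 3 ≤ Q) (A : Finset (ZMod (P * Q))) (g : ZMod (P * Q)) {γ0 : ℕ}
    (h0 : Gain (fib A 0) γ0 0) (S S' : Finset (ZMod P)) (hd : Disjoint S S')
    (hS : ∀ c ∈ S, c ≠ 0 ∧ 1 ≤ (fib A c).card) (hS' : ∀ c ∈ S', c ≠ 0 ∧ (fib A c).card = 2)
    (hsum : ∑ c ∈ S, c - ∑ c ∈ S', c = dir A g) :
    ∃ (γ : ZMod P → ℕ) (τ : ZMod P → ZMod P), (∀ c, Gain (fib A c) (γ c) (τ c)) ∧
      ∑ c, τ c = ph P Q g ∧ γ 0 = γ0 ∧ τ 0 = 0 ∧
      (∀ c, c ≠ 0 → c ∉ S → c ∉ S' → 2 ≤ (fib A c).card → γ c + 1 = (fib A c).card ∧ τ c = c) ∧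
      ((∑ c, γ c : ℕ) : ℤ) + ∑ c ∈ S, cost (fib A c).card + S'.card + P + (fib A 0).card =
        γ0 + A.card + emp A + 1 := by
  refine ⟨fun c => if c = 0 then γ0 else if c ∈ S then
      (if (fib A c).card = 1 then 0 else 2 * (fib A c).card - 4) else if c ∈ S' then 0
      else (fib A c).card - 1,
    fun c => (if 2 ≤ (fib A c).card then c else 0) + (if c ∈ S then c else 0) -
      (if c ∈ S' then c else 0), ?_, ?_, by simp, by simp, ?_, ?_⟩
  · intro c
    by_cases hc : c = 0
    · subst hc; simpa using h0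
    simp only [if_neg hc]
    by_cases h1 : c ∈ S
    · have h2 : c ∉ S' := disjoint_left.1 hd h1
      have h3 := (hS c h1).2
      simp only [if_pos h1, if_neg h2, sub_zero]
      by_cases h4 : (fib A c).card = 1
      · rw [if_pos h4, if_neg (by omega), zero_add]
        exact gain_one fib_ph (by omega)
      · rw [if_neg h4, if_pos (by omega)]
        exact gain_two hQ fib_ph (by omega)
    · simp only [if_neg h1, add_zero]
      by_cases h2 : c ∈ S'
      · simp only [if_pos h2]
        rw [if_pos (hS' c h2).2.ge, sub_self]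
        exact gain_zero _
      · simp only [if_neg h2, sub_zero]
        split_ifs with h3
        · exact gain_one fib_ph (by omega)
        · have : (fib A c).card - 1 = 0 := by omega
          rw [this]; exact gain_zero _
  · rw [sum_sub_distrib, sum_add_distrib, sum_ite_mem, sum_ite_mem, univ_inter, univ_inter]
    unfold dir at hsum
    linear_combination hsum
  · intro c h1 h2 h3 h4
    simp only [if_neg h1, if_neg h2, if_neg h3, if_pos h4, add_zero, sub_zero, and_true]
    omega
  · have hp := sum_pred A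
    rw [← add_sum_erase univ _ (mem_univ (0 : ZMod P))]
    have hS0 : S ⊆ univ.erase 0 := fun c hc => by simp [(hS c hc).1]
    have hS0' : S' ⊆ univ.erase 0 := fun c hc => by simp [(hS' c hc).1]
    have e1 : ∑ c ∈ S, cost (fib A c).card =
        ∑ c ∈ univ.erase (0 : ZMod P), if c ∈ S then cost (fib A c).card else 0 := by
      rw [sum_ite_mem, inter_eq_right.2 hS0]
    have e2 : (S'.card : ℤ) = ∑ c ∈ univ.erase (0 : ZMod P), if c ∈ S' then (1 : ℤ) else 0 := by
      rw [sum_ite_mem, inter_eq_right.2 hS0']; simp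
    have e3 : ((∑ c ∈ univ.erase (0 : ZMod P), (if c = 0 then γ0 else if c ∈ S then
        (if (fib A c).card = 1 then 0 else 2 * (fib A c).card - 4) else if c ∈ S' then 0
        else (fib A c).card - 1) : ℕ) : ℤ) + ∑ c ∈ S, cost (fib A c).card + S'.card =
        ((∑ c ∈ univ.erase (0 : ZMod P), ((fib A c).card - 1) : ℕ) : ℤ) := by
      rw [e1, e2, Nat.cast_sum, Nat.cast_sum, ← sum_add_distrib, ← sum_add_distrib]
      apply sum_congr rfl; intro c hc
      rw [if_neg (ne_of_mem_erase hc)]
      by_cases h1 : c ∈ S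
      · have h2 : c ∉ S' := disjoint_left.1 hd h1
        have h3 := (hS c h1).2
        simp only [if_pos h1, if_neg h2, cost]
        split_ifs <;> omega
      · by_cases h2 : c ∈ S'
        · have h3 := (hS' c h2).2
          simp only [if_neg h1, if_pos h2, h3]; norm_num
        · simp only [if_neg h1, if_neg h2]; ring
    simp only [if_true]
    push_cast at e3 ⊢
    have hp' : ((∑ c ∈ univ.erase 0, ((fib A c).card - 1) + P + (fib A 0).card : ℕ) : ℤ) =
      ((A.card + emp A + 1 : ℕ) : ℤ) := by rw [hp]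
    push_cast at hp'
    linarith

lemma move (hQ : 3 ≤ Q) {A : Finset (ZMod (P * Q))} (hA : A.card + 1 = P + Q) {g : ZMod (P * Q)}
    (hg : g ∉ A.subsetSum) {γ0 : ℕ}
    (h0 : Gain (fib A 0) γ0 0) (S S' : Finset (ZMod P)) (hd : Disjoint S S')
    (hS : ∀ c ∈ S, c ≠ 0 ∧ 1 ≤ (fib A c).card) (hS' : ∀ c ∈ S', c ≠ 0 ∧ (fib A c).card = 2)
    (hsum : ∑ c ∈ S, c - ∑ c ∈ S', c = dir A g) :
    (γ0 : ℤ) + emp A + 2 ≤ (fib A 0).card + ∑ c ∈ S, cost (fib A c).card + S'.card := by
  obtain ⟨γ, τ, h1, h2, -, -, -, h3⟩ := config hQ A g h0 S S' hd hS hS' hsum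
  have h4 := assemble hg h1 h2
  have h4' : ((∑ c, γ c : ℕ) : ℤ) + 2 ≤ Q := by exact_mod_cast h4
  have hA' : (A.card : ℤ) + 1 = P + Q := by exact_mod_cast hA
  linarith

lemma cost_le {l : ℕ} (h : 1 ≤ l) : cost l ≤ 1 := by unfold cost; split_ifs <;> omega
lemma cost_le0 {l : ℕ} (h : 1 ≤ l) (h2 : l ≠ 2) : cost l ≤ 0 := by unfold cost; split_ifs <;> omega
lemma cost_big {l : ℕ} (h : 4 ≤ l) : cost l ≤ -1 := by unfold cost; split_ifs <;> omega

/-- the shape of the part of `A` in the subgroup -/
def H0 (A : Finset (ZMod (P * Q))) : Prop :=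
  0 ∈ A ∧ ∀ a ∈ fib A 0, ∀ b ∈ fib A 0, a ≠ 0 → b ≠ 0 → a = b ∨ a = -b

lemma H0.card_le {A : Finset (ZMod (P * Q))} (h : H0 A) : (fib A 0).card ≤ 3 := by
  by_cases h1 : ∃ a ∈ fib A 0, a ≠ 0
  · obtain ⟨a, ha, ha0⟩ := h1
    have : fib A 0 ⊆ {0, a, -a} := by
      intro x hx
      by_cases hx0 : x = 0
      · simp [hx0]
      · rcases h.2 x hx a ha hx0 ha0 with h | h <;> simp [h]
    exact (card_le_card this).trans card_le_three
  · push Not at h1
    have : fib A 0 ⊆ {0} := fun x hx => by simp [h1 x hx]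
    exact (card_le_card this).trans (by simp)

lemma gain0 (A : Finset (ZMod (P * Q))) :
    Gain (fib A 0) (fib A 0).card 0 ∨ H0 A := by
  by_cases h0 : 0 ∈ A
  · by_cases h : ∀ a ∈ fib A 0, ∀ b ∈ fib A 0, a ≠ 0 → b ≠ 0 → a = b ∨ a = -b
    · right; exact ⟨h0, h⟩
    · left
      push Not at h
      obtain ⟨a, ha, b, hb, ha0, hb0, h1, h2⟩ := h
      have := gain_sub' (B := (fib A 0).erase 0) (fun x hx => fib_ph x (mem_of_mem_erase hx))
        (notMem_erase _ _) (mem_erase.2 ⟨ha0, ha⟩) (mem_erase.2 ⟨hb0, hb⟩) h1 h2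
      rw [card_erase_add_one (mem_fib.2 ⟨h0, map_zero _⟩)] at this
      exact this.mono (erase_subset _ _) le_rfl
  · left
    exact gain_sub fib_ph (fun h => h0 (mem_fib.1 h).1)

theorem step1 (hP7 : 7 ≤ P) (hPQ : P ≤ Q) {A : Finset (ZMod (P * Q))} (hA : A.card + 1 = P + Q)
    {g : ZMod (P * Q)} (hg : g ∉ A.subsetSum) :
    H0 A ∧ ∀ c : ZMod P, c ≠ 0 → 1 ≤ (fib A c).card ∧ (fib A c).card ≤ 3 := by
  have hQ : 3 ≤ Q := by omega
  obtain ⟨γ0, h0, hγ⟩ : ∃ γ0, Gain (fib A 0) γ0 0 ∧
      (γ0 = (fib A 0).card ∨ (γ0 + 1 = (fib A 0).card ∧ H0 A)) := by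
    rcases gain0 A with h | h
    · exact ⟨_, h, Or.inl rfl⟩
    · have : 1 ≤ (fib A 0).card := card_pos.2 ⟨0, mem_fib.2 ⟨h.1, map_zero _⟩⟩
      exact ⟨(fib A 0).card - 1, gain_one fib_ph (by omega), Or.inr ⟨by omega, h⟩⟩
  have mv := move hQ hA hg h0
  obtain ⟨e, he⟩ : ∃ e, e = dir A g := ⟨_, rfl⟩
  rw [← he] at mv
  have hγ' : (fib A 0).card ≤ γ0 + 1 := by omega
  have nz : ∀ k : ℕ, 0 < k → k < P → ∀ x : ZMod P, x ≠ 0 → (k : ZMod P) * x ≠ 0 :=
    fun k h0 h1 x hx => mul_ne_zero (cast_ne_zero_of_lt h0 h1) hx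
  have he0 : e ≠ 0 := by
    intro h
    have := mv ∅ ∅ (by simp) (by simp) (by simp) (by simp [h])
    simp at this; omega
  have m1 : 1 ≤ (fib A e).card →
      (γ0 : ℤ) + emp A + 2 ≤ (fib A 0).card + cost (fib A e).card := by
    intro h
    simpa using mv {e} ∅ (by simp) (by intro c hc; rw [mem_singleton.1 hc]; exact ⟨he0, h⟩)
      (by simp) (by simp)
  have m2 : ∀ a b : ZMod P, a ≠ b → a ≠ 0 → b ≠ 0 → a + b = e → 1 ≤ (fib A a).card →
      1 ≤ (fib A b).card →
      (γ0 : ℤ) + emp A + 2 ≤ (fib A 0).card + (cost (fib A a).card + cost (fib A b).card) := by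
    intro a b h1 h2 h3 h4 h5 h6
    have := mv {a, b} ∅ (by simp) (by
      intro c hc
      rcases mem_insert.1 hc with rfl | hc
      · exact ⟨h2, h5⟩
      · rw [mem_singleton.1 hc]; exact ⟨h3, h6⟩) (by simp) (by simp [sum_pair h1, h4])
    simpa [sum_pair h1] using this
  by_cases hu : emp A = 0
  · have hne : ∀ c : ZMod P, c ≠ 0 → 1 ≤ (fib A c).card := by
      intro c hc
      by_contra h
      have : c ∈ (univ.erase (0 : ZMod P)).filter (fun c => (fib A c).card = 0) := by
        simp only [mem_filter, mem_erase, mem_univ, and_true]; exact ⟨hc, by omega⟩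
      unfold emp at hu
      rw [card_eq_zero.1 hu] at this
      simp at this
    have k1 := m1 (hne e he0)
    have k2 := cost_le (hne e he0)
    rcases hγ with hγ | hγ
    · omega
    refine ⟨hγ.2, fun z hz => ⟨hne z hz, ?_⟩⟩
    by_contra hbig
    have hb := cost_big (l := (fib A z).card) (by omega)
    by_cases h1 : e = z
    · rw [← h1] at hb; omega
    by_cases h2 : e = 2 * z
    · have hnz : -z ≠ 0 := neg_ne_zero.2 hz
      have hzz : z ≠ -z := by
        intro h; apply nz 2 (by omega) (by omega) z hz; push_cast; linear_combination h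
      by_cases h3 : (fib A (-z)).card = 2
      · have := mv {z} {-z} (by simpa using hzz) 
          (by intro c hc; rw [mem_singleton.1 hc]; exact ⟨hz, hne z hz⟩) (by simp [hz, h3])
          (by simp [h2, two_mul])
        simp at this; omega
      · have hze : z ≠ e := fun h => h1 h.symm
        have hze' : -z ≠ e := by
          intro h; apply nz 3 (by omega) (by omega) z hz; rw [h2] at h; push_cast
          linear_combination -h
        have hm : z ∉ ({-z, e} : Finset (ZMod P)) := by simp [hzz, hze]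
        have := mv {z, -z, e} ∅ (by simp) (by
          intro c hc
          simp only [mem_insert, mem_singleton] at hc
          rcases hc with rfl | rfl | rfl
          · exact ⟨hz, hne _ hz⟩
          · exact ⟨hnz, hne _ hnz⟩
          · exact ⟨he0, hne _ he0⟩) (by simp) (by simp [sum_insert hm, sum_pair hze'])
        rw [sum_insert hm, sum_pair hze'] at this
        have k3 := cost_le0 (hne _ hnz) h3
        simp at this; omega
    · have h3 : e - z ≠ 0 := sub_ne_zero.2 h1
      have := m2 z (e - z) (by intro h; apply h2; linear_combination -h) hz h3 (by ring)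
        (hne _ hz) (hne _ h3)
      have k3 := cost_le (hne _ h3)
      omega
  exfalso
  have hee : (fib A e).card = 0 := by
    by_contra h
    have k1 := m1 (by omega)
    have k2 := cost_le (l := (fib A e).card) (by omega)
    omega
  have hne2 : (fib A (-e)).card ≠ 2 := by
    intro h
    have := mv ∅ {-e} (by simp) (by simp) (by simp [he0, h]) (by simp)
    simp at this; omega
  have heE : e ∈ (univ.erase (0 : ZMod P)).filter (fun c => (fib A c).card = 0) := by
    simp only [mem_filter, mem_erase, mem_univ, and_true]; exact ⟨he0, hee⟩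
  by_cases hu1 : emp A = 1
  · have hne : ∀ c : ZMod P, c ≠ 0 → c ≠ e → 1 ≤ (fib A c).card := by
      intro c hc hce
      by_contra h
      have : c ∈ (univ.erase (0 : ZMod P)).filter (fun c => (fib A c).card = 0) := by
        simp only [mem_filter, mem_erase, mem_univ, and_true]; exact ⟨hc, by omega⟩
      unfold emp at hu1
      exact hce (card_le_one.1 hu1.le _ this _ heE)
    have a1 : -e ≠ 0 := neg_ne_zero.2 he0
    have a2 : -e ≠ e := by
      intro h; apply nz 2 (by omega) (by omega) e he0; push_cast; linear_combination -h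
    have a3 : 2 * e ≠ 0 := by simpa using nz 2 (by omega) (by omega) e he0
    have a4 : 2 * e ≠ e := by intro h; apply he0; linear_combination h
    have := m2 (-e) (2 * e) (by
      intro h; apply nz 3 (by omega) (by omega) e he0; push_cast; linear_combination -h) a1 a3
      (by ring) (hne _ a1 a2) (hne _ a3 a4)
    have k1 := cost_le0 (hne _ a1 a2) hne2
    have k2 := cost_le (hne _ a3 a4)
    omega
  -- many empty cosets
  set NE := (univ.erase (0 : ZMod P)).filter (fun c => ¬ (fib A c).card = 0) with hNE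
  have hs1 : emp A + NE.card + 1 = P := by
    unfold emp
    rw [hNE, card_filter_add_card_filter_not, card_erase_zero]
  have h2' : (2 : ZMod P) ≠ 0 := by simpa using cast_ne_zero_of_lt (P := P) (k := 2) (by omega) (by omega)
  have hs2 : NE.card ≤ emp A := by
    have : (NE.erase (e / 2)).card ≤
        (((univ.erase (0 : ZMod P)).filter (fun c => (fib A c).card = 0)).erase e).card := by
      apply card_le_card_of_injOn (fun a => e - a)
      · intro a ha
        simp only [hNE, coe_erase, coe_filter, mem_erase, mem_univ, and_true, Set.mem_sdiff,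
          Set.mem_ofPred_eq, Set.mem_singleton_iff] at ha ⊢
        obtain ⟨⟨ha0, ha1⟩, ha2⟩ := ha
        have hae : e - a ≠ 0 := by
          intro h; apply ha1; rw [← sub_eq_zero.1 h]; exact hee
        refine ⟨⟨hae, ?_⟩, by simpa using ha0⟩
        by_contra h
        have := m2 a (e - a) (by intro h; apply ha2; field_simp; linear_combination h) ha0 hae
          (by ring) (by omega) (by omega)
        have k1 := cost_le (l := (fib A a).card) (by omega)
        have k2 := cost_le (l := (fib A (e - a)).card) (by omega)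
        omega
      · intro a _ b _ h; simpa using h
    have h1 := pred_card_le_card_erase (s := NE) (a := e / 2)
    rw [card_erase_of_mem heE] at this
    unfold emp at hu ⊢
    omega
  have hN := sum_fib A
  have hl0 : (fib A 0).card ≤ Q := card_le_of_coset fib_ph
  set I3 := (univ.erase (0 : ZMod P)).filter (fun c => 3 ≤ (fib A c).card) with hI3
  set I2 := (univ.erase (0 : ZMod P)).filter (fun c => ¬ 3 ≤ (fib A c).card) with hI2
  have hsplit : ∑ c ∈ I3, (fib A c).card + ∑ c ∈ I2, (fib A c).card =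
      ∑ c ∈ univ.erase 0, (fib A c).card := sum_filter_add_sum_filter_not _ _ _
  have hI30 : (0 : ZMod P) ∉ I3 := by simp [hI3]
  have hI20 : (0 : ZMod P) ∉ I2 := by simp [hI2]
  have hI33 : ∀ c ∈ I3, 3 ≤ (fib A c).card := fun c hc => (mem_filter.1 hc).2
  have hcount : ∑ c ∈ I2, (fib A c).card + 2 * I3.card ≤ 2 * NE.card := by
    rw [hI2, hI3, hNE, sum_filter, card_filter, card_filter, mul_sum, mul_sum, ← sum_add_distrib]
    apply sum_le_sum; intro c _; split_ifs <;> omega
  have fin : ∀ v m : ℕ, Prof (fibs A I3) v m → Q ≤ γ0 + v + 1 →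
      P ≤ m + ∑ c ∈ I2, (fib A c).card + 1 → False := by
    intro v m hp h1 h2
    have hd : Disjoint (fibs A I3) (fibs A I2) := by
      rw [disjoint_left]; intro x k1 k2
      exact (mem_filter.1 (mem_fibs.1 k2).2).2 (mem_filter.1 (mem_fibs.1 k1).2).2
    have p1 := Prof.add hd hp (prof_fibs_movers A hI20)
    have hd2 : Disjoint (fib A 0) (fibs A I3 ∪ fibs A I2) := by
      rw [disjoint_union_right]; exact ⟨fibs_disj A hI30, fibs_disj A hI20⟩
    have p2 := Prof.add hd2 h0.prof p1
    have p3 := p2.mono (B' := A) (union_subset (filter_subset _ _)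
      (union_subset (fibs_subset _ _) (fibs_subset _ _))) le_rfl le_rfl
    exact hg (p3.full (by omega) (by omega) g)
  by_cases hbigγ : Q ≤ γ0 + 1
  · exact fin 0 _ (prof_fibs_movers A hI30) (by omega) (by omega)
  rcases hγ with hγ | hγ
  · exact fin (Q - 1 - γ0) (∑ c ∈ I3, (fib A c).card - (Q - γ0))
      (prof_fibs_loss hQ A I3 hI30 hI33 _ _ (by omega) (by omega)) (by omega) (by omega)
  · have h3 := hγ.2.card_le
    obtain ⟨z, hz, hz4⟩ : ∃ z ∈ I3, 4 ≤ (fib A z).card := by
      by_contra hcon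
      push Not at hcon
      have : ∑ c ∈ univ.erase 0, (fib A c).card ≤ 3 * NE.card := by
        rw [hNE, card_filter, mul_sum]
        apply sum_le_sum; intro c hc
        by_cases h : 3 ≤ (fib A c).card
        · have := hcon c (mem_filter.2 ⟨hc, h⟩)
          split_ifs <;> omega
        · split_ifs <;> omega
      omega
    have hz0 : z ≠ 0 := by rintro rfl; exact hI30 hz
    have s1 := add_sum_erase I3 (fun c => (fib A c).card) hz
    have s2 := card_erase_add_one hz
    have := prof_fibs_big hQ A hz0 hz4 (I3.erase z) (fun h => hI30 (mem_of_mem_erase h))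
      (notMem_erase _ _) (fun c hc => hI33 c (mem_of_mem_erase hc)) (Q - 1 - γ0)
      (∑ c ∈ I3, (fib A c).card - (Q - 1 - γ0)) (by omega) (by omega) (by omega)
    rw [insert_erase hz] at this
    exact fin _ _ this (by omega) (by omega)

end

end Pool.Agent.P.MP_10af71_co
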