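import Pool.Agent.P.MP_10af71_co.Step1
import Pool.Agent.P.MP_10af71_co.Final

set_option linter.unusedSectionVars false

namespace Pool.Agent.P.MP_10af71_co

open Finset Pointwise

lemma succ_or {G : Type*} [AddCommGroup G] [DecidableEq G] {B : Finset G} {z δ : G}
    (h : (B + {z, z + δ}).card ≤ B.card + 1) {x y : G} (hx : x ∈ B) (hy : y ∈ B) (hxy : x ≠ y) :
    x + δ ∈ B ∨ y + δ ∈ B := by
  by_contra hcon
  push Not at hcon
  have hsub : (insert (x + δ) (insert (y + δ) B)).image (· + z) ⊆ B + {z, z + δ} := by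
    intro w hw
    obtain ⟨v, hv, rfl⟩ := mem_image.1 hw
    simp only [mem_insert] at hv
    rcases hv with rfl | rfl | hv
    · exact mem_add.2 ⟨x, hx, z + δ, by simp, by abel⟩
    · exact mem_add.2 ⟨y, hy, z + δ, by simp, by abel⟩
    · exact mem_add.2 ⟨v, hv, z, by simp, rfl⟩
  have := card_le_card hsub
  rw [card_image_of_injective _ (add_left_injective z),
    card_insert_of_notMem (by simp [hxy, hcon.1]), card_insert_of_notMem hcon.2] at this
  omega

lemma ap_two {G : Type*} [AddCommGroup G] [DecidableEq G] {B : Finset G} {z δ : G} (h1 : δ ≠ 0)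
    (h : (B + {z, z + δ}).card ≤ B.card + 1) (hB : B.card = 2) : ∃ a, B = {a - δ, a} := by
  obtain ⟨x, y, hxy, rfl⟩ := card_eq_two.1 hB
  rcases succ_or h (x := x) (y := y) (by simp) (by simp) hxy with h' | h'
  · simp only [mem_insert, mem_singleton, add_eq_left, h1, false_or] at h'
    exact ⟨y, by rw [← h']; simp⟩
  · simp only [mem_insert, mem_singleton, add_eq_left, h1, or_false] at h'
    exact ⟨x, by rw [← h', pair_comm]; simp⟩

lemma ap_three_aux {G : Type*} [AddCommGroup G] [DecidableEq G] {δ x y w : G} (h1 : δ ≠ 0)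
    (h2 : δ + δ ≠ 0) (hxy : x ≠ y) (hx : x + δ ∈ ({x, y, w} : Finset G))
    (hy : y + δ ∈ ({x, y, w} : Finset G)) : ∃ a, ({x, y, w} : Finset G) = {a - δ, a, a + δ} := by
  simp only [mem_insert, mem_singleton, add_eq_left, h1, false_or] at hx hy
  rcases hx with hx | hx <;> rcases hy with hy | hy
  · exfalso; apply h2; rw [← hx, add_assoc, add_eq_left] at hy; exact hy
  · exact ⟨y, by rw [← hy, ← hx]; simp⟩
  · exact ⟨x, by rw [← hx, ← hy, Finset.insert_comm]; simp⟩
  · exfalso; apply hxy; exact add_right_cancel (hx.trans hy.symm)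

lemma ap_three {G : Type*} [AddCommGroup G] [DecidableEq G] {B : Finset G} {z δ : G} (h1 : δ ≠ 0)
    (h2 : δ + δ ≠ 0) (h : (B + {z, z + δ}).card ≤ B.card + 1) (hB : B.card = 3) :
    ∃ a, B = {a - δ, a, a + δ} := by
  obtain ⟨x, y, w, hxy, hxw, hyw, rfl⟩ := card_eq_three.1 hB
  have k1 := succ_or h (x := x) (y := y) (by simp) (by simp) hxy
  have k2 := succ_or h (x := x) (y := w) (by simp) (by simp) hxw
  have k3 := succ_or h (x := y) (y := w) (by simp) (by simp) hyw
  have e1 : ({x, y, w} : Finset G) = {x, w, y} := by rw [pair_comm]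
  have e2 : ({x, y, w} : Finset G) = {y, w, x} := by
    ext t; simp only [mem_insert, mem_singleton]; tauto
  by_cases a : x + δ ∈ ({x, y, w} : Finset G)
  · rcases k3 with b | b
    · exact ap_three_aux h1 h2 hxy a b
    · rw [e1] at a b ⊢; exact ap_three_aux h1 h2 hxw a b
  · have b := k1.resolve_left a
    have c := k2.resolve_left a
    rw [e2] at b c ⊢; exact ap_three_aux h1 h2 hyw b c

section
variable {P Q : ℕ} [Fact P.Prime] [Fact Q.Prime]

lemma exists_mul_delta {δ x : ZMod (P * Q)} (h0 : δ ≠ 0) (hδ : ph P Q δ = 0)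
    (hx : ph P Q x = 0) : ∃ m : ℕ, m < Q ∧ x = m * δ := by
  obtain ⟨d, rfl⟩ := exists_io hδ
  obtain ⟨a, rfl⟩ := exists_io hx
  have hd : d ≠ 0 := by rintro rfl; simp at h0
  refine ⟨(a / d).val, ZMod.val_lt _, ?_⟩
  rw [← nsmul_eq_mul, ← map_nsmul, nsmul_eq_mul, ZMod.natCast_zmod_val, div_mul_cancel₀ _ hd]

lemma mul_delta_eq_zero {δ : ZMod (P * Q)} (hδ : ph P Q δ = 0) : (Q : ZMod (P * Q)) * δ = 0 := by
  obtain ⟨d, rfl⟩ := exists_io hδ
  rw [← nsmul_eq_mul, ← map_nsmul, nsmul_eq_mul, ZMod.natCast_self, zero_mul, map_zero]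

lemma mul_delta_ne_zero {δ : ZMod (P * Q)} (h0 : δ ≠ 0) (hδ : ph P Q δ = 0) {k : ℕ} (hk : 0 < k)
    (hk' : k < Q) : (k : ZMod (P * Q)) * δ ≠ 0 := by
  obtain ⟨d, rfl⟩ := exists_io hδ
  have hd : d ≠ 0 := by rintro rfl; simp at h0
  rw [← nsmul_eq_mul, ← map_nsmul, nsmul_eq_mul]
  intro h
  have := io_inj (Fact.out : P.Prime).pos (h.trans (map_zero _).symm)
  exact mul_ne_zero (cast_ne_zero_of_lt hk hk') hd this

theorem step2 (hP7 : 7 ≤ P) (hPQ : P ≤ Q) {A : Finset (ZMod (P * Q))} (hA : A.card + 1 = P + Q)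
    {g : ZMod (P * Q)} (hg : g ∉ A.subsetSum) :
    ∃ δ : ZMod (P * Q), δ ≠ 0 ∧ ph P Q δ = 0 ∧
      (fib A 0 = {0} ∨ fib A 0 = {-δ, 0} ∨ fib A 0 = {0, δ} ∨ fib A 0 = {-δ, 0, δ}) ∧
      ∀ c : ZMod P, c ≠ 0 → ∃ a, ((fib A c).card = 1 ∧ fib A c = {a}) ∨
        ((fib A c).card = 2 ∧ fib A c = {a - δ, a}) ∨
        ((fib A c).card = 3 ∧ fib A c = {a - δ, a, a + δ}) := by
  have hQ : 3 ≤ Q := by omega
  obtain ⟨hH, hl⟩ := step1 hP7 hPQ hA hg
  have h00 : (0 : ZMod (P * Q)) ∈ fib A 0 := mem_fib.2 ⟨hH.1, map_zero _⟩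
  have hl0 : 1 ≤ (fib A 0).card := card_pos.2 ⟨0, h00⟩
  have h0 : Gain (fib A 0) ((fib A 0).card - 1) 0 := gain_one fib_ph (by omega)
  have hemp : emp A = 0 := by
    unfold emp
    rw [card_eq_zero, filter_eq_empty_iff]
    intro c hc
    have := (hl c (ne_of_mem_erase hc)).1
    omega
  have mv := move hQ hA hg h0
  have cf := config hQ A g h0
  obtain ⟨e, he⟩ : ∃ e, e = dir A g := ⟨_, rfl⟩
  rw [← he, hemp] at mv cf
  have nz : ∀ k : ℕ, 0 < k → k < P → ∀ x : ZMod P, x ≠ 0 → (k : ZMod P) * x ≠ 0 :=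
    fun k h0 h1 x hx => mul_ne_zero (cast_ne_zero_of_lt h0 h1) hx
  have he0 : e ≠ 0 := by
    intro h
    have := mv ∅ ∅ (by simp) (by simp) (by simp) (by simp [h])
    simp at this; omega
  have hcost : ∀ c : ZMod P, c ≠ 0 → (fib A c).card ≠ 2 → cost (fib A c).card = 0 := by
    intro c hc h
    have := hl c hc
    unfold cost; split_ifs <;> omega
  have hcost2 : cost 2 = 1 := by simp [cost]
  have pairS : ∀ a b : ZMod P, a ≠ 0 → b ≠ 0 →
      ∀ c ∈ ({a, b} : Finset (ZMod P)), c ≠ 0 ∧ 1 ≤ (fib A c).card := by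
    intro a b ha hb c hc
    rcases mem_insert.1 hc with rfl | hc
    · exact ⟨ha, (hl _ ha).1⟩
    · rw [mem_singleton.1 hc]; exact ⟨hb, (hl _ hb).1⟩
  have oneS : ∀ c ∈ ({e} : Finset (ZMod P)), c ≠ 0 ∧ 1 ≤ (fib A c).card := by
    intro c hc; rw [mem_singleton.1 hc]; exact ⟨he0, (hl _ he0).1⟩
  have heC : (fib A e).card = 2 := by
    by_contra h
    have := mv {e} ∅ (by simp) oneS (by simp) (by simp)
    rw [sum_singleton, hcost e he0 h] at this
    simp at this; omega
  have m2 : ∀ a b : ZMod P, a ≠ b → a ≠ 0 → b ≠ 0 → a + b = e →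
      (fib A a).card = 2 ∨ (fib A b).card = 2 := by
    intro a b h1 h2 h3 h4
    by_contra hcon
    push Not at hcon
    have := mv {a, b} ∅ (by simp) (pairS a b h2 h3) (by simp) (by simp [sum_pair h1, h4])
    rw [sum_pair h1, hcost a h2 hcon.1, hcost b h3 hcon.2] at this
    simp at this; omega
  obtain ⟨c1, hc10, hc1, n1, n2, n3⟩ : ∃ c1 : ZMod P, c1 ≠ 0 ∧ (fib A c1).card = 2 ∧ c1 ≠ e ∧
      c1 ≠ -e ∧ c1 ≠ 2 * e := by
    have a1 : 3 * e ≠ 0 := by simpa using nz 3 (by omega) (by omega) e he0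
    have a2 : -2 * e ≠ 0 := by simpa using nz 2 (by omega) (by omega) e he0
    rcases m2 (3 * e) (-2 * e) (by
      intro h; apply nz 5 (by omega) (by omega) e he0; push_cast; linear_combination h) a1 a2
      (by ring) with h | h
    · refine ⟨_, a1, h, ?_, ?_, ?_⟩
      · intro h; apply nz 2 (by omega) (by omega) e he0; push_cast; linear_combination h
      · intro h; apply nz 4 (by omega) (by omega) e he0; push_cast; linear_combination h
      · intro h; apply he0; linear_combination h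
    · refine ⟨_, a2, h, ?_, ?_, ?_⟩
      · intro h; apply nz 3 (by omega) (by omega) e he0; push_cast; linear_combination -h
      · intro h; apply he0; linear_combination -h
      · intro h; apply nz 4 (by omega) (by omega) e he0; push_cast; linear_combination -h
  obtain ⟨z, z', hzz, hz⟩ := card_eq_two.1 hc1
  obtain ⟨δ, rfl⟩ : ∃ δ, z' = z + δ := ⟨z' - z, by ring⟩
  have hδ0 : δ ≠ 0 := by rintro rfl; simp at hzz
  have hδ : ph P Q δ = 0 := by
    have k1 := fib_ph (A := A) (c := c1) z (by rw [hz]; simp)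
    have k2 := fib_ph (A := A) (c := c1) (z + δ) (by rw [hz]; simp)
    rw [map_add, k1] at k2
    simpa using k2
  have hδ2 : δ + δ ≠ 0 := by
    have := mul_delta_ne_zero hδ0 hδ (k := 2) (by omega) (by omega)
    intro h; apply this; push_cast; linear_combination h
  have hδ3 : δ + δ + δ ≠ 0 := by
    have := mul_delta_ne_zero hδ0 hδ (k := 3) (by omega) (by omega)
    intro h; apply this; push_cast; linear_combination h
  have hA' : (A.card : ℤ) + 1 = P + Q := by exact_mod_cast hA
  -- tightness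
  have T1 : ∀ c : ZMod P, c ≠ c1 → c ≠ e → (c = 0 ∨ 2 ≤ (fib A c).card) →
      (fib A c + {z, z + δ}).card ≤ (fib A c).card + 1 := by
    intro c h1 h2 h3
    obtain ⟨γ, τ, k1, k2, k3, k4, k5, k6⟩ := cf {e} ∅ (by simp) oneS (by simp) (by simp)
    rw [sum_singleton, heC, hcost2] at k6
    have k7 := k5 c1 hc10 (by simpa using n1) (by simp) hc1.ge
    have k8 : γ c + 1 = (fib A c).card ∧ τ c = c := by
      by_cases hc : c = 0
      · subst hc; exact ⟨by omega, k4⟩
      · exact k5 c hc (by simpa using h2) (by simp) (h3.resolve_left hc)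
    have := tight hg k1 k2 (by simp only [card_empty, card_singleton, sum_empty] at k6; omega) h1 k8.1 k7.1 k8.2 k7.2
    rw [hc1, hz] at this
    omega
  have T2 : (fib A e + {z, z + δ}).card ≤ (fib A e).card + 1 := by
    have a1 : -e ≠ 0 := neg_ne_zero.2 he0
    have a2 : e ≠ -e := by
      intro h; apply nz 2 (by omega) (by omega) e he0; push_cast; linear_combination h
    by_cases h : (fib A (-e)).card = 2
    · obtain ⟨γ, τ, k1, k2, k3, k4, k5, k6⟩ := cf ∅ {-e} (by simp) (by simp)
        (by intro c hc; rw [mem_singleton.1 hc]; exact ⟨a1, h⟩) (by simp)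
      have k7 := k5 c1 hc10 (by simp) (by simpa using n2) hc1.ge
      have k8 := k5 e he0 (by simp) (by simpa using a2) heC.ge
      have := tight hg k1 k2 (by simp only [card_empty, card_singleton, sum_empty] at k6; omega) n1.symm k8.1 k7.1 k8.2 k7.2
      rw [hc1, hz] at this
      omega
    · have a3 : 2 * e ≠ 0 := by simpa using nz 2 (by omega) (by omega) e he0
      have a4 : e ≠ 2 * e := by intro h; apply he0; linear_combination -h
      have a5 : -e ≠ 2 * e := by
        intro h; apply nz 3 (by omega) (by omega) e he0; push_cast; linear_combination -h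
      have h2 := (m2 (-e) (2 * e) a5 a1 a3 (by ring)).resolve_left h
      obtain ⟨γ, τ, k1, k2, k3, k4, k5, k6⟩ := cf {-e, 2 * e} ∅ (by simp) (pairS _ _ a1 a3)
        (by simp) (by rw [sum_pair a5]; simp; ring)
      rw [sum_pair a5, hcost _ a1 h, h2, hcost2] at k6
      have k7 := k5 c1 hc10 (by simp [n2, n3]) (by simp) hc1.ge
      have k8 := k5 e he0 (by simp [a2, a4]) (by simp) heC.ge
      have := tight hg k1 k2 (by simp only [card_empty, card_singleton, sum_empty] at k6; omega) n1.symm k8.1 k7.1 k8.2 k7.2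
      rw [hc1, hz] at this
      omega
  refine ⟨δ, hδ0, hδ, ?_, ?_⟩
  · have t := T1 0 hc10.symm he0.symm (Or.inl rfl)
    have h3 := hH.card_le
    obtain h | h | h : (fib A 0).card = 1 ∨ (fib A 0).card = 2 ∨ (fib A 0).card = 3 := by omega
    · obtain ⟨a, ha⟩ := card_eq_one.1 h
      rw [ha] at h00 ⊢
      left; rw [mem_singleton.1 h00]
    · obtain ⟨a, ha⟩ := ap_two hδ0 t h
      rw [ha] at h00 ⊢
      simp only [mem_insert, mem_singleton] at h00
      rcases h00 with h' | h'
      · right; right; left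
        have : a = δ := by linear_combination -h'
        rw [this]; simp
      · right; left; rw [← h']; simp
    · obtain ⟨a, ha⟩ := ap_three hδ0 hδ2 t h
      have hh := hH.2
      rw [ha] at h00 hh ⊢
      simp only [mem_insert, mem_singleton] at h00
      rcases h00 with h' | h' | h'
      · exfalso
        have : a = δ := by linear_combination -h'
        subst this
        rcases hh a (by simp) (a + a) (by simp) hδ0 hδ2 with k | k
        · apply hδ0; linear_combination -k
        · apply hδ3; linear_combination k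
      · right; right; right; rw [← h']; simp
      · exfalso
        have : a = -δ := by linear_combination -h'
        subst this
        rcases hh (-δ) (by simp) (-δ - δ) (by simp) (by simpa using hδ0)
          (by intro k; apply hδ2; linear_combination -k) with k | k
        · apply hδ0; linear_combination k
        · apply hδ3; linear_combination -k
  · intro c hc
    have h3 := hl c hc
    obtain h | h : (fib A c).card = 1 ∨ 2 ≤ (fib A c).card := by omega
    · obtain ⟨a, ha⟩ := card_eq_one.1 h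
      exact ⟨a, Or.inl ⟨h, ha⟩⟩
    by_cases k1 : c = c1
    · subst k1
      exact ⟨z + δ, Or.inr (Or.inl ⟨hc1, by rw [hz]; simp⟩)⟩
    have t : (fib A c + {z, z + δ}).card ≤ (fib A c).card + 1 := by
      by_cases k2 : c = e
      · rw [k2]; exact T2
      · exact T1 c k1 k2 (Or.inr h)
    obtain h | h : (fib A c).card = 2 ∨ (fib A c).card = 3 := by omega
    · obtain ⟨a, ha⟩ := ap_two hδ0 t h
      exact ⟨a, Or.inr (Or.inl ⟨h, ha⟩)⟩
    · obtain ⟨a, ha⟩ := ap_three hδ0 hδ2 t h
      exact ⟨a, Or.inr (Or.inr ⟨h, ha⟩)⟩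

end

end Pool.Agent.P.MP_10af71_co
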