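import Pool.Agent.P.MP_10af71_co.Step2

set_option linter.unusedSectionVars false

namespace Pool.Agent.P.MP_10af71_co

open Finset Pointwise

section
variable {P Q : ℕ} [Fact P.Prime] [Fact Q.Prime]

/-- the subset sums of `B` contain the progression `z, z + δ, ..., z + γ δ` -/
def Inn (δ : ZMod (P * Q)) (B : Finset (ZMod (P * Q))) (z : ZMod (P * Q)) (γ : ℕ) : Prop :=
  ∀ m : ℕ, m ≤ γ → z + m * δ ∈ B.subsetSum

lemma Inn.add {δ : ZMod (P * Q)} {B1 B2 : Finset (ZMod (P * Q))} {z1 z2 : ZMod (P * Q)}
    {γ1 γ2 : ℕ} (h : Disjoint B1 B2) (h1 : Inn δ B1 z1 γ1) (h2 : Inn δ B2 z2 γ2) :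
    Inn δ (B1 ∪ B2) (z1 + z2) (γ1 + γ2) := by
  intro m hm
  by_cases h' : m ≤ γ1
  · have := add_mem_subsetSum_union h (h1 m h') (h2 0 (Nat.zero_le _))
    convert this using 1; push_cast; ring
  · have := add_mem_subsetSum_union h (h1 γ1 le_rfl) (h2 (m - γ1) (by omega))
    convert this using 1
    rw [Nat.cast_sub (by omega)]; ring

lemma inn_fibs (δ : ZMod (P * Q)) (A : Finset (ZMod (P * Q))) (I : Finset (ZMod P))
    (z : ZMod P → ZMod (P * Q)) (γ : ZMod P → ℕ) (h : ∀ c ∈ I, Inn δ (fib A c) (z c) (γ c)) :
    Inn δ (fibs A I) (∑ c ∈ I, z c) (∑ c ∈ I, γ c) := by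
  induction I using Finset.induction_on with
  | empty =>
    intro m hm
    simp only [sum_empty, Nat.le_zero] at hm
    subst hm; simp
  | insert c I hc ih =>
    rw [fibs_insert, sum_insert hc, sum_insert hc]
    exact Inn.add (fibs_disj A hc) (h c (mem_insert_self _ _))
      (ih (fun x hx => h x (mem_insert_of_mem hx)))

lemma pair_mem {G : Type*} [AddCommGroup G] [DecidableEq G] {B : Finset G} {x y : G} (hx : x ∈ B)
    (hy : y ∈ B) (h : x ≠ y) : x + y ∈ B.subsetSum :=
  mem_subsetSum_iff.2 ⟨{x, y}, by
    intro w hw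
    rcases mem_insert.1 hw with rfl | hw
    · exact hx
    · rw [mem_singleton.1 hw]; exact hy, sum_pair h⟩

theorem main_large (hP7 : 7 ≤ P) (hPQ : P ≤ Q) {A : Finset (ZMod (P * Q))}
    (hA : A.card + 1 = P + Q) {g : ZMod (P * Q)} (hg : g ∉ A.subsetSum) :
    ∃ b : (ZMod (P * Q))ˣ, ∑ x ∈ A, ((b : ZMod (P * Q)) * x).valMinAbs.natAbs + 2 ≤ P * Q := by
  obtain ⟨δ, hδ0, hδ, hA0, hAc⟩ := step2 hP7 hPQ hA hg
  have hδ2 : δ + δ ≠ 0 := by
    have := mul_delta_ne_zero hδ0 hδ (k := 2) (by omega) (by omega)
    intro h; apply this; push_cast; linear_combination h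
  have hnd : -δ ≠ δ := fun h => hδ2 (by linear_combination -h)
  choose lo' hlo' using hAc
  let lo : ZMod P → ZMod (P * Q) := fun c => if h : c = 0 then 0 else lo' c h
  have lo0 : lo 0 = 0 := by simp [lo]
  have hlo : ∀ c : ZMod P, c ≠ 0 → ((fib A c).card = 1 ∧ fib A c = {lo c}) ∨
        ((fib A c).card = 2 ∧ fib A c = {lo c - δ, lo c}) ∨
        ((fib A c).card = 3 ∧ fib A c = {lo c - δ, lo c, lo c + δ}) := by
    intro c hc
    simp only [lo, dif_neg hc]
    exact hlo' c hc
  clear_value lo
  clear hlo' lo'
  let C : Finset (ZMod P) := univ.filter (fun c => c ≠ 0 ∧ (fib A c).card = 2)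
  have hC : ∀ c, c ∈ C ↔ c ≠ 0 ∧ (fib A c).card = 2 := by intro c; simp [C]
  clear_value C
  have C0 : (0 : ZMod P) ∉ C := by simp [hC]
  have lomem : ∀ c, lo c ∈ fib A c := by
    intro c
    by_cases hc : c = 0
    · subst hc; rw [lo0]; rcases hA0 with h | h | h | h <;> rw [h] <;> simp
    · rcases hlo c hc with h | h | h <;> rw [h.2] <;> simp
  -- starting points
  obtain ⟨s, hs⟩ : ∃ s : ZMod P → ZMod (P * Q), ∀ c,
      Inn δ (fib A c) (s c) ((fib A c).card - 1) ∧
      Inn δ (fib A c) (s c + lo c) ((fib A c).card - 1 - ic C c) ∧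
      (c ∈ C → s c + (δ - lo c) = 0) ∧ 1 ≤ (fib A c).card := by
    have : ∀ c, ∃ z : ZMod (P * Q), Inn δ (fib A c) z ((fib A c).card - 1) ∧
        Inn δ (fib A c) (z + lo c) ((fib A c).card - 1 - ic C c) ∧
        (c ∈ C → z + (δ - lo c) = 0) ∧ 1 ≤ (fib A c).card := by
      intro c
      by_cases hc : c = 0
      · subst hc
        rw [lo0, ic_not C0]
        suffices h : ∃ z, Inn δ (fib A 0) z ((fib A 0).card - 1) by
          obtain ⟨z, hz⟩ := h
          exact ⟨z, hz, by simpa using hz, fun h => absurd h C0, card_pos.2 ⟨_, lomem 0⟩⟩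
        rcases hA0 with h | h | h | h
        · refine ⟨0, fun m hm => ?_⟩
          rw [h] at hm ⊢
          obtain rfl : m = 0 := by simpa using hm
          simp
        · refine ⟨-δ, fun m hm => ?_⟩
          rw [h] at hm ⊢
          have := card_le_two (a := -δ) (b := 0)
          obtain rfl | rfl : m = 0 ∨ m = 1 := by omega
          · exact subset_subsetSum (by simp)
          · simp
        · refine ⟨0, fun m hm => ?_⟩
          rw [h] at hm ⊢
          have := card_le_two (a := 0) (b := δ)
          obtain rfl | rfl : m = 0 ∨ m = 1 := by omega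
          · simp
          · exact subset_subsetSum (by simp)
        · refine ⟨-δ, fun m hm => ?_⟩
          rw [h] at hm ⊢
          have := card_le_three (a := -δ) (b := 0) (c := δ)
          obtain rfl | rfl | rfl : m = 0 ∨ m = 1 ∨ m = 2 := by omega
          · exact subset_subsetSum (by simp)
          · simp
          · have : -δ + ((2 : ℕ) : ZMod (P * Q)) * δ = δ := by push_cast; ring
            rw [this]; exact subset_subsetSum (by simp)
      · rcases hlo c hc with ⟨h1, h2⟩ | ⟨h1, h2⟩ | ⟨h1, h2⟩
        · have hcC : c ∉ C := by rw [hC]; omega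
          rw [h1, ic_not hcC]
          refine ⟨0, fun m hm => ?_, fun m hm => ?_, fun h => absurd h hcC, le_rfl⟩
          · obtain rfl : m = 0 := by omega
            simp
          · obtain rfl : m = 0 := by omega
            rw [h2]; exact subset_subsetSum (by simp)
        · have hcC : c ∈ C := by rw [hC]; exact ⟨hc, h1⟩
          rw [h1, ic_mem hcC]
          refine ⟨lo c - δ, fun m hm => ?_, fun m hm => ?_, fun _ => by ring, by omega⟩
          · rw [h2]
            obtain rfl | rfl : m = 0 ∨ m = 1 := by omega
            · exact subset_subsetSum (by simp)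
            · exact subset_subsetSum (by simp)
          · obtain rfl : m = 0 := by omega
            rw [h2]
            simpa using pair_mem (B := {lo c - δ, lo c}) (x := lo c - δ) (y := lo c) (by simp)
              (by simp) (by simpa using hδ0)
        · have hcC : c ∉ C := by rw [hC]; omega
          rw [h1, ic_not hcC]
          refine ⟨lo c - δ, fun m hm => ?_, fun m hm => ?_, fun h => absurd h hcC, by omega⟩
          · rw [h2]
            obtain rfl | rfl | rfl : m = 0 ∨ m = 1 ∨ m = 2 := by omega
            · exact subset_subsetSum (by simp)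
            · exact subset_subsetSum (by simp)
            · have : lo c - δ + ((2 : ℕ) : ZMod (P * Q)) * δ = lo c + δ := by push_cast; ring
              rw [this]; exact subset_subsetSum (by simp)
          · rw [h2]
            obtain rfl | rfl | rfl : m = 0 ∨ m = 1 ∨ m = 2 := by omega
            · simpa using pair_mem (B := {lo c - δ, lo c, lo c + δ}) (x := lo c - δ) (y := lo c)
                (by simp) (by simp) (by simpa using hδ0)
            · have := pair_mem (B := {lo c - δ, lo c, lo c + δ}) (x := lo c - δ) (y := lo c + δ)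
                (by simp) (by simp) (by rw [sub_eq_add_neg]; simpa using hnd)
              convert this using 1; push_cast; ring
            · have := pair_mem (B := {lo c - δ, lo c, lo c + δ}) (x := lo c) (y := lo c + δ)
                (by simp) (by simp) (by simpa using hδ0)
              convert this using 1; push_cast; ring
    choose s hs using this
    exact ⟨s, hs⟩
  have hsum : ∑ c, ((fib A c).card - 1) + 1 = Q := by
    have h1 : ∑ c, (fib A c).card = A.card := by rw [← card_fibs, fibs_univ]
    have h2 : ∑ c : ZMod P, ((fib A c).card - 1) + ∑ _c : ZMod P, 1 = ∑ c, (fib A c).card := by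
      rw [← sum_add_distrib]; apply sum_congr rfl; intro c _
      have := (hs c).2.2.2; omega
    simp only [sum_const, card_univ, ZMod.card, smul_eq_mul, mul_one] at h2
    omega
  have M : GStr P Q lo C δ (g - ∑ c, s c + δ) := by
    refine ⟨fun c => fib_ph _ (lomem c), lo0, C0, hδ, hδ0, ?_⟩
    intro S S' hd hS' hsum'
    have hin := inn_fibs δ A univ
      (fun c => s c + (if c ∈ S then lo c else 0) + (if c ∈ S' then δ - lo c else 0))
      (fun c => (fib A c).card - 1 - (if c ∈ S then ic C c else 0) - (if c ∈ S' then 1 else 0))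
      (by
        intro c _
        by_cases h1 : c ∈ S
        · have h2 : c ∉ S' := disjoint_left.1 hd h1
          simp only [if_pos h1, if_neg h2, add_zero, Nat.sub_zero]
          exact (hs c).2.1
        · by_cases h2 : c ∈ S'
          · simp only [if_neg h1, if_pos h2, add_zero, Nat.sub_zero]
            rw [(hs c).2.2.1 (hS' h2), ((hC c).1 (hS' h2)).2]
            intro m hm
            obtain rfl : m = 0 := by omega
            simp
          · simp only [if_neg h1, if_neg h2, add_zero, Nat.sub_zero]
            exact (hs c).1)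
    rw [fibs_univ, sum_add_distrib, sum_add_distrib, sum_ite_mem, sum_ite_mem, univ_inter,
      univ_inter] at hin
    have hcount : ∑ c, ((fib A c).card - 1 - (if c ∈ S then ic C c else 0) -
        (if c ∈ S' then 1 else 0)) + ∑ c ∈ S, ic C c + S'.card = ∑ c, ((fib A c).card - 1) := by
      have e1 : ∑ c ∈ S, ic C c = ∑ c, if c ∈ S then ic C c else 0 := by
        rw [sum_ite_mem, univ_inter]
      have e2 : S'.card = ∑ c, if c ∈ S' then 1 else 0 := by
        rw [sum_ite_mem, univ_inter]; simp
      rw [e1, e2, ← sum_add_distrib, ← sum_add_distrib]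
      apply sum_congr rfl; intro c _
      by_cases h1 : c ∈ S
      · have h2 : c ∉ S' := disjoint_left.1 hd h1
        simp only [if_pos h1, if_neg h2]
        by_cases h3 : c ∈ C
        · rw [ic_mem h3, ((hC c).1 h3).2]
        · rw [ic_not h3]; omega
      · by_cases h2 : c ∈ S'
        · simp only [if_neg h1, if_pos h2]; rw [((hC c).1 (hS' h2)).2]
        · simp only [if_neg h1, if_neg h2]; omega
    obtain ⟨m, hm, hm'⟩ := exists_mul_delta hδ0 hδ
      (x := g - (∑ c, s c + ∑ c ∈ S, lo c + ∑ c ∈ S', (δ - lo c))) (by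
        simp only [map_sub, map_add, map_sum, hδ] at hsum' ⊢
        have : ∀ c, ph P Q (lo c) = c := fun c => fib_ph _ (lomem c)
        have e : ∑ x ∈ S', (0 - x) = - ∑ x ∈ S', x := by
          rw [← sum_neg_distrib]; exact sum_congr rfl (fun x _ => zero_sub x)
        simp only [this]
        rw [e]
        linear_combination -hsum')
    have hgt : ∑ c, ((fib A c).card - 1 - (if c ∈ S then ic C c else 0) -
        (if c ∈ S' then 1 else 0)) < m := by
      by_contra hcon
      have := hin m (by omega)
      rw [← hm'] at this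
      apply hg; simpa using this
    refine ⟨Q - 1 - m, by omega, ?_⟩
    have hQδ := mul_delta_eq_zero hδ
    rw [Nat.cast_sub (by omega), Nat.cast_sub (by omega)]
    push_cast
    linear_combination -hm' - hQδ
  refine norm_of_gstr M Fact.out hP7 Fact.out (by omega) ?_
    (fun c => (mem_fib.1 (lomem c)).1) ?_ hg
  · intro x hx
    have hx' : x ∈ fib A (ph P Q x) := mem_fib.2 ⟨hx, rfl⟩
    generalize ph P Q x = c at hx' ⊢
    by_cases hc : c = 0
    · subst hc
      rw [lo0]
      rcases hA0 with h | h | h | h <;> rw [h] at hx' <;>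
        simp only [mem_insert, mem_singleton] at hx' <;> simp only [zero_sub, zero_add] <;> tauto
    · rcases hlo c hc with ⟨h1, h2⟩ | ⟨h1, h2⟩ | ⟨h1, h2⟩
      · rw [h2] at hx'; simp only [mem_singleton] at hx'; tauto
      · rw [h2] at hx'; simp only [mem_insert, mem_singleton] at hx'; tauto
      · have hcC : c ∉ C := by rw [hC]; omega
        rw [h2] at hx'; simp only [mem_insert, mem_singleton] at hx'; tauto
  · intro c hc
    rw [hC] at hc
    rcases hlo c hc.1 with ⟨h1, h2⟩ | ⟨h1, h2⟩ | ⟨h1, h2⟩
    · omega
    · exact (mem_fib (c := c)).1 (by rw [h2]; simp) |>.1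
    · omega

end

end Pool.Agent.P.MP_10af71_co
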